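import Mathlib

/-!
Descent for `q^k (u^x ± v^y) = w^q`, where the pair `(u, v)` satisfies a power residue condition.
-/

namespace Pool.Agent.H374R2.Beal

/-- Power residue condition on the pair `(u, v)` at the odd prime `q`. -/
def Good (q u v : ℕ) : Prop :=
  ∀ k y : ℕ, (∀ r : ℕ, r.Prime → r ∣ u → ∃ t : ZMod r, t ^ q = (q : ZMod r) ^ k * (v : ZMod r) ^ y)
    → q ∣ y

theorem factor_step {q : ℕ} (hq : q.Prime) (hq2 : q ≠ 2) {a b w : ℤ} {k : ℕ}
    (hab : IsCoprime a b) (h0 : a + b ≠ 0) (h : (q : ℤ) ^ k * (a ^ q + b ^ q) = w ^ q) :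
    ∃ (k' : ℕ) (w' : ℤ), (q : ℤ) ^ k' * (a + b) = w' ^ q := by
  have hodd : Odd q := hq.odd_of_ne_two hq2
  have : Fact q.Prime := ⟨hq⟩
  have hqZ : Prime (q : ℤ) := Nat.prime_iff_prime_int.mp hq
  set Q : ℤ := ∑ i ∈ Finset.range q, a ^ i * (-b) ^ (q - 1 - i) with hQ
  have hfac : (a + b) * Q = a ^ q + b ^ q := by
    have h1 := geom_sum₂_mul a (-b) q
    rw [hodd.neg_pow, sub_neg_eq_add, sub_neg_eq_add] at h1
    rw [mul_comm, ← h1]
  -- a prime dividing both `a + b` and `Q` is `q`
  have key : ∀ p : ℤ, Prime p → p ∣ a + b → p ∣ Q → p ∣ (q : ℤ) := by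
    intro p hp h1 h2
    have h3 : p ∣ a - (-b) := by rwa [sub_neg_eq_add]
    have h4 := (dvd_geom_sum₂_iff_of_dvd_sub (n := q) h3).mp h2
    rcases hp.dvd_or_dvd h4 with h5 | h5
    · exact_mod_cast h5
    · exfalso
      have h6 : p ∣ b := by
        have := hp.dvd_of_dvd_pow h5
        rwa [dvd_neg] at this
      have h7 : p ∣ a := (dvd_add_left h6).mp h1
      exact hp.not_isUnit (hab.isUnit_of_dvd' h7 h6)
  rw [← hfac] at h
  by_cases hdiv : (q : ℤ) ∣ a + b
  · -- second case
    have hqa : ¬ (q : ℤ) ∣ a := by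
      intro h1
      have h2 : (q : ℤ) ∣ b := (dvd_add_right h1).mp hdiv
      exact hqZ.not_isUnit (hab.isUnit_of_dvd' h1 h2)
    have hem := Int.emultiplicity_pow_add_pow (p := q) hq hodd hdiv hqa hodd
    rw [← hfac, emultiplicity_mul hqZ] at hem
    have hfin : FiniteMultiplicity (q : ℤ) (a + b) :=
      Int.finiteMultiplicity_iff.mpr ⟨by
        rw [Int.natAbs_natCast]; exact hq.one_lt.ne', h0⟩
    have hem1 : emultiplicity (q : ℤ) Q = 1 := by
      have h8 : emultiplicity q q = 1 := by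
        have hf : FiniteMultiplicity q q :=
          Nat.finiteMultiplicity_iff.mpr ⟨hq.one_lt.ne', hq.pos⟩
        rw [hf.emultiplicity_eq_multiplicity]
        simp [multiplicity_self]
      rw [h8, hfin.emultiplicity_eq_multiplicity] at hem
      have h9 : (multiplicity (q:ℤ) (a + b) : ℕ∞) ≠ ⊤ := ENat.natCast_ne_top _
      exact (ENat.add_right_injective_of_ne_top h9) hem
    have hQ1 : (q : ℤ) ∣ Q := by
      have := (emultiplicity_eq_coe (n := 1)).mp (by simpa using hem1)
      simpa using this.1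
    have hQ2 : ¬ (q : ℤ) ^ 2 ∣ Q := by
      have := (emultiplicity_eq_coe (n := 1)).mp (by simpa using hem1)
      simpa using this.2
    obtain ⟨Q', hQ'⟩ := hQ1
    have hqQ' : ¬ (q : ℤ) ∣ Q' := by
      rintro ⟨c, hc⟩
      exact hQ2 ⟨c, by rw [hQ', hc]; ring⟩
    have hcop : IsCoprime ((q : ℤ) ^ (k + 1) * (a + b)) Q' := by
      apply isCoprime_of_prime_dvd
      · rintro ⟨h1, -⟩
        rcases mul_eq_zero.mp h1 with h2 | h2
        · exact pow_ne_zero _ hqZ.ne_zero h2
        · exact h0 h2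
      · intro p hp h1 h2
        rcases hp.dvd_or_dvd h1 with h3 | h3
        · have h4 := hp.dvd_of_dvd_pow h3
          have h5 : Associated p (q : ℤ) := hp.associated_of_dvd hqZ h4
          exact hqQ' (h5.symm.dvd.trans h2)
        · have h4 := key p hp h3 (hQ' ▸ Dvd.dvd.mul_left h2 _)
          have h5 : Associated p (q : ℤ) := hp.associated_of_dvd hqZ h4
          exact hqQ' (h5.symm.dvd.trans h2)
    have h10 : ((q : ℤ) ^ (k + 1) * (a + b)) * Q' = w ^ q := by
      rw [← h, hQ']; ring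
    obtain ⟨d, hd⟩ := (Int.eq_pow_of_mul_eq_pow_odd hcop hodd h10).1
    exact ⟨k + 1, d, hd⟩
  · -- first case
    have hqQ : ¬ (q : ℤ) ∣ Q := by
      intro h1
      apply hdiv
      have h2 : (q : ℤ) ∣ a ^ q + b ^ q := hfac ▸ Dvd.dvd.mul_left h1 _
      have h3 : ((a ^ q + b ^ q : ℤ) : ZMod q) = ((a + b : ℤ) : ZMod q) := by
        push_cast
        rw [ZMod.pow_card, ZMod.pow_card]
      rw [← ZMod.intCast_zmod_eq_zero_iff_dvd] at h2 ⊢
      rw [← h3]; exact h2
    have hcop : IsCoprime ((q : ℤ) ^ k * (a + b)) Q := by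
      apply isCoprime_of_prime_dvd
      · rintro ⟨h1, -⟩
        rcases mul_eq_zero.mp h1 with h2 | h2
        · exact pow_ne_zero _ hqZ.ne_zero h2
        · exact h0 h2
      · intro p hp h1 h2
        rcases hp.dvd_or_dvd h1 with h3 | h3
        · have h4 := hp.dvd_of_dvd_pow h3
          have h5 : Associated p (q : ℤ) := hp.associated_of_dvd hqZ h4
          exact hqQ (h5.symm.dvd.trans h2)
        · have h4 := key p hp h3 h2
          have h5 : Associated p (q : ℤ) := hp.associated_of_dvd hqZ h4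
          exact hqQ (h5.symm.dvd.trans h2)
    have h10 : ((q : ℤ) ^ k * (a + b)) * Q = w ^ q := by
      rw [← h]; ring
    obtain ⟨d, hd⟩ := (Int.eq_pow_of_mul_eq_pow_odd hcop hodd h10).1
    exact ⟨k, d, hd⟩

theorem good_ne_one {q v : ℕ} (hq : q.Prime) : ¬ Good q 1 v := by
  intro h
  have := h 0 1 (fun r hr h1 => absurd (Nat.dvd_one.mp h1) hr.one_lt.ne')
  exact hq.one_lt.ne' (Nat.dvd_one.mp this)

/-- The descent: a pair satisfying both residue conditions admits no solution at all. -/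
theorem no_sol_odd {q : ℕ} (hq : q.Prime) (hq2 : q ≠ 2) {u v : ℕ}
    (huv : Nat.Coprime u v) (h1 : Good q u v) (h2 : Good q v u) {ε : ℤ} (hε : ε = 1 ∨ ε = -1) :
    ∀ (x y k : ℕ) (w : ℤ), 0 < x → 0 < y →
      (q : ℤ) ^ k * ((u : ℤ) ^ x + ε * (v : ℤ) ^ y) = w ^ q → False := by
  have hodd : Odd q := hq.odd_of_ne_two hq2
  have hεq : ε ^ q = ε := by
    rcases hε with rfl | rfl
    · simp
    · rw [hodd.neg_one_pow]
  have hεε : ε * ε = 1 := by rcases hε with rfl | rfl <;> norm_num
  have hu1 : u ≠ 1 := by rintro rfl; exact good_ne_one hq h1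
  intro x
  induction x using Nat.strong_induction_on with
  | _ x ih =>
    intro y k w hx hy h
    have hqy : q ∣ y := by
      apply h1 k y
      intro r hr hru
      have hru' : ((u : ℤ) : ZMod r) = 0 := by
        rw [Int.cast_natCast]; exact (ZMod.natCast_eq_zero_iff u r).mpr hru
      refine ⟨(ε : ZMod r) * (w : ZMod r), ?_⟩
      have h3 := congrArg (fun z : ℤ => (z : ZMod r)) h
      simp only [Int.cast_mul, Int.cast_pow, Int.cast_add, Int.cast_natCast] at h3
      rw [Int.cast_natCast] at hru'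
      rw [hru', zero_pow hx.ne', zero_add] at h3
      have h4 : ((ε : ℤ) : ZMod r) ^ q = (ε : ZMod r) := by
        have := congrArg (fun z : ℤ => (z : ZMod r)) hεq
        simpa using this
      have h5 : ((ε : ℤ) : ZMod r) * (ε : ZMod r) = 1 := by
        have := congrArg (fun z : ℤ => (z : ZMod r)) hεε
        simpa using this
      rw [mul_pow, h4, ← h3]
      linear_combination ((q : ZMod r) ^ k * (v : ZMod r) ^ y) * h5
    have hqx : q ∣ x := by
      apply h2 k x
      intro r hr hrv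
      have hrv' : (v : ZMod r) = 0 := (ZMod.natCast_eq_zero_iff v r).mpr hrv
      refine ⟨(w : ZMod r), ?_⟩
      have h3 := congrArg (fun z : ℤ => (z : ZMod r)) h
      simp only [Int.cast_mul, Int.cast_pow, Int.cast_add, Int.cast_natCast] at h3
      rw [hrv', zero_pow hy.ne', mul_zero, add_zero] at h3
      exact h3.symm
    obtain ⟨x', rfl⟩ := hqx
    obtain ⟨y', rfl⟩ := hqy
    have hx' : 0 < x' := Nat.pos_of_mul_pos_left hx |> fun h => by
      rcases Nat.eq_zero_or_pos x' with h0 | h0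
      · subst h0; simp at hx
      · exact h0
    have hy' : 0 < y' := by
      rcases Nat.eq_zero_or_pos y' with h0 | h0
      · subst h0; simp at hy
      · exact h0
    have hcop : IsCoprime ((u : ℤ) ^ x') (ε * (v : ℤ) ^ y') := by
      have h3 : IsCoprime (u : ℤ) (v : ℤ) := Nat.isCoprime_iff_coprime.mpr huv
      have h4 : IsCoprime ((u : ℤ) ^ x') ((v : ℤ) ^ y') := h3.pow
      rcases hε with rfl | rfl
      · simpa using h4
      · simpa using h4.neg_right
    have h0 : (u : ℤ) ^ x' + ε * (v : ℤ) ^ y' ≠ 0 := by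
      intro h3
      have h4 : (ε * (v : ℤ) ^ y') = - (u : ℤ) ^ x' := by linear_combination h3
      rw [h4] at hcop
      have h5 : IsUnit ((u : ℤ) ^ x') := by
        have := hcop.neg_right
        rw [neg_neg] at this
        exact isCoprime_self.mp this
      have h6 : IsUnit (u : ℤ) := (isUnit_pow_iff hx'.ne').mp h5
      apply hu1
      have := Int.isUnit_iff_natAbs_eq.mp h6
      simpa using this
    have h3 : (q : ℤ) ^ k * (((u : ℤ) ^ x') ^ q + (ε * (v : ℤ) ^ y') ^ q) = w ^ q := by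
      rw [mul_pow, hεq, ← pow_mul, ← pow_mul, mul_comm x' q, mul_comm y' q]; exact h
    obtain ⟨k', w', hw'⟩ := factor_step hq hq2 hcop h0 h3
    have hlt : x' < q * x' := by
      have := hq.one_lt
      nlinarith
    exact ih x' hlt y' k' w' hx' hy' hw'

end Pool.Agent.H374R2.Beal
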