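import Mathlib

/-!
Sets of pairs of uniform (Banach) density zero, cut out by conditions modulo primes.
-/

namespace Pool.Agent.H374R2.Beal

open Finset

/-- A set of pairs of natural numbers has uniform (upper Banach) density zero: in every large
box the proportion of its members is small, wherever the box is placed. -/
def UniformNull (E : Set (ℕ × ℕ)) : Prop :=
  ∀ ε : ℝ, 0 < ε → ∃ L : ℕ, ∀ X Y : ℕ, L ≤ X → L ≤ Y → ∀ a b : ℕ,
    ((E ∩ (Set.Ioc a (a + X) ×ˢ Set.Ioc b (b + Y))).ncard : ℝ) ≤ ε * (X * Y)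

theorem box_finite (a b X Y : ℕ) : (Set.Ioc a (a + X) ×ˢ Set.Ioc b (b + Y)).Finite :=
  (Set.finite_Ioc _ _).prod (Set.finite_Ioc _ _)

theorem UniformNull.mono {E F : Set (ℕ × ℕ)} (h : UniformNull F) (hEF : E ⊆ F) : UniformNull E := by
  intro ε hε
  obtain ⟨L, hL⟩ := h ε hε
  refine ⟨L, fun X Y hX hY a b => le_trans ?_ (hL X Y hX hY a b)⟩
  exact_mod_cast Set.ncard_le_ncard (Set.inter_subset_inter_left _ hEF)
    ((box_finite a b X Y).subset Set.inter_subset_right)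

theorem UniformNull.union {E F : Set (ℕ × ℕ)} (h : UniformNull E) (h' : UniformNull F) :
    UniformNull (E ∪ F) := by
  intro ε hε
  obtain ⟨L, hL⟩ := h (ε / 2) (by positivity)
  obtain ⟨L', hL'⟩ := h' (ε / 2) (by positivity)
  refine ⟨max L L', fun X Y hX hY a b => ?_⟩
  have h1 := hL X Y ((le_max_left _ _).trans hX) ((le_max_left _ _).trans hY) a b
  have h2 := hL' X Y ((le_max_right _ _).trans hX) ((le_max_right _ _).trans hY) a b
  rw [Set.union_inter_distrib_right]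
  have h3 : (((E ∩ (Set.Ioc a (a + X) ×ˢ Set.Ioc b (b + Y))) ∪
      (F ∩ (Set.Ioc a (a + X) ×ˢ Set.Ioc b (b + Y)))).ncard : ℝ) ≤
      (E ∩ (Set.Ioc a (a + X) ×ˢ Set.Ioc b (b + Y))).ncard +
      (F ∩ (Set.Ioc a (a + X) ×ˢ Set.Ioc b (b + Y))).ncard := by
    exact_mod_cast Set.ncard_union_le _ _
  linarith

theorem UniformNull.swap {E : Set (ℕ × ℕ)} (h : UniformNull E) :
    UniformNull (Prod.swap ⁻¹' E) := by
  intro ε hε
  obtain ⟨L, hL⟩ := h ε hε
  refine ⟨L, fun X Y hX hY a b => ?_⟩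
  have h1 := hL Y X hY hX b a
  have h2 : (Prod.swap ⁻¹' E ∩ (Set.Ioc a (a + X) ×ˢ Set.Ioc b (b + Y))) =
      Prod.swap '' (E ∩ (Set.Ioc b (b + Y) ×ˢ Set.Ioc a (a + X))) := by
    ext ⟨x, y⟩
    simp only [Set.mem_inter_iff, Set.mem_preimage, Prod.swap_prod_mk, Set.mem_prod, Set.mem_Ioc,
      Set.mem_image, Prod.exists, Prod.mk.injEq]
    constructor
    · rintro ⟨h1, h2, h3⟩
      exact ⟨y, x, ⟨h1, h3, h2⟩, rfl, rfl⟩
    · rintro ⟨c, d, ⟨h1, h2, h3⟩, rfl, rfl⟩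
      exact ⟨h1, h3, h2⟩
  rw [h2, Set.ncard_image_of_injective _ Prod.swap_injective]
  calc _ ≤ _ := h1
    _ = _ := by ring

/-- Number of elements of an interval in a residue class. -/
theorem card_class_le (M : ℕ) (hM : 0 < M) (a X : ℕ) (c : ZMod M) :
    ((Finset.Ioc a (a + X)).filter (fun n : ℕ => (n : ZMod M) = c)).card ≤ X / M + 1 := by
  have : NeZero M := ⟨hM.ne'⟩
  have h1 : ((Finset.Ioc a (a + X)).filter (fun n : ℕ => (n : ZMod M) = c)) =
      (Finset.Ioc a (a + X)).filter (fun n : ℕ => n ≡ c.val [MOD M]) := by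
    apply Finset.filter_congr
    intro n _
    rw [← ZMod.natCast_eq_natCast_iff, ZMod.natCast_zmod_val]
  rw [h1]
  have h2 := Nat.Ioc_filter_modEq_card a (a + X) hM c.val
  have h3 : (((Finset.Ioc a (a + X)).filter (fun n : ℕ => n ≡ c.val [MOD M])).card : ℤ) ≤ X / M + 1 := by
    rw [h2]
    apply max_le
    · have h4 : (⌊(((a + X : ℕ) : ℚ) - (c.val : ℚ)) / M⌋ : ℤ) - ⌊((a : ℚ) - (c.val : ℚ)) / M⌋ < (X : ℚ) / M + 1 := by
        have e1 := Int.floor_le ((((a + X : ℕ) : ℚ) - (c.val : ℚ)) / M)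
        have e2 := Int.lt_floor_add_one (((a : ℚ) - (c.val : ℚ)) / M)
        have e3 : (((a + X : ℕ) : ℚ) - (c.val : ℚ)) / M = ((a : ℚ) - (c.val : ℚ)) / M + (X : ℚ) / M := by
          push_cast; ring
        rw [e3] at e1 ⊢
        linarith
      have h5 : ((⌊(((a + X : ℕ) : ℚ) - (c.val : ℚ)) / M⌋ : ℤ) - ⌊((a : ℚ) - (c.val : ℚ)) / M⌋ - 1 : ℤ) ≤ ⌊(X : ℚ) / M⌋ := by
        apply Int.le_floor.mpr
        push_cast at h4 ⊢
        linarith
      have h6 : ⌊(X : ℚ) / M⌋ = ((X / M : ℕ) : ℤ) := by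
        rw [show ((X : ℚ) / M) = (((X : ℕ) : ℚ) / ((M : ℕ) : ℚ)) from rfl]
        rw [Rat.floor_natCast_div_natCast]
        push_cast; rfl
      rw [h6] at h5
      push_cast at h5 ⊢
      linarith
    · positivity
  exact_mod_cast h3

/-- A set contained in few residue classes modulo `M` has few elements in each box. -/
theorem box_le (M : ℕ) (hM : 0 < M) (B : Finset (ZMod M × ZMod M)) (E : Set (ℕ × ℕ))
    (hE : ∀ p ∈ E, ((p.1 : ZMod M), (p.2 : ZMod M)) ∈ B) (X Y a b : ℕ) :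
    (E ∩ (Set.Ioc a (a + X) ×ˢ Set.Ioc b (b + Y))).ncard ≤ B.card * ((X / M + 1) * (Y / M + 1)) := by
  classical
  have h1 : (E ∩ (Set.Ioc a (a + X) ×ˢ Set.Ioc b (b + Y))) ⊆
      ((B.biUnion fun c => ((Finset.Ioc a (a + X)).filter (fun n : ℕ => (n : ZMod M) = c.1)) ×ˢ
        ((Finset.Ioc b (b + Y)).filter (fun n : ℕ => (n : ZMod M) = c.2)) : Finset (ℕ × ℕ)) : Set (ℕ × ℕ)) := by
    rintro ⟨x, y⟩ ⟨h, h2⟩
    simp only [Set.mem_prod, Set.mem_Ioc] at h2
    simp only [Finset.coe_biUnion, Set.mem_iUnion, Finset.coe_product, Set.mem_prod,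
      Finset.mem_coe, Finset.mem_filter, Finset.mem_Ioc]
    exact ⟨_, hE _ h, ⟨h2.1, rfl⟩, ⟨h2.2, rfl⟩⟩
  calc (E ∩ (Set.Ioc a (a + X) ×ˢ Set.Ioc b (b + Y))).ncard
      ≤ _ := Set.ncard_le_ncard h1 (Finset.finite_toSet _)
    _ = _ := Set.ncard_coe_finset _
    _ ≤ ∑ c ∈ B, (((Finset.Ioc a (a + X)).filter (fun n : ℕ => (n : ZMod M) = c.1)) ×ˢ
        ((Finset.Ioc b (b + Y)).filter (fun n : ℕ => (n : ZMod M) = c.2))).card :=
          Finset.card_biUnion_le
    _ ≤ ∑ c ∈ B, (X / M + 1) * (Y / M + 1) := by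
          apply Finset.sum_le_sum
          intro c _
          rw [Finset.card_product]
          exact Nat.mul_le_mul (card_class_le M hM a X c.1) (card_class_le M hM b Y c.2)
    _ = _ := by rw [Finset.sum_const, smul_eq_mul]

/-- Chinese remainder count. -/
theorem crt_count {ι : Type*} [Fintype ι] [DecidableEq ι] (m : ι → ℕ)
    (hco : Pairwise fun i j => Nat.Coprime (m i) (m j))
    (S : ∀ i, Finset (ZMod (m i) × ZMod (m i))) :
    ∃ M : ℕ, M = ∏ i, m i ∧ ∃ B : Finset (ZMod M × ZMod M), B.card = ∏ i, (S i).card ∧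
      ∀ u v : ℕ, (∀ i, ((u : ZMod (m i)), (v : ZMod (m i))) ∈ S i) →
        ((u : ZMod M), (v : ZMod M)) ∈ B := by
  classical
  let e := ZMod.prodEquivPi m hco
  let f : (ZMod (∏ i, m i) × ZMod (∏ i, m i)) ≃ (∀ i, ZMod (m i) × ZMod (m i)) :=
    (Equiv.prodCongr e.toEquiv e.toEquiv).trans
      { toFun := fun p i => (p.1 i, p.2 i)
        invFun := fun g => (fun i => (g i).1, fun i => (g i).2)
        left_inv := fun p => rfl
        right_inv := fun g => rfl }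
  refine ⟨_, rfl, (Fintype.piFinset S).map f.symm.toEmbedding, ?_, ?_⟩
  · rw [Finset.card_map, Fintype.card_piFinset]
  · intro u v h
    rw [Finset.mem_map_equiv, Equiv.symm_symm, Fintype.mem_piFinset]
    intro i
    have h1 : f ((u : ZMod (∏ i, m i)), (v : ZMod (∏ i, m i))) i = ((u : ZMod (m i)), (v : ZMod (m i))) := by
      simp only [f, Equiv.trans_apply, Equiv.prodCongr_apply, Prod.map_apply, Equiv.coe_fn_mk]
      simp [e]
    rw [h1]
    exact h i

/-- Core statement: if `∑_{r ∈ R} 1/r = ∞` and each `T r ⊆ ℤ/r` has at least `c r` elements, then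
the pairs `(u, v)` for which no `r ∈ R` has `r ∣ u` and `v mod r ∈ T r` are uniformly null. -/
theorem uniformNull_core (R : Set ℕ) (hR : ∀ r ∈ R, r.Prime)
    (hdiv : ¬ Summable (fun r : ℕ => R.indicator (fun n : ℕ => (1 : ℝ) / n) r))
    (T : ∀ r : ℕ, Set (ZMod r)) (c : ℝ) (hc : 0 < c)
    (hT : ∀ r ∈ R, c * r ≤ (T r).ncard) :
    UniformNull {p | ∀ r ∈ R, ¬ (r ∣ p.1 ∧ (p.2 : ZMod r) ∈ T r)} := by
  classical
  intro ε hε
  -- a finite set of primes with large reciprocal sum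
  obtain ⟨F, hFR, hF⟩ : ∃ F : Finset ℕ, (∀ r ∈ F, r ∈ R) ∧
      Real.exp (-(c * ∑ r ∈ F, (1 : ℝ) / r)) ≤ ε / 4 := by
    have h1 : ∃ F : Finset ℕ, (-Real.log (ε / 4)) / c ≤ ∑ r ∈ F, R.indicator (fun n : ℕ => (1 : ℝ) / n) r := by
      by_contra hcon
      push Not at hcon
      apply hdiv
      refine summable_of_sum_le (c := (-Real.log (ε / 4)) / c) ?_ ?_
      · intro r
        apply Set.indicator_nonneg
        intro n _
        positivity
      · intro F
        exact (hcon F).le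
    obtain ⟨F, hF⟩ := h1
    refine ⟨F.filter (fun r => r ∈ R), fun r hr => (Finset.mem_filter.mp hr).2, ?_⟩
    have h2 : ∑ r ∈ F, R.indicator (fun n : ℕ => (1 : ℝ) / n) r =
        ∑ r ∈ F.filter (fun r => r ∈ R), (1 : ℝ) / r := by
      rw [Finset.sum_filter]
      apply Finset.sum_congr rfl
      intro r _
      rw [Set.indicator_apply]
    rw [h2, div_le_iff₀ hc] at hF
    have h3 : -(c * ∑ r ∈ F.filter (fun r => r ∈ R), (1 : ℝ) / r) ≤ Real.log (ε / 4) := by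
      linarith
    calc _ ≤ Real.exp (Real.log (ε / 4)) := Real.exp_le_exp.mpr h3
      _ = ε / 4 := Real.exp_log (by positivity)
  have hpr : ∀ i : F, ((i : ℕ)).Prime := fun i => hR _ (hFR _ i.2)
  have hco : Pairwise fun i j : F => Nat.Coprime (i : ℕ) (j : ℕ) := by
    intro i j hij
    exact (Nat.coprime_primes (hpr i) (hpr j)).mpr (fun h => hij (Subtype.ext h))
  have : ∀ i : F, NeZero (i : ℕ) := fun i => ⟨(hpr i).ne_zero⟩
  let S : ∀ i : F, Finset (ZMod (i : ℕ) × ZMod (i : ℕ)) := fun i =>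
    Finset.univ.filter (fun p => ¬ (p.1 = 0 ∧ p.2 ∈ T i))
  obtain ⟨M, hM, B, hBcard, hB⟩ := crt_count (fun i : F => (i : ℕ)) hco S
  have hMpos : 0 < M := hM ▸ Finset.prod_pos (fun i _ => (hpr i).pos)
  have hMR : (0 : ℝ) < M := by exact_mod_cast hMpos
  -- the cardinality of `S i`
  have hS : ∀ i : F, ((S i).card : ℝ) ≤ (i : ℝ) ^ 2 * Real.exp (-(c * ((1 : ℝ) / (i : ℕ)))) := by
    intro i
    have hi0 : (0 : ℝ) < ((i : ℕ) : ℝ) := by exact_mod_cast (hpr i).pos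
    have h1 : ((Finset.univ : Finset (ZMod (i : ℕ) × ZMod (i : ℕ))).filter
        (fun p => (p.1 = 0 ∧ p.2 ∈ T i))).card = (T i).ncard := by
      have h2 : ((Finset.univ : Finset (ZMod (i : ℕ) × ZMod (i : ℕ))).filter
        (fun p => (p.1 = 0 ∧ p.2 ∈ T i))) = ((Finset.univ : Finset (ZMod (i : ℕ))).filter (fun x => x ∈ T i)).map
          ⟨fun x => (0, x), fun x y h => (Prod.mk.inj h).2⟩ := by
        ext ⟨x, y⟩
        simp only [Finset.mem_filter, Finset.mem_univ, true_and, Finset.mem_map]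
        constructor
        · rintro ⟨rfl, h⟩; exact ⟨y, h, rfl⟩
        · rintro ⟨z, h, heq⟩
          obtain ⟨rfl, rfl⟩ := Prod.mk.inj heq
          exact ⟨rfl, h⟩
      rw [h2, Finset.card_map, ← Set.ncard_coe_finset]
      congr 1
      ext x
      simp
    have h3 := Finset.card_filter_add_card_filter_not (s := (Finset.univ : Finset (ZMod (i : ℕ) × ZMod (i : ℕ))))
      (fun p => (p.1 = 0 ∧ p.2 ∈ T i))
    rw [h1, Finset.card_univ, Fintype.card_prod, ZMod.card] at h3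
    have h4 : ((S i).card : ℝ) = (i : ℝ) ^ 2 - (T i).ncard := by
      have : (((T i).ncard + (S i).card : ℕ) : ℝ) = ((((i : ℕ) * (i : ℕ)) : ℕ) : ℝ) := by
        exact_mod_cast h3
      push_cast at this
      linarith
    rw [h4]
    have h5 := hT i (hFR _ i.2)
    have h6 := Real.add_one_le_exp (-(c * ((1 : ℝ) / (i : ℕ))))
    have h7 : (i : ℝ) ^ 2 * (-(c * ((1 : ℝ) / (i : ℕ))) + 1) ≤ (i : ℝ) ^ 2 * Real.exp (-(c * ((1 : ℝ) / (i : ℕ)))) :=
      mul_le_mul_of_nonneg_left h6 (by positivity)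
    have h8 : (i : ℝ) ^ 2 * (-(c * ((1 : ℝ) / (i : ℕ))) + 1) = (i : ℝ) ^ 2 - c * i := by
      field_simp
      ring
    linarith
  have hBle : (B.card : ℝ) ≤ (M : ℝ) ^ 2 * (ε / 4) := by
    rw [hBcard]
    push_cast
    calc ∏ i : F, ((S i).card : ℝ) ≤ ∏ i : F, ((i : ℝ) ^ 2 * Real.exp (-(c * ((1 : ℝ) / (i : ℕ))))) :=
          Finset.prod_le_prod (fun i _ => by positivity) (fun i _ => hS i)
      _ = (M : ℝ) ^ 2 * Real.exp (-(c * ∑ r ∈ F, (1 : ℝ) / r)) := by
          rw [Finset.prod_mul_distrib, Finset.prod_pow, hM]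
          push_cast
          congr 1
          rw [← Real.exp_sum, Finset.sum_neg_distrib, ← Finset.mul_sum]
          congr 3
          exact Finset.sum_coe_sort F (fun r : ℕ => (1 : ℝ) / r)
      _ ≤ _ := mul_le_mul_of_nonneg_left hF (by positivity)
  refine ⟨M, fun X Y hX hY a b => ?_⟩
  have h1 := box_le M hMpos B {p | ∀ r ∈ R, ¬ (r ∣ p.1 ∧ (p.2 : ZMod r) ∈ T r)} (by
    rintro ⟨u, v⟩ h
    apply hB
    intro i
    simp only [S, Finset.mem_filter, Finset.mem_univ, true_and]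
    have h2 := h i (hFR _ i.2)
    rwa [← ZMod.natCast_eq_zero_iff] at h2) X Y a b
  have h2 : (((X / M + 1 : ℕ)) : ℝ) ≤ 2 * X / M := by
    have h3 : ((X / M : ℕ) : ℝ) ≤ X / M := Nat.cast_div_le
    have h4 : (1 : ℝ) ≤ X / M := by
      rw [le_div_iff₀ hMR, one_mul]; exact_mod_cast hX
    push_cast
    have : (2 : ℝ) * X / M = X / M + X / M := by ring
    linarith
  have h3 : (((Y / M + 1 : ℕ)) : ℝ) ≤ 2 * Y / M := by
    have h3 : ((Y / M : ℕ) : ℝ) ≤ Y / M := Nat.cast_div_le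
    have h4 : (1 : ℝ) ≤ Y / M := by
      rw [le_div_iff₀ hMR, one_mul]; exact_mod_cast hY
    push_cast
    have : (2 : ℝ) * Y / M = Y / M + Y / M := by ring
    linarith
  calc (({p | ∀ r ∈ R, ¬ (r ∣ p.1 ∧ (p.2 : ZMod r) ∈ T r)} ∩
        (Set.Ioc a (a + X) ×ˢ Set.Ioc b (b + Y))).ncard : ℝ)
      ≤ ((B.card * ((X / M + 1) * (Y / M + 1)) : ℕ) : ℝ) := by exact_mod_cast h1
    _ = (B.card : ℝ) * ((((X / M + 1 : ℕ)) : ℝ) * (((Y / M + 1 : ℕ)) : ℝ)) := by push_cast; ring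
    _ ≤ ((M : ℝ) ^ 2 * (ε / 4)) * ((2 * X / M) * (2 * Y / M)) := by
        apply mul_le_mul hBle _ (by positivity) (by positivity)
        exact mul_le_mul h2 h3 (by positivity) (by positivity)
    _ = ε * (X * Y) := by
        field_simp
        ring

end Pool.Agent.H374R2.Beal
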