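import Mathlib
import Pool.Agent.H374R2.BealAlg
import Pool.Agent.H374R2.BealDens
import Pool.Agent.Helper379.Div3

/-!
For a prime `q`, almost all pairs `(u, v)` satisfy the residue condition `Good q u v`.
-/

namespace Pool.Agent.H374R2.Beal

open Finset

/-- Non-`q`-th powers modulo `r`. -/
def NonPow (q r : ℕ) : Set (ZMod r) := {b | ¬ ∃ t : ZMod r, t ^ q = b}

/-- Non-zero `q`-th powers modulo `r`. -/
def UnitPow (q r : ℕ) : Set (ZMod r) := {b | b ≠ 0 ∧ ∃ t : ZMod r, t ^ q = b}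

theorem dvd_of_pow_isPow {F : Type*} [Field F] {q : ℕ} (hq : q.Prime) {a s : F} {y : ℕ}
    (ha : ¬ ∃ t : F, t ^ q = a) (h : s ^ q = a ^ y) : q ∣ y := by
  by_contra hdiv
  have ha0 : a ≠ 0 := by
    rintro rfl
    exact ha ⟨0, zero_pow hq.ne_zero⟩
  have hcop : Nat.Coprime y q := ((Nat.Prime.coprime_iff_not_dvd hq).mpr hdiv).symm
  have hb : ((Nat.gcd y q : ℕ) : ℤ) = y * Nat.gcdA y q + q * Nat.gcdB y q := Nat.gcd_eq_gcd_ab y q
  rw [hcop.gcd_eq_one] at hb
  apply ha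
  refine ⟨s ^ (Nat.gcdA y q) * a ^ (Nat.gcdB y q), ?_⟩
  have hs0 : s ≠ 0 := by
    rintro rfl
    rw [zero_pow hq.ne_zero] at h
    exact pow_ne_zero _ ha0 h.symm
  calc (s ^ (Nat.gcdA y q) * a ^ (Nat.gcdB y q)) ^ q
      = (s ^ q) ^ (Nat.gcdA y q) * (a ^ q) ^ (Nat.gcdB y q) := by
        rw [mul_pow, ← zpow_natCast, ← zpow_natCast, ← zpow_mul, ← zpow_mul, mul_comm _ (q : ℤ),
          mul_comm _ (q : ℤ), zpow_mul, zpow_mul, zpow_natCast, zpow_natCast]
    _ = a ^ ((y : ℤ) * Nat.gcdA y q + q * Nat.gcdB y q) := by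
        rw [h, zpow_add₀ ha0, zpow_mul, zpow_mul, zpow_natCast, zpow_natCast]
    _ = a := by rw [← hb]; simp

theorem unitPow_ncard {q r : ℕ} (hr : r.Prime) (hqr : q ∣ r - 1) :
    (UnitPow q r).ncard = (r - 1) / q := by
  have : Fact r.Prime := ⟨hr⟩
  have h1 : UnitPow q r = (fun x : (ZMod r)ˣ => (x : ZMod r)) ''
      ((powMonoidHom q : (ZMod r)ˣ →* (ZMod r)ˣ).range : Set (ZMod r)ˣ) := by
    ext b
    simp only [UnitPow, Set.mem_ofPred_eq, Set.mem_image, SetLike.mem_coe, MonoidHom.mem_range,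
      powMonoidHom_apply]
    constructor
    · rintro ⟨hb, t, ht⟩
      rcases Nat.eq_zero_or_pos q with hq0 | hq0
      · subst hq0
        refine ⟨1, ⟨1, by simp⟩, ?_⟩
        simpa using ht
      have ht0 : t ≠ 0 := by
        rintro rfl
        rw [zero_pow hq0.ne'] at ht
        exact hb ht.symm
      exact ⟨(Units.mk0 t ht0) ^ q, ⟨_, rfl⟩, by simpa using ht⟩
    · rintro ⟨x, ⟨y, hy⟩, rfl⟩
      refine ⟨x.ne_zero, (y : ZMod r), ?_⟩
      rw [← hy]; simp
  rw [h1, Set.ncard_image_of_injective _ Units.val_injective]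
  have h2 := IsCyclic.card_powMonoidHom_range (G := (ZMod r)ˣ) q
  rw [Nat.card_eq_fintype_card (α := (ZMod r)ˣ), ZMod.card_units] at h2
  rw [Nat.gcd_eq_right hqr] at h2
  rw [← h2]
  rfl

theorem nonPow_ncard {q r : ℕ} (hq : 0 < q) (hr : r.Prime) (hqr : q ∣ r - 1) :
    (NonPow q r).ncard = r - 1 - (r - 1) / q := by
  have : Fact r.Prime := ⟨hr⟩
  have h1 : NonPow q r = (insert 0 (UnitPow q r))ᶜ := by
    ext b
    simp only [NonPow, UnitPow, Set.mem_ofPred_eq, Set.mem_compl_iff, Set.mem_insert_iff, not_or,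
      not_and]
    constructor
    · intro h
      refine ⟨?_, fun _ => h⟩
      rintro rfl
      exact h ⟨0, zero_pow hq.ne'⟩
    · rintro ⟨h1, h2⟩
      exact h2 h1
  rw [h1, Set.ncard_compl, Set.ncard_insert_of_notMem (by simp [UnitPow]) (Set.toFinite _),
    unitPow_ncard hr hqr, Nat.card_eq_fintype_card, ZMod.card]
  omega

theorem unitPow_lower {q r : ℕ} (hq : 2 ≤ q) (hr : r.Prime) (hqr : q ∣ r - 1) :
    (1 / (2 * q) : ℝ) * r ≤ (UnitPow q r).ncard := by
  rw [unitPow_ncard hr hqr, Nat.cast_div hqr (by positivity)]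
  have h2 : 2 ≤ r := hr.two_le
  have h3 : (2 : ℝ) ≤ r := by exact_mod_cast h2
  rw [Nat.cast_sub (by omega)]
  have hq0 : (0 : ℝ) < q := by positivity
  rw [le_div_iff₀ hq0]
  field_simp
  push_cast
  linarith

theorem nonPow_lower {q r : ℕ} (hq : 2 ≤ q) (hr : r.Prime) (hqr : q ∣ r - 1) :
    (1 / (2 * q) : ℝ) * r ≤ (NonPow q r).ncard := by
  have h1 := unitPow_lower hq hr hqr
  have h2 : (UnitPow q r).ncard ≤ (NonPow q r).ncard := by
    rw [unitPow_ncard hr hqr, nonPow_ncard (by omega) hr hqr]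
    have : (r - 1) / q ≤ (r - 1) / 2 := Nat.div_le_div_left hq (by norm_num)
    omega
  have h3 : ((UnitPow q r).ncard : ℝ) ≤ (NonPow q r).ncard := by exact_mod_cast h2
  linarith

/-- Primes congruent to `1` modulo `m` have divergent reciprocal sum. -/
theorem primes_one_div (m : ℕ) (hm : 0 < m) :
    ¬ Summable (fun r : ℕ => {r : ℕ | r.Prime ∧ m ∣ r - 1}.indicator (fun n : ℕ => (1 : ℝ) / n) r) := by
  have : NeZero m := ⟨hm.ne'⟩
  have h := Pool.Agent.Helper379.Div3.not_summable_inv_primes_mod (q := m) (a := 1) isUnit_one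
  intro hs
  apply h
  refine hs.congr ?_
  intro r
  rw [Set.indicator_apply]
  have h1 : (r ∈ {r : ℕ | r.Prime ∧ m ∣ r - 1}) ↔ (r.Prime ∧ (r : ZMod m) = 1) := by
    simp only [Set.mem_ofPred_eq]
    apply and_congr_right
    intro hr
    have h2 : ((r - 1 : ℕ) : ZMod m) = 0 ↔ m ∣ r - 1 := ZMod.natCast_eq_zero_iff _ _
    rw [← h2, Nat.cast_sub hr.one_lt.le, sub_eq_zero, Nat.cast_one]
  by_cases h2 : r ∈ {r : ℕ | r.Prime ∧ m ∣ r - 1}
  · rw [if_pos h2, if_pos (h1.mp h2)]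
  · rw [if_neg h2, if_neg (fun h3 => h2 (h1.mpr h3))]

/-- For a prime `q`, the pairs that are not `Good` are uniformly null. -/
theorem uniformNull_not_good {q : ℕ} (hq : q.Prime) : UniformNull {p | ¬ Good q p.1 p.2} := by
  classical
  have hc : (0 : ℝ) < 1 / (2 * q) := by
    have : (0 : ℝ) < q := by exact_mod_cast hq.pos
    positivity
  set R1 : Set ℕ := {r | (r.Prime ∧ q ∣ r - 1) ∧ ∃ t : ZMod r, t ^ q = (q : ZMod r)} with hR1
  set R2 : Set ℕ := {r | (r.Prime ∧ q ∣ r - 1) ∧ ¬ ∃ t : ZMod r, t ^ q = (q : ZMod r)} with hR2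
  have hne : ∀ r : ℕ, r.Prime → q ∣ r - 1 → (q : ZMod r) ≠ 0 := by
    intro r hr hqr h
    rw [ZMod.natCast_eq_zero_iff] at h
    have h1 : r ≤ q := Nat.le_of_dvd hq.pos h
    have h2 : q ≤ r - 1 := Nat.le_of_dvd (by have := hr.two_le; omega) hqr
    have := hr.two_le
    omega
  by_cases hs : Summable (fun r : ℕ => R1.indicator (fun n : ℕ => (1 : ℝ) / n) r)
  · -- then the sum over `R2` diverges
    have hs2 : ¬ Summable (fun r : ℕ => R2.indicator (fun n : ℕ => (1 : ℝ) / n) r) := by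
      intro h2
      apply primes_one_div q hq.pos
      refine (hs.add h2).congr ?_
      intro r
      simp only [Set.indicator_apply, hR1, hR2, Set.mem_ofPred_eq]
      by_cases h3 : r.Prime ∧ q ∣ r - 1
      · by_cases h4 : ∃ t : ZMod r, t ^ q = (q : ZMod r)
        · simp [h3, h4]
        · simp [h3, h4]
      · simp [h3]
    have hA := uniformNull_core R2 (fun r hr => hr.1.1) hs2 (fun r => UnitPow q r) _ hc
      (fun r hr => unitPow_lower hq.two_le hr.1.1 hr.1.2)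
    have hB := uniformNull_core R2 (fun r hr => hr.1.1) hs2 (fun r => NonPow q r) _ hc
      (fun r hr => nonPow_lower hq.two_le hr.1.1 hr.1.2)
    refine (hA.union hB).mono ?_
    rintro ⟨u, v⟩ hp
    by_contra hcon
    apply hp
    simp only [Set.mem_union, Set.mem_ofPred_eq, not_or, not_forall, not_not] at hcon
    obtain ⟨⟨r1, hr1, hu1, hv1⟩, ⟨r2, hr2, hu2, hv2⟩⟩ := hcon
    intro k y h
    have : Fact r1.Prime := ⟨hr1.1.1⟩
    have : Fact r2.Prime := ⟨hr2.1.1⟩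
    -- at `r1` the power `q^k` is a `q`-th power, so `q ∣ k`
    have hk : q ∣ k := by
      obtain ⟨t, ht⟩ := h r1 hr1.1.1 hu1
      obtain ⟨hv0, s, hs⟩ := hv1
      have hs0 : s ≠ 0 := by
        rintro rfl
        rw [zero_pow hq.ne_zero] at hs
        exact hv0 hs.symm
      refine dvd_of_pow_isPow hq hr1.2 (s := t / s ^ y) ?_
      rw [div_pow, ht, ← pow_mul, mul_comm y q, pow_mul, hs]
      have : (v : ZMod r1) ^ y ≠ 0 := pow_ne_zero _ hv0
      field_simp
    obtain ⟨k', rfl⟩ := hk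
    obtain ⟨t, ht⟩ := h r2 hr2.1.1 hu2
    have hq0 := hne r2 hr2.1.1 hr2.1.2
    refine dvd_of_pow_isPow hq hv2 (s := t / (q : ZMod r2) ^ k') ?_
    rw [div_pow, ht, ← pow_mul, mul_comm k' q]
    have : (q : ZMod r2) ^ (q * k') ≠ 0 := pow_ne_zero _ hq0
    field_simp
  · have hB := uniformNull_core R1 (fun r hr => hr.1.1) hs (fun r => NonPow q r) _ hc
      (fun r hr => nonPow_lower hq.two_le hr.1.1 hr.1.2)
    refine hB.mono ?_
    rintro ⟨u, v⟩ hp
    by_contra hcon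
    apply hp
    simp only [Set.mem_ofPred_eq, not_forall, not_not] at hcon
    obtain ⟨r, hr, hu, hv⟩ := hcon
    intro k y h
    have : Fact r.Prime := ⟨hr.1.1⟩
    obtain ⟨t, ht⟩ := h r hr.1.1 hu
    obtain ⟨s, hs⟩ := hr.2
    have hq0 := hne r hr.1.1 hr.1.2
    have hs0 : s ≠ 0 := by
      rintro rfl
      rw [zero_pow hq.ne_zero] at hs
      exact hq0 hs.symm
    refine dvd_of_pow_isPow hq hv (s := t / s ^ k) ?_
    rw [div_pow, ht, ← pow_mul, mul_comm k q, pow_mul, hs]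
    have : (q : ZMod r) ^ k ≠ 0 := pow_ne_zero _ hq0
    field_simp

end Pool.Agent.H374R2.Beal
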