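import Mathlib
import Pool.Agent.H374R2.BealRes

/-!
The exponents divisible by `4`, and the assembly for a fixed exponent `n ≥ 3`.
-/

namespace Pool.Agent.H374R2.Beal

open Finset

/-- Fourth power residue condition: `v^y` (up to sign) is not a fourth power modulo all prime
divisors of `u` unless `4 ∣ y`. -/
def Good4 (u v : ℕ) : Prop :=
  ∀ y : ℕ, (∀ r : ℕ, r.Prime → r ∣ u → ∃ t : ZMod r, t ^ 4 = (v : ZMod r) ^ y ∨ t ^ 4 = - (v : ZMod r) ^ y)
    → 4 ∣ y

theorem exists_root_neg_one {r : ℕ} (hr : r.Prime) (h8 : 8 ∣ r - 1) :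
    ∃ i : ZMod r, i ^ 4 = -1 := by
  have : Fact r.Prime := ⟨hr⟩
  obtain ⟨g, hg⟩ := IsCyclic.exists_generator (α := (ZMod r)ˣ)
  have hord : orderOf g = r - 1 := by
    rw [orderOf_eq_card_of_forall_mem_zpowers hg, Nat.card_eq_fintype_card, ZMod.card_units]
  obtain ⟨m, hm⟩ := h8
  have hr2 := hr.two_le
  have hm0 : 0 < m := by
    rcases Nat.eq_zero_or_pos m with h | h
    · subst h; omega
    · exact h
  refine ⟨((g ^ m : (ZMod r)ˣ) : ZMod r), ?_⟩
  have h1 : (((g ^ m : (ZMod r)ˣ) : ZMod r) ^ 4) ^ 2 = 1 := by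
    rw [← pow_mul, ← Units.val_pow_eq_pow_val, ← pow_mul]
    rw [show m * (4 * 2) = orderOf g by rw [hord, hm]; ring, pow_orderOf_eq_one]
    simp
  rw [pow_two] at h1
  rcases mul_self_eq_one_iff.mp h1 with h2 | h2
  · exfalso
    have h3 : g ^ (m * 4) = 1 := by
      apply Units.ext
      rw [← Units.val_pow_eq_pow_val, ← pow_mul] at h2
      simpa using h2
    have h4 := orderOf_dvd_of_pow_eq_one h3
    rw [hord, hm] at h4
    have := Nat.le_of_dvd (by positivity) h4
    omega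
  · exact h2

theorem uniformNull_not_good4 : UniformNull {p | ¬ Good4 p.1 p.2} := by
  have hc : (0 : ℝ) < 1 / (2 * (2 : ℕ)) := by norm_num
  have hB := uniformNull_core {r : ℕ | r.Prime ∧ 8 ∣ r - 1} (fun r hr => hr.1)
    (primes_one_div 8 (by norm_num)) (fun r => NonPow 2 r) _ hc
    (fun r hr => nonPow_lower le_rfl hr.1 ((by norm_num : (2:ℕ) ∣ 8).trans hr.2))
  refine hB.mono ?_
  rintro ⟨u, v⟩ hp
  by_contra hcon
  apply hp
  simp only [Set.mem_ofPred_eq, not_forall, not_not] at hcon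
  obtain ⟨r, hr, hu, hv⟩ := hcon
  intro y h
  have : Fact r.Prime := ⟨hr.1⟩
  obtain ⟨i, hi⟩ := exists_root_neg_one hr.1 hr.2
  have h1 : ∃ t : ZMod r, t ^ 4 = (v : ZMod r) ^ y := by
    obtain ⟨t, ht | ht⟩ := h r hr.1 hu
    · exact ⟨t, ht⟩
    · exact ⟨i * t, by rw [mul_pow, hi, ht]; ring⟩
  obtain ⟨t, ht⟩ := h1
  have h2 : 2 ∣ y := dvd_of_pow_isPow Nat.prime_two hv (s := t ^ 2) (by rw [← ht]; ring)
  obtain ⟨y', rfl⟩ := h2
  have h3 : (t ^ 2 - (v : ZMod r) ^ y') * (t ^ 2 + (v : ZMod r) ^ y') = 0 := by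
    have : (t ^ 2) ^ 2 = ((v : ZMod r) ^ y') ^ 2 := by
      rw [← pow_mul, ← pow_mul, mul_comm y' 2]; exact ht
    linear_combination this
  have h4 : 2 ∣ y' := by
    rcases mul_eq_zero.mp h3 with h5 | h5
    · exact dvd_of_pow_isPow Nat.prime_two hv (s := t) (by linear_combination h5)
    · exact dvd_of_pow_isPow Nat.prime_two hv (s := i ^ 2 * t) (by
        rw [mul_pow, ← pow_mul, show 2 * 2 = 4 from rfl, hi]; linear_combination -h5)
  obtain ⟨y'', rfl⟩ := h4
  exact ⟨y'', by ring⟩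

/-- The exceptional pairs for the exponent `n`: coprime positive `u, v` for which `w^n` is the
remaining term of a Beal equation with arbitrary exponents on `u` and `v`. -/
def Exceptional (n : ℕ) : Set (ℕ × ℕ) :=
  {p | 0 < p.1 ∧ 0 < p.2 ∧ Nat.Coprime p.1 p.2 ∧ ∃ x y w : ℕ, 0 < x ∧ 0 < y ∧ 0 < w ∧
    (p.1 ^ x + p.2 ^ y = w ^ n ∨ p.1 ^ x + w ^ n = p.2 ^ y ∨ p.2 ^ y + w ^ n = p.1 ^ x)}

theorem exceptional_odd {q n : ℕ} (hq : q.Prime) (hq2 : q ≠ 2) (hqn : q ∣ n) :
    UniformNull (Exceptional n) := by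
  have h1 := uniformNull_not_good hq
  refine (h1.union h1.swap).mono ?_
  rintro ⟨u, v⟩ ⟨hu, hv, huv, x, y, w, hx, hy, hw, h⟩
  simp only at hu hv huv h
  by_contra hcon
  simp only [Set.mem_union, Set.mem_ofPred_eq, Set.mem_preimage, Prod.swap_prod_mk, not_or,
    not_not] at hcon
  obtain ⟨m, rfl⟩ := hqn
  have hodd := hq.odd_of_ne_two hq2
  rcases h with h | h | h
  · refine no_sol_odd hq hq2 huv hcon.1 hcon.2 (Or.inl rfl) x y 0 ((w : ℤ) ^ m) hx hy ?_
    have := congrArg (fun z : ℕ => (z : ℤ)) h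
    push_cast at this
    rw [pow_zero, one_mul, one_mul, this, ← pow_mul, mul_comm q m]
  · refine no_sol_odd hq hq2 huv hcon.1 hcon.2 (Or.inr rfl) x y 0 (-(w : ℤ) ^ m) hx hy ?_
    have := congrArg (fun z : ℕ => (z : ℤ)) h
    push_cast at this
    rw [pow_zero, one_mul, hodd.neg_pow, ← pow_mul, mul_comm m q]
    linear_combination this
  · refine no_sol_odd hq hq2 huv hcon.1 hcon.2 (Or.inr rfl) x y 0 ((w : ℤ) ^ m) hx hy ?_
    have := congrArg (fun z : ℕ => (z : ℤ)) h
    push_cast at this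
    rw [pow_zero, one_mul, ← pow_mul, mul_comm m q]
    linear_combination -this

theorem exceptional_four {n : ℕ} (h4n : 4 ∣ n) : UniformNull (Exceptional n) := by
  have h1 := uniformNull_not_good4
  refine (h1.union h1.swap).mono ?_
  rintro ⟨u, v⟩ ⟨hu, hv, huv, x, y, w, hx, hy, hw, h⟩
  simp only at hu hv huv h
  by_contra hcon
  simp only [Set.mem_union, Set.mem_ofPred_eq, Set.mem_preimage, Prod.swap_prod_mk, not_or,
    not_not] at hcon
  obtain ⟨m, rfl⟩ := h4n
  have hy4 : 4 ∣ y := by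
    apply hcon.1 y
    intro r hr hru
    have hr0 : (u : ZMod r) = 0 := (ZMod.natCast_eq_zero_iff u r).mpr hru
    refine ⟨(w : ZMod r) ^ m, ?_⟩
    rcases h with h | h | h
    · left
      have := congrArg (fun z : ℕ => (z : ZMod r)) h
      push_cast at this
      rw [hr0, zero_pow hx.ne', zero_add] at this
      rw [this, ← pow_mul, mul_comm 4 m]
    · left
      have := congrArg (fun z : ℕ => (z : ZMod r)) h
      push_cast at this
      rw [hr0, zero_pow hx.ne', zero_add] at this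
      rw [← this, ← pow_mul, mul_comm 4 m]
    · right
      have := congrArg (fun z : ℕ => (z : ZMod r)) h
      push_cast at this
      rw [hr0, zero_pow hx.ne'] at this
      rw [← pow_mul, mul_comm m 4]
      linear_combination this
  have hx4 : 4 ∣ x := by
    apply hcon.2 x
    intro r hr hrv
    have hr0 : (v : ZMod r) = 0 := (ZMod.natCast_eq_zero_iff v r).mpr hrv
    refine ⟨(w : ZMod r) ^ m, ?_⟩
    rcases h with h | h | h
    · left
      have := congrArg (fun z : ℕ => (z : ZMod r)) h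
      push_cast at this
      rw [hr0, zero_pow hy.ne', add_zero] at this
      rw [this, ← pow_mul, mul_comm 4 m]
    · right
      have := congrArg (fun z : ℕ => (z : ZMod r)) h
      push_cast at this
      rw [hr0, zero_pow hy.ne'] at this
      rw [← pow_mul, mul_comm m 4]
      linear_combination this
    · left
      have := congrArg (fun z : ℕ => (z : ZMod r)) h
      push_cast at this
      rw [hr0, zero_pow hy.ne', zero_add] at this
      rw [← this, ← pow_mul, mul_comm 4 m]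
  obtain ⟨x', rfl⟩ := hx4
  obtain ⟨y', rfl⟩ := hy4
  have hF := fermatLastTheoremFour
  rw [mul_comm 4 x', mul_comm 4 y', mul_comm 4 m, pow_mul, pow_mul, pow_mul] at h
  have hu' : u ^ x' ≠ 0 := pow_ne_zero _ hu.ne'
  have hv' : v ^ y' ≠ 0 := pow_ne_zero _ hv.ne'
  have hw' : w ^ m ≠ 0 := pow_ne_zero _ hw.ne'
  rcases h with h | h | h
  · exact hF _ _ _ hu' hv' hw' h
  · exact hF _ _ _ hu' hw' hv' h
  · exact hF _ _ _ hv' hw' hu' h

theorem exceptional_null {n : ℕ} (hn : 3 ≤ n) : UniformNull (Exceptional n) := by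
  rcases Nat.four_dvd_or_exists_odd_prime_and_dvd_of_two_lt (n := n) (by omega) with h | ⟨p, hp, hpn, hodd⟩
  · exact exceptional_four h
  · exact exceptional_odd hp (by rintro rfl; exact absurd hodd (by decide)) hpn

end Pool.Agent.H374R2.Beal
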