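import Mathlib

/-!
The cofactor `(a^ℓ + b^ℓ)/(a + b)` for coprime `a, b` and an odd prime `ℓ`, and the resulting
structure of an integer `C` one of whose powers is a sum of two coprime `ℓ`-th powers.
-/

namespace Pool.Agent.H374R2.Cof

/-- All prime factors of `m` are congruent to `1` modulo `ℓ`. -/
def OneMod (ℓ m : ℕ) : Prop := ∀ p : ℕ, p.Prime → p ∣ m → ℓ ∣ p - 1

theorem cofactor {ℓ a b : ℕ} (hℓ : ℓ.Prime) (hℓ2 : ℓ ≠ 2) (hb : 0 < b)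
    (hab : Nat.Coprime a b) :
    ∃ Q : ℕ, (a + b) * Q = a ^ ℓ + b ^ ℓ ∧ (∀ p : ℕ, p.Prime → p ∣ Q → p = ℓ ∨ ℓ ∣ p - 1) ∧
      (∀ p : ℕ, p.Prime → p ∣ a + b → p ∣ Q → p = ℓ) ∧
      (ℓ ∣ a + b → ∃ Q', Q = ℓ * Q' ∧ ¬ ℓ ∣ Q') ∧ (¬ ℓ ∣ a + b → ¬ ℓ ∣ Q) := by
  have hodd : Odd ℓ := hℓ.odd_of_ne_two hℓ2
  have : Fact ℓ.Prime := ⟨hℓ⟩
  obtain ⟨Q, hQ⟩ := hodd.nat_add_dvd_pow_add_pow a b
  have hs : 0 < a + b := by omega
  -- the cofactor as a geometric sum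
  have hgeom : (Q : ℤ) = ∑ i ∈ Finset.range ℓ, (a : ℤ) ^ i * (-(b : ℤ)) ^ (ℓ - 1 - i) := by
    have h1 := geom_sum₂_mul (a : ℤ) (-(b : ℤ)) ℓ
    rw [hodd.neg_pow, sub_neg_eq_add, sub_neg_eq_add] at h1
    have h2 : ((a : ℤ) + b) * Q = (a : ℤ) ^ ℓ + (b : ℤ) ^ ℓ := by exact_mod_cast hQ.symm
    have h3 : ((a : ℤ) + b) ≠ 0 := by positivity
    apply mul_left_cancel₀ h3
    rw [h2, ← h1, mul_comm]
  have key : ∀ p : ℕ, p.Prime → p ∣ a + b → p ∣ Q → p = ℓ := by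
    intro p hp h1 h2
    have hpZ : Prime (p : ℤ) := Nat.prime_iff_prime_int.mp hp
    have h3 : (p : ℤ) ∣ (a : ℤ) - (-(b : ℤ)) := by
      rw [sub_neg_eq_add]; exact_mod_cast h1
    have h4 : (p : ℤ) ∣ ∑ i ∈ Finset.range ℓ, (a : ℤ) ^ i * (-(b : ℤ)) ^ (ℓ - 1 - i) := by
      rw [← hgeom]; exact_mod_cast h2
    have h5 := (dvd_geom_sum₂_iff_of_dvd_sub (n := ℓ) h3).mp h4
    rcases hpZ.dvd_or_dvd h5 with h6 | h6
    · have h7 : p ∣ ℓ := by exact_mod_cast h6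
      exact (Nat.prime_dvd_prime_iff_eq hp hℓ).mp h7
    · exfalso
      have h7 : (p : ℤ) ∣ b := by
        have := hpZ.dvd_of_dvd_pow h6
        rwa [dvd_neg] at this
      have h8 : p ∣ b := by exact_mod_cast h7
      have h9 : p ∣ a := (Nat.dvd_add_left h8).mp h1
      exact hp.not_dvd_one (hab ▸ Nat.dvd_gcd h9 h8)
  refine ⟨Q, hQ.symm, ?_, key, ?_, ?_⟩
  · intro p hp hpQ
    by_cases h1 : p ∣ a + b
    · exact Or.inl (key p hp h1 hpQ)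
    · right
      have : Fact p.Prime := ⟨hp⟩
      have h2 : p ∣ a ^ ℓ + b ^ ℓ := hQ ▸ Dvd.dvd.mul_left hpQ _
      have hpb : ¬ p ∣ b := by
        intro h3
        have h4 : p ∣ b ^ ℓ := h3.trans (dvd_pow_self b hℓ.ne_zero)
        have h5 : p ∣ a ^ ℓ := (Nat.dvd_add_left h4).mp h2
        have h6 : p ∣ a := hp.dvd_of_dvd_pow h5
        exact hp.not_dvd_one (hab ▸ Nat.dvd_gcd h6 h3)
      have hb0 : (b : ZMod p) ≠ 0 := by rwa [Ne, ZMod.natCast_eq_zero_iff]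
      have h3 : (a : ZMod p) ^ ℓ + (b : ZMod p) ^ ℓ = 0 := by
        have := (ZMod.natCast_eq_zero_iff (a ^ ℓ + b ^ ℓ) p).mpr h2
        exact_mod_cast this
      have h4 : (a : ZMod p) + b ≠ 0 := by
        intro h
        apply h1
        rw [← ZMod.natCast_eq_zero_iff]
        exact_mod_cast h
      set t : ZMod p := -(a : ZMod p) / b with ht
      have ht1 : t ^ ℓ = 1 := by
        rw [ht, div_pow, hodd.neg_pow, div_eq_one_iff_eq (pow_ne_zero _ hb0)]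
        linear_combination -h3
      have ht2 : t ≠ 1 := by
        intro h
        rw [ht, div_eq_one_iff_eq hb0] at h
        apply h4
        linear_combination -h
      have ht3 : orderOf t = ℓ := orderOf_eq_prime ht1 ht2
      have ht0 : t ≠ 0 := by
        rintro h
        rw [h, zero_pow hℓ.ne_zero] at ht1
        exact zero_ne_one ht1
      have h5 : t ^ (p - 1) = 1 := ZMod.pow_card_sub_one_eq_one ht0
      rw [← ht3]
      exact orderOf_dvd_of_pow_eq_one h5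
  · intro hdiv
    have hdivZ : (ℓ : ℤ) ∣ (a : ℤ) + b := by exact_mod_cast hdiv
    have hqa : ¬ (ℓ : ℤ) ∣ (a : ℤ) := by
      intro h1
      have h2 : ℓ ∣ a := by exact_mod_cast h1
      have h3 : ℓ ∣ b := (Nat.dvd_add_right h2).mp hdiv
      exact hℓ.not_dvd_one (hab ▸ Nat.dvd_gcd h2 h3)
    have hem := Int.emultiplicity_pow_add_pow (p := ℓ) hℓ hodd hdivZ hqa hodd
    have hqZ : Prime (ℓ : ℤ) := Nat.prime_iff_prime_int.mp hℓ
    have hfac : ((a : ℤ) + b) * Q = (a : ℤ) ^ ℓ + (b : ℤ) ^ ℓ := by exact_mod_cast hQ.symm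
    rw [← hfac, emultiplicity_mul hqZ] at hem
    have h0 : ((a : ℤ) + b) ≠ 0 := by positivity
    have hfin : FiniteMultiplicity (ℓ : ℤ) ((a : ℤ) + b) :=
      Int.finiteMultiplicity_iff.mpr ⟨by
        rw [Int.natAbs_natCast]; exact hℓ.one_lt.ne', h0⟩
    have hem1 : emultiplicity (ℓ : ℤ) (Q : ℤ) = 1 := by
      have h8 : emultiplicity ℓ ℓ = 1 := by
        have hf : FiniteMultiplicity ℓ ℓ :=
          Nat.finiteMultiplicity_iff.mpr ⟨hℓ.one_lt.ne', hℓ.pos⟩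
        rw [hf.emultiplicity_eq_multiplicity]
        simp [multiplicity_self]
      rw [h8, hfin.emultiplicity_eq_multiplicity] at hem
      have h9 : (multiplicity (ℓ:ℤ) ((a : ℤ) + b) : ℕ∞) ≠ ⊤ := ENat.natCast_ne_top _
      exact (ENat.add_right_injective_of_ne_top h9) hem
    have h10 := (emultiplicity_eq_coe (n := 1)).mp (by simpa using hem1)
    have hQ1 : ℓ ∣ Q := by
      have := h10.1
      rw [pow_one] at this
      exact_mod_cast this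
    have hQ2 : ¬ ℓ ^ 2 ∣ Q := by
      intro h
      apply h10.2
      exact_mod_cast h
    obtain ⟨Q', hQ'⟩ := hQ1
    refine ⟨Q', hQ', ?_⟩
    rintro ⟨c, hc⟩
    exact hQ2 ⟨c, by rw [hQ', hc]; ring⟩
  · intro hndiv h1
    apply hndiv
    have h2 : ℓ ∣ a ^ ℓ + b ^ ℓ := hQ ▸ Dvd.dvd.mul_left h1 _
    have h3 : ((a ^ ℓ + b ^ ℓ : ℕ) : ZMod ℓ) = ((a + b : ℕ) : ZMod ℓ) := by
      push_cast
      rw [ZMod.pow_card, ZMod.pow_card]
    rw [← ZMod.natCast_eq_zero_iff] at h2 ⊢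
    rw [← h3]; exact h2

theorem eq_pow_of_coprime {x y c z : ℕ} (hco : Nat.Coprime x y) (h : x * y = c ^ z) (hz : 0 < z) : ∃ d e : ℕ, x = d ^ z ∧ y = e ^ z ∧ c = d * e := by
  obtain ⟨d, hd⟩ := exists_eq_pow_of_mul_eq_pow (by
    rw [Nat.isUnit_iff]; exact hco) h
  obtain ⟨e, he⟩ := exists_eq_pow_of_mul_eq_pow (a := y) (b := x) (by
    rw [Nat.isUnit_iff]; exact hco.symm) (by rw [mul_comm]; exact h)
  refine ⟨d, e, hd, he, ?_⟩
  have : (d * e) ^ z = c ^ z := by rw [mul_pow, ← hd, ← he, h]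
  exact (Nat.pow_left_injective (n := z) (by omega) this).symm

/-- Structure of `C` when `a^ℓ + b^ℓ = C^z` with `a, b` coprime. -/
theorem struct {ℓ a b C z : ℕ} (hℓ : ℓ.Prime) (hℓ2 : ℓ ≠ 2) (ha : 0 < a) (hb : 0 < b)
    (hab : Nat.Coprime a b) (hz : 0 < z) (h : a ^ ℓ + b ^ ℓ = C ^ z) :
    ∃ D m : ℕ, 0 < D ∧ 0 < m ∧ OneMod ℓ m ∧ (C = D * m ∨ C = ℓ * D * m) ∧
      D ^ ℓ ≤ 4 ^ ℓ * C ∧ m ^ ℓ ≤ C ^ (ℓ - 1) ∧ (5 ≤ ℓ → C ≠ 2 → 2 ^ (ℓ - 4) ≤ C ^ 6) := by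
  have hℓ3 : 3 ≤ ℓ := by
    have := hℓ.two_le
    omega
  obtain ⟨Q, hQ, hQp, hcop, hdiv, hndiv⟩ := cofactor hℓ hℓ2 hb hab
  set s := a + b with hs
  have hs2 : 2 ≤ s := by omega
  have hC : 0 < C := by
    rcases Nat.eq_zero_or_pos C with h0 | h0
    · subst h0
      rw [zero_pow hz.ne'] at h
      have : 0 < a ^ ℓ := by positivity
      omega
    · exact h0
  have hQpos : 0 < Q := by
    rcases Nat.eq_zero_or_pos Q with h0 | h0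
    · subst h0
      rw [mul_zero] at hQ
      have : 0 < a ^ ℓ := by positivity
      omega
    · exact h0
  -- the two size inequalities
  have hup : Q ≤ s ^ (ℓ - 1) := by
    have h1 : a ^ ℓ + b ^ ℓ ≤ s ^ ℓ := pow_add_pow_le (Nat.zero_le a) (Nat.zero_le b) hℓ.ne_zero
    have h2 : s * Q ≤ s * s ^ (ℓ - 1) := by
      rw [hQ, ← pow_succ', Nat.sub_add_cancel (by omega)]; exact h1
    exact Nat.le_of_mul_le_mul_left h2 (by omega)
  have hlow : s ^ (ℓ - 1) ≤ 2 ^ (ℓ - 1) * Q := by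
    have h1 : s ^ ℓ ≤ 2 ^ (ℓ - 1) * (a ^ ℓ + b ^ ℓ) := add_pow_le (Nat.zero_le a) (Nat.zero_le b) ℓ
    have h2 : s * s ^ (ℓ - 1) ≤ s * (2 ^ (ℓ - 1) * Q) := by
      rw [← pow_succ', Nat.sub_add_cancel (by omega)]
      calc s ^ ℓ ≤ _ := h1
        _ = _ := by rw [← hQ]; ring
    exact Nat.le_of_mul_le_mul_left h2 (by omega)
  have hs3 : C ≠ 2 → 3 ≤ s := by
    intro hC2
    by_contra hcon
    have h1 : a = 1 := by omega
    have h2 : b = 1 := by omega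
    rw [h1, h2, one_pow] at h
    -- C ^ z = 2
    apply hC2
    have h3 : C ∣ 2 := by
      have : C ∣ C ^ z := dvd_pow_self C hz.ne'
      rw [← h] at this
      simpa using this
    rcases (Nat.dvd_prime Nat.prime_two).mp h3 with h4 | h4
    · rw [h4, one_pow] at h; omega
    · exact h4
  have hcube : 3 ≤ s → s ^ (ℓ - 1) ≤ Q ^ 3 := by
    intro h3
    have h1 : 8 * s ≤ s ^ 3 := by nlinarith [mul_le_mul h3 h3 (by norm_num) (by omega)]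
    have h2 : (8 * s) ^ (ℓ - 1) ≤ 8 ^ (ℓ - 1) * Q ^ 3 := by
      calc (8 * s) ^ (ℓ - 1) ≤ (s ^ 3) ^ (ℓ - 1) := Nat.pow_le_pow_left h1 _
        _ = (s ^ (ℓ - 1)) ^ 3 := by rw [← pow_mul, ← pow_mul, mul_comm]
        _ ≤ (2 ^ (ℓ - 1) * Q) ^ 3 := Nat.pow_le_pow_left hlow _
        _ = 8 ^ (ℓ - 1) * Q ^ 3 := by
          rw [mul_pow, ← pow_mul, mul_comm (ℓ - 1) 3, pow_mul]; norm_num
    rw [mul_pow] at h2
    exact Nat.le_of_mul_le_mul_left h2 (by positivity)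
  by_cases hd : ℓ ∣ s
  · -- second case
    obtain ⟨Q', hQ', hQ'd⟩ := hdiv hd
    have hco : Nat.Coprime (ℓ * s) Q' := by
      apply Nat.Coprime.mul_left
      · exact (Nat.Prime.coprime_iff_not_dvd hℓ).mpr hQ'd
      · apply Nat.Coprime.symm
        apply Nat.coprime_of_dvd
        intro p hp h1 h2
        have h3 := hcop p hp h2 (hQ' ▸ Dvd.dvd.mul_left h1 _)
        subst h3
        exact hQ'd h1
    have heq : (ℓ * s) * Q' = C ^ z := by rw [← h, ← hQ, hQ']; ring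
    obtain ⟨C1, C2, h1, h2, h3⟩ := eq_pow_of_coprime hco heq hz
    have hℓC1 : ℓ ∣ C1 := by
      have : ℓ ∣ C1 ^ z := h1 ▸ Dvd.intro s rfl
      exact hℓ.dvd_of_dvd_pow this
    obtain ⟨D, hD⟩ := hℓC1
    have hDpos : 0 < D := by
      rcases Nat.eq_zero_or_pos D with h0 | h0
      · subst h0
        rw [hD] at h3
        simp at h3
        omega
      · exact h0
    have hC2pos : 0 < C2 := by
      rcases Nat.eq_zero_or_pos C2 with h0 | h0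
      · subst h0; simp at h3; omega
      · exact h0
    have hC1pos : 0 < C1 := by rw [hD]; exact Nat.mul_pos hℓ.pos hDpos
    have hm : OneMod ℓ C2 := by
      intro p hp hpC
      have h4 : p ∣ Q' := h2 ▸ hpC.trans (dvd_pow_self C2 hz.ne')
      rcases hQp p hp (hQ' ▸ Dvd.dvd.mul_left h4 _) with h5 | h5
      · subst h5; exact absurd h4 hQ'd
      · exact h5
    -- upper bound for `D`
    have hDb : D ^ (ℓ - 1) ≤ 4 ^ (ℓ - 1) * C2 := by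
      have e1 : (ℓ * D) ^ (z * (ℓ - 1)) ≤ ℓ ^ ℓ * 2 ^ (ℓ - 1) * C2 ^ z := by
        calc (ℓ * D) ^ (z * (ℓ - 1)) = (C1 ^ z) ^ (ℓ - 1) := by rw [← hD, pow_mul]
          _ = (ℓ * s) ^ (ℓ - 1) := by rw [h1]
          _ = ℓ ^ (ℓ - 1) * s ^ (ℓ - 1) := mul_pow _ _ _
          _ ≤ ℓ ^ (ℓ - 1) * (2 ^ (ℓ - 1) * Q) := Nat.mul_le_mul_left _ hlow
          _ = ℓ ^ (ℓ - 1) * (2 ^ (ℓ - 1) * (ℓ * C2 ^ z)) := by rw [hQ', h2]
          _ = (ℓ ^ (ℓ - 1) * ℓ) * 2 ^ (ℓ - 1) * C2 ^ z := by ring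
          _ = ℓ ^ ℓ * 2 ^ (ℓ - 1) * C2 ^ z := by
            rw [← pow_succ, Nat.sub_add_cancel (by omega : 1 ≤ ℓ)]
      have e2 : ℓ ^ ℓ ≤ 2 ^ (ℓ - 1) * ℓ ^ (z * (ℓ - 1)) := by
        have e3 : ℓ ≤ 2 ^ (ℓ - 1) := by
          have := Nat.lt_two_pow_self (n := ℓ - 1)
          omega
        calc ℓ ^ ℓ = ℓ * ℓ ^ (ℓ - 1) := by rw [← pow_succ', Nat.sub_add_cancel (by omega : 1 ≤ ℓ)]
          _ ≤ 2 ^ (ℓ - 1) * ℓ ^ (z * (ℓ - 1)) := by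
            apply Nat.mul_le_mul e3
            exact Nat.pow_le_pow_right hℓ.pos (Nat.le_mul_of_pos_left _ hz)
      have e4 : ℓ ^ (z * (ℓ - 1)) * D ^ (z * (ℓ - 1)) ≤ ℓ ^ (z * (ℓ - 1)) * (4 ^ (ℓ - 1) * C2 ^ z) := by
        calc ℓ ^ (z * (ℓ - 1)) * D ^ (z * (ℓ - 1)) = (ℓ * D) ^ (z * (ℓ - 1)) := (mul_pow _ _ _).symm
          _ ≤ ℓ ^ ℓ * 2 ^ (ℓ - 1) * C2 ^ z := e1
          _ ≤ (2 ^ (ℓ - 1) * ℓ ^ (z * (ℓ - 1))) * 2 ^ (ℓ - 1) * C2 ^ z := by gcongr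
          _ = ℓ ^ (z * (ℓ - 1)) * ((2 * 2) ^ (ℓ - 1) * C2 ^ z) := by rw [mul_pow]; ring
          _ = _ := by norm_num
      have e5 : D ^ (z * (ℓ - 1)) ≤ 4 ^ (ℓ - 1) * C2 ^ z :=
        Nat.le_of_mul_le_mul_left e4 (by positivity)
      have e6 : (D ^ (ℓ - 1)) ^ z ≤ (4 ^ (ℓ - 1) * C2) ^ z := by
        calc (D ^ (ℓ - 1)) ^ z = D ^ (z * (ℓ - 1)) := by rw [← pow_mul, mul_comm]
          _ ≤ 4 ^ (ℓ - 1) * C2 ^ z := e5
          _ ≤ (4 ^ (ℓ - 1)) ^ z * C2 ^ z :=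
            Nat.mul_le_mul_right _ (Nat.le_self_pow hz.ne' _)
          _ = _ := (mul_pow _ _ _).symm
      exact (Nat.pow_le_pow_iff_left hz.ne').mp e6
    have hmb : C2 ≤ C1 ^ (ℓ - 1) := by
      have e1 : C2 ^ z ≤ (C1 ^ (ℓ - 1)) ^ z := by
        calc C2 ^ z = Q' := h2.symm
          _ ≤ Q := by rw [hQ']; exact Nat.le_mul_of_pos_left _ hℓ.pos
          _ ≤ s ^ (ℓ - 1) := hup
          _ ≤ (ℓ * s) ^ (ℓ - 1) := Nat.pow_le_pow_left (Nat.le_mul_of_pos_left _ hℓ.pos) _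
          _ = (C1 ^ (ℓ - 1)) ^ z := by rw [h1, ← pow_mul, ← pow_mul, mul_comm]
      exact (Nat.pow_le_pow_iff_left hz.ne').mp e1
    refine ⟨D, C2, hDpos, hC2pos, hm, Or.inr (by rw [h3, hD]), ?_, ?_, ?_⟩
    · calc D ^ ℓ = D ^ (ℓ - 1) * D := by rw [← pow_succ, Nat.sub_add_cancel (by omega : 1 ≤ ℓ)]
        _ ≤ (4 ^ (ℓ - 1) * C2) * D := Nat.mul_le_mul_right _ hDb
        _ ≤ 4 ^ ℓ * (ℓ * D * C2) := by
          have e1 : 4 ^ (ℓ - 1) ≤ 4 ^ ℓ := Nat.pow_le_pow_right (by norm_num) (by omega)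
          have e2 : C2 * D ≤ ℓ * D * C2 := by
            rw [mul_assoc, mul_comm D C2]; exact Nat.le_mul_of_pos_left _ hℓ.pos
          calc (4 ^ (ℓ - 1) * C2) * D = 4 ^ (ℓ - 1) * (C2 * D) := by ring
            _ ≤ _ := Nat.mul_le_mul e1 e2
        _ = 4 ^ ℓ * C := by rw [h3, hD]
    · calc C2 ^ ℓ = C2 * C2 ^ (ℓ - 1) := by rw [← pow_succ', Nat.sub_add_cancel (by omega : 1 ≤ ℓ)]
        _ ≤ C1 ^ (ℓ - 1) * C2 ^ (ℓ - 1) := Nat.mul_le_mul_right _ hmb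
        _ = C ^ (ℓ - 1) := by rw [h3, mul_pow]
    · intro h5 hC2
      have f1 := hcube (hs3 hC2)
      -- ℓ^3 C2^(3z) ≥ s^(ℓ-1)
      have f2 : (ℓ * s) ^ (ℓ - 1) ≤ ℓ ^ (ℓ + 2) * C2 ^ (3 * z) := by
        calc (ℓ * s) ^ (ℓ - 1) = ℓ ^ (ℓ - 1) * s ^ (ℓ - 1) := mul_pow _ _ _
          _ ≤ ℓ ^ (ℓ - 1) * Q ^ 3 := Nat.mul_le_mul_left _ f1
          _ = ℓ ^ (ℓ - 1) * (ℓ * C2 ^ z) ^ 3 := by rw [hQ', h2]
          _ = ℓ ^ (ℓ - 1 + 3) * C2 ^ (3 * z) := by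
            rw [mul_pow, ← pow_mul, mul_comm z 3, pow_add]; ring
          _ = _ := by rw [show ℓ - 1 + 3 = ℓ + 2 by omega]
      have f3 : ℓ ^ 2 ≤ C1 ^ z := by
        rw [← h1, pow_two]
        exact Nat.mul_le_mul_left _ (Nat.le_of_dvd (by omega) hd)
      have f4 : C1 ^ (z * (2 * (ℓ - 1))) ≤ C1 ^ (z * (ℓ + 2)) * C2 ^ (6 * z) := by
        calc C1 ^ (z * (2 * (ℓ - 1))) = ((ℓ * s) ^ (ℓ - 1)) ^ 2 := by
              rw [h1, ← pow_mul, ← pow_mul]; congr 1; ring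
          _ ≤ (ℓ ^ (ℓ + 2) * C2 ^ (3 * z)) ^ 2 := Nat.pow_le_pow_left f2 _
          _ = (ℓ ^ 2) ^ (ℓ + 2) * C2 ^ (6 * z) := by
            rw [mul_pow, ← pow_mul, ← pow_mul, ← pow_mul]; congr 2 <;> ring
          _ ≤ (C1 ^ z) ^ (ℓ + 2) * C2 ^ (6 * z) := Nat.mul_le_mul_right _ (Nat.pow_le_pow_left f3 _)
          _ = _ := by rw [← pow_mul]
      have f5 : C1 ^ (z * (2 * (ℓ - 1))) = C1 ^ (z * (ℓ + 2)) * C1 ^ (z * (ℓ - 4)) := by
        rw [← pow_add, ← mul_add]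
        congr 2
        omega
      rw [f5] at f4
      have f6 : C1 ^ (z * (ℓ - 4)) ≤ C2 ^ (6 * z) := Nat.le_of_mul_le_mul_left f4 (by positivity)
      have f7 : (C1 ^ (ℓ - 4)) ^ z ≤ (C2 ^ 6) ^ z := by
        rw [← pow_mul, ← pow_mul, mul_comm (ℓ - 4) z]; exact f6
      have f8 : C1 ^ (ℓ - 4) ≤ C2 ^ 6 := (Nat.pow_le_pow_iff_left hz.ne').mp f7
      calc 2 ^ (ℓ - 4) ≤ C1 ^ (ℓ - 4) := by
            apply Nat.pow_le_pow_left
            rw [hD]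
            calc 2 ≤ ℓ * 1 := by omega
              _ ≤ ℓ * D := Nat.mul_le_mul_left _ hDpos
        _ ≤ C2 ^ 6 := f8
        _ ≤ C ^ 6 := Nat.pow_le_pow_left (by rw [h3]; exact Nat.le_mul_of_pos_left _ hC1pos) _
  · -- first case
    have hQd := hndiv hd
    have hco : Nat.Coprime s Q := by
      apply Nat.Coprime.symm
      apply Nat.coprime_of_dvd
      intro p hp h1 h2
      have h3 := hcop p hp h2 h1
      subst h3
      exact hQd h1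
    have heq : s * Q = C ^ z := by rw [← h, ← hQ]
    obtain ⟨C1, C2, h1, h2, h3⟩ := eq_pow_of_coprime hco heq hz
    have hC1pos : 0 < C1 := by
      rcases Nat.eq_zero_or_pos C1 with h0 | h0
      · subst h0; simp at h3; omega
      · exact h0
    have hC2pos : 0 < C2 := by
      rcases Nat.eq_zero_or_pos C2 with h0 | h0
      · subst h0; simp at h3; omega
      · exact h0
    have hm : OneMod ℓ C2 := by
      intro p hp hpC
      have h4 : p ∣ Q := h2 ▸ hpC.trans (dvd_pow_self C2 hz.ne')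
      rcases hQp p hp h4 with h5 | h5
      · subst h5; exact absurd h4 hQd
      · exact h5
    have hDb : C1 ^ (ℓ - 1) ≤ 4 ^ (ℓ - 1) * C2 := by
      have e6 : (C1 ^ (ℓ - 1)) ^ z ≤ (2 ^ (ℓ - 1) * C2) ^ z := by
        calc (C1 ^ (ℓ - 1)) ^ z = s ^ (ℓ - 1) := by rw [h1, ← pow_mul, ← pow_mul, mul_comm]
          _ ≤ 2 ^ (ℓ - 1) * Q := hlow
          _ = 2 ^ (ℓ - 1) * C2 ^ z := by rw [h2]
          _ ≤ (2 ^ (ℓ - 1)) ^ z * C2 ^ z :=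
            Nat.mul_le_mul_right _ (Nat.le_self_pow hz.ne' _)
          _ = _ := (mul_pow _ _ _).symm
      have e7 := (Nat.pow_le_pow_iff_left hz.ne').mp e6
      exact e7.trans (Nat.mul_le_mul_right _ (Nat.pow_le_pow_left (by norm_num) _))
    have hmb : C2 ≤ C1 ^ (ℓ - 1) := by
      have e1 : C2 ^ z ≤ (C1 ^ (ℓ - 1)) ^ z := by
        calc C2 ^ z = Q := h2.symm
          _ ≤ s ^ (ℓ - 1) := hup
          _ = (C1 ^ (ℓ - 1)) ^ z := by rw [h1, ← pow_mul, ← pow_mul, mul_comm]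
      exact (Nat.pow_le_pow_iff_left hz.ne').mp e1
    refine ⟨C1, C2, hC1pos, hC2pos, hm, Or.inl h3, ?_, ?_, ?_⟩
    · calc C1 ^ ℓ = C1 ^ (ℓ - 1) * C1 := by rw [← pow_succ, Nat.sub_add_cancel (by omega : 1 ≤ ℓ)]
        _ ≤ (4 ^ (ℓ - 1) * C2) * C1 := Nat.mul_le_mul_right _ hDb
        _ ≤ 4 ^ ℓ * (C1 * C2) := by
          have e1 : 4 ^ (ℓ - 1) ≤ 4 ^ ℓ := Nat.pow_le_pow_right (by norm_num) (by omega)
          calc (4 ^ (ℓ - 1) * C2) * C1 = 4 ^ (ℓ - 1) * (C1 * C2) := by ring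
            _ ≤ _ := Nat.mul_le_mul_right _ e1
        _ = 4 ^ ℓ * C := by rw [h3]
    · calc C2 ^ ℓ = C2 * C2 ^ (ℓ - 1) := by rw [← pow_succ', Nat.sub_add_cancel (by omega : 1 ≤ ℓ)]
        _ ≤ C1 ^ (ℓ - 1) * C2 ^ (ℓ - 1) := Nat.mul_le_mul_right _ hmb
        _ = C ^ (ℓ - 1) := by rw [h3, mul_pow]
    · intro h5 hC2
      have f1 := hcube (hs3 hC2)
      have f7 : (C1 ^ (ℓ - 1)) ^ z ≤ (C2 ^ 3) ^ z := by
        calc (C1 ^ (ℓ - 1)) ^ z = s ^ (ℓ - 1) := by rw [h1, ← pow_mul, ← pow_mul, mul_comm]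
          _ ≤ Q ^ 3 := f1
          _ = (C2 ^ 3) ^ z := by rw [h2, ← pow_mul, ← pow_mul, mul_comm]
      have f8 : C1 ^ (ℓ - 1) ≤ C2 ^ 3 := (Nat.pow_le_pow_iff_left hz.ne').mp f7
      have hC12 : 2 ≤ C1 := by
        by_contra hcon
        have : C1 = 1 := by omega
        rw [this, one_pow] at h1
        omega
      calc 2 ^ (ℓ - 4) ≤ C1 ^ (ℓ - 4) := Nat.pow_le_pow_left hC12 _
        _ ≤ C1 ^ (ℓ - 1) := Nat.pow_le_pow_right hC1pos (by omega)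
        _ ≤ C2 ^ 3 := f8
        _ ≤ C2 ^ 6 := Nat.pow_le_pow_right hC2pos (by norm_num)
        _ ≤ C ^ 6 := Nat.pow_le_pow_left (by rw [h3]; exact Nat.le_mul_of_pos_left _ hC1pos) _

end Pool.Agent.H374R2.Cof
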