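import Mathlib
import Pool.Agent.H374R2.CofA
import Pool.Agent.H374R2.BealDens

/-!
Counting the integers `C ≤ N` allowed by `Cof.struct`.
-/

namespace Pool.Agent.H374R2.Cof

open Finset

/-- Number of elements of `(0, X]` whose residues modulo the primes of `F` lie in given sets. -/
theorem count1 (F : Finset ℕ) (hF : ∀ p ∈ F, p.Prime) (S : ∀ p : ℕ, Set (ZMod p)) (E : Set ℕ)
    (hE : ∀ m ∈ E, ∀ p ∈ F, (m : ZMod p) ∈ S p) (X : ℕ) :
    (E ∩ Set.Ioc 0 X).ncard ≤ (∏ p ∈ F, (S p).ncard) * (X / (∏ p ∈ F, p) + 1) := by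
  classical
  have hpr : ∀ i : F, ((i : ℕ)).Prime := fun i => hF _ i.2
  have hco : Pairwise fun i j : F => Nat.Coprime (i : ℕ) (j : ℕ) := by
    intro i j hij
    exact (Nat.coprime_primes (hpr i) (hpr j)).mpr (fun h => hij (Subtype.ext h))
  have : ∀ i : F, NeZero (i : ℕ) := fun i => ⟨(hpr i).ne_zero⟩
  let e := ZMod.prodEquivPi (fun i : F => (i : ℕ)) hco
  let S' : ∀ i : F, Finset (ZMod (i : ℕ)) := fun i => Finset.univ.filter (fun x => x ∈ S i)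
  have hS' : ∀ i : F, (S' i).card = (S i).ncard := by
    intro i
    rw [← Set.ncard_coe_finset]
    congr 1
    ext x
    simp [S']
  obtain ⟨M, hM, B, hB, hEB⟩ : ∃ M : ℕ, M = ∏ i : F, (i : ℕ) ∧ ∃ B : Finset (ZMod M),
      B.card = ∏ i : F, (S' i).card ∧ ∀ m : ℕ, (∀ i : F, (m : ZMod (i : ℕ)) ∈ S' i) → (m : ZMod M) ∈ B := by
    refine ⟨_, rfl, (Fintype.piFinset S').map e.symm.toEquiv.toEmbedding, ?_, ?_⟩
    · rw [Finset.card_map, Fintype.card_piFinset]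
    · intro m hm
      rw [Finset.mem_map]
      refine ⟨fun i => (m : ZMod (i : ℕ)), by rw [Fintype.mem_piFinset]; exact hm, ?_⟩
      have h1 : e (m : ZMod (∏ i : F, (i : ℕ))) = fun i : F => (m : ZMod (i : ℕ)) := by
        rw [map_natCast]
        rfl
      rw [← h1]
      exact e.symm_apply_apply _
  have hMpos : 0 < M := hM ▸ Finset.prod_pos (fun i _ => (hpr i).pos)
  have hsub : (E ∩ Set.Ioc 0 X) ⊆
      ((B.biUnion fun c => ((Finset.Ioc 0 (0 + X)).filter (fun n : ℕ => (n : ZMod M) = c)) : Finset ℕ) : Set ℕ) := by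
    rintro m ⟨hm, hmX⟩
    simp only [Finset.coe_biUnion, Set.mem_iUnion, Finset.mem_coe, Finset.mem_filter, Finset.mem_Ioc]
    refine ⟨_, hEB m (fun i => ?_), ⟨hmX.1, by simpa using hmX.2⟩, rfl⟩
    simp only [S', Finset.mem_filter, Finset.mem_univ, true_and]
    exact hE m hm i i.2
  have hprodM : (∏ p ∈ F, p) = M := by
    rw [hM]; exact (Finset.prod_coe_sort F (fun p => p)).symm
  have hprodS : (∏ p ∈ F, (S p).ncard) = B.card := by
    rw [hB, ← Finset.prod_coe_sort F (fun p => (S p).ncard)]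
    exact Finset.prod_congr rfl (fun i _ => (hS' i).symm)
  rw [hprodM, hprodS]
  calc (E ∩ Set.Ioc 0 X).ncard ≤ _ := Set.ncard_le_ncard hsub (Finset.finite_toSet _)
    _ = _ := Set.ncard_coe_finset _
    _ ≤ ∑ c ∈ B, ((Finset.Ioc 0 (0 + X)).filter (fun n : ℕ => (n : ZMod M) = c)).card :=
          Finset.card_biUnion_le
    _ ≤ ∑ c ∈ B, (X / M + 1) := Finset.sum_le_sum (fun c _ => Beal.card_class_le M hMpos 0 X c)
    _ = _ := by rw [Finset.sum_const, smul_eq_mul]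

/-- The integers allowed by `struct` for the prime `ℓ`. -/
def Allowed (ℓ : ℕ) : Set ℕ :=
  {C | ∃ D m : ℕ, 0 < D ∧ 0 < m ∧ OneMod ℓ m ∧ (C = D * m ∨ C = ℓ * D * m) ∧
      D ^ ℓ ≤ 4 ^ ℓ * C ∧ m ^ ℓ ≤ C ^ (ℓ - 1)}

theorem count_allowed {ℓ : ℕ} (hℓ : 0 < ℓ) (F : Finset ℕ) (hF : ∀ p ∈ F, p.Prime)
    (S : ∀ p : ℕ, Set (ZMod p))
    (hS : ∀ m : ℕ, 0 < m → OneMod ℓ m → ∀ p ∈ F, (m : ZMod p) ∈ S p) {N : ℕ} (hN : 0 < N) :
    ((Allowed ℓ ∩ Set.Ioc 0 N).ncard : ℝ) ≤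
      8 * ((∏ p ∈ F, ((S p).ncard : ℝ)) / (∏ p ∈ F, (p : ℝ))) * N +
      8 * (N : ℝ) ^ ((1 : ℝ) / ℓ) * (∏ p ∈ F, ((S p).ncard : ℝ)) := by
  classical
  set y : ℝ := (N : ℝ) ^ ((1 : ℝ) / ℓ) with hy
  have hNR : (0 : ℝ) < N := by exact_mod_cast hN
  have hypos : 0 < y := Real.rpow_pos_of_pos hNR _
  have hyl : y ^ ℓ = N := by
    rw [hy, ← Real.rpow_natCast, ← Real.rpow_mul hNR.le, one_div, inv_mul_cancel₀ (by positivity),
      Real.rpow_one]
  set A : Finset ℕ := Finset.Ioc 0 ⌊4 * y⌋₊ with hA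
  set E : Set ℕ := {m | 0 < m ∧ OneMod ℓ m} with hE
  have hfin : (E ∩ Set.Ioc 0 ⌊N / y⌋₊).Finite := (Set.finite_Ioc _ _).subset Set.inter_subset_right
  set B : Finset ℕ := hfin.toFinset with hB
  have hBcard : (B.card : ℝ) ≤ (∏ p ∈ F, ((S p).ncard : ℝ)) * ((N / y) / (∏ p ∈ F, (p : ℝ)) + 1) := by
    have h1 := count1 F hF S E (fun m hm => hS m hm.1 hm.2) ⌊N / y⌋₊
    have h2 : B.card = (E ∩ Set.Ioc 0 ⌊N / y⌋₊).ncard := by
      rw [hB, Set.ncard_eq_toFinset_card _ hfin]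
    rw [h2]
    have hMpos : (0 : ℝ) < ∏ p ∈ F, (p : ℝ) := Finset.prod_pos (fun p hp => by exact_mod_cast (hF p hp).pos)
    calc ((E ∩ Set.Ioc 0 ⌊N / y⌋₊).ncard : ℝ) ≤
        (((∏ p ∈ F, (S p).ncard) * (⌊N / y⌋₊ / (∏ p ∈ F, p) + 1) : ℕ) : ℝ) := by exact_mod_cast h1
      _ = (∏ p ∈ F, ((S p).ncard : ℝ)) * (((⌊N / y⌋₊ / (∏ p ∈ F, p) : ℕ) : ℝ) + 1) := by push_cast; ring
      _ ≤ _ := by
        apply mul_le_mul_of_nonneg_left _ (Finset.prod_nonneg (fun _ _ => by positivity))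
        have h3 : ((⌊N / y⌋₊ / (∏ p ∈ F, p) : ℕ) : ℝ) ≤ (⌊N / y⌋₊ : ℝ) / ((∏ p ∈ F, p : ℕ) : ℝ) := Nat.cast_div_le
        have h4 : (⌊N / y⌋₊ : ℝ) ≤ N / y := Nat.floor_le (by positivity)
        have h5 : (⌊N / y⌋₊ : ℝ) / ((∏ p ∈ F, p : ℕ) : ℝ) ≤ (N / y) / (∏ p ∈ F, (p : ℝ)) := by
          push_cast
          exact div_le_div_of_nonneg_right h4 hMpos.le
        linarith
  have hAcard : (A.card : ℝ) ≤ 4 * y := by
    rw [hA, Nat.card_Ioc, Nat.sub_zero]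
    exact Nat.floor_le (by positivity)
  have hsub : (Allowed ℓ ∩ Set.Ioc 0 N) ⊆
      (((A ×ˢ B).image (fun q => q.1 * q.2) ∪ (A ×ˢ B).image (fun q => ℓ * q.1 * q.2) : Finset ℕ) : Set ℕ) := by
    rintro C ⟨⟨D, m, hD, hm, hmo, hC, h1, h2⟩, hCN⟩
    have hCN' : C ≤ N := hCN.2
    have hDA : D ∈ A := by
      rw [hA, Finset.mem_Ioc]
      refine ⟨hD, Nat.le_floor ?_⟩
      have h3 : (D : ℝ) ^ ℓ ≤ (4 * y) ^ ℓ := by
        rw [mul_pow, hyl]
        have : ((D ^ ℓ : ℕ) : ℝ) ≤ ((4 ^ ℓ * N : ℕ) : ℝ) := by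
          exact_mod_cast h1.trans (Nat.mul_le_mul_left _ hCN')
        push_cast at this
        exact this
      exact (pow_le_pow_iff_left₀ (by positivity) (by positivity) hℓ.ne').mp h3
    have hmB : m ∈ B := by
      rw [hB, Set.Finite.mem_toFinset]
      refine ⟨⟨hm, hmo⟩, hm, Nat.le_floor ?_⟩
      rw [le_div_iff₀ hypos]
      have h3 : ((m : ℝ) * y) ^ ℓ ≤ (N : ℝ) ^ ℓ := by
        rw [mul_pow, hyl]
        have : ((m ^ ℓ : ℕ) : ℝ) ≤ ((N ^ (ℓ - 1) : ℕ) : ℝ) := by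
          exact_mod_cast h2.trans (Nat.pow_le_pow_left hCN' _)
        push_cast at this
        calc (m : ℝ) ^ ℓ * N ≤ (N : ℝ) ^ (ℓ - 1) * N := by gcongr
          _ = (N : ℝ) ^ ℓ := by rw [← pow_succ, Nat.sub_add_cancel hℓ]
      exact (pow_le_pow_iff_left₀ (by positivity) (by positivity) hℓ.ne').mp h3
    simp only [Finset.coe_union, Finset.coe_image, Set.mem_union, Set.mem_image, Finset.mem_coe,
      Finset.mem_product]
    rcases hC with hC | hC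
    · left; exact ⟨(D, m), ⟨hDA, hmB⟩, hC.symm⟩
    · right; exact ⟨(D, m), ⟨hDA, hmB⟩, hC.symm⟩
  have hcard : ((Allowed ℓ ∩ Set.Ioc 0 N).ncard : ℝ) ≤ 2 * (A.card * B.card) := by
    have h1 : (Allowed ℓ ∩ Set.Ioc 0 N).ncard ≤ A.card * B.card + A.card * B.card := by
      calc (Allowed ℓ ∩ Set.Ioc 0 N).ncard ≤ _ := Set.ncard_le_ncard hsub (Finset.finite_toSet _)
        _ = _ := Set.ncard_coe_finset _
        _ ≤ _ := Finset.card_union_le _ _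
        _ ≤ (A ×ˢ B).card + (A ×ˢ B).card := Nat.add_le_add Finset.card_image_le Finset.card_image_le
        _ = _ := by rw [Finset.card_product]
    have : ((Allowed ℓ ∩ Set.Ioc 0 N).ncard : ℝ) ≤ ((A.card * B.card + A.card * B.card : ℕ) : ℝ) := by
      exact_mod_cast h1
    push_cast at this
    linarith
  set R : ℝ := ∏ p ∈ F, ((S p).ncard : ℝ) with hR
  set M : ℝ := ∏ p ∈ F, (p : ℝ) with hM
  have hR0 : 0 ≤ R := Finset.prod_nonneg (fun _ _ => by positivity)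
  have hM0 : 0 < M := Finset.prod_pos (fun p hp => by exact_mod_cast (hF p hp).pos)
  calc ((Allowed ℓ ∩ Set.Ioc 0 N).ncard : ℝ) ≤ 2 * (A.card * B.card) := hcard
    _ ≤ 2 * ((4 * y) * (R * ((N / y) / M + 1))) := by
        apply mul_le_mul_of_nonneg_left _ (by norm_num)
        apply mul_le_mul hAcard hBcard (by positivity) (by positivity)
    _ = 8 * (R / M) * N + 8 * y * R := by
        field_simp
        ring

end Pool.Agent.H374R2.Cof
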