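import Mathlib
import Pool.Agent.H374R2.CofB
import Pool.Agent.Helper379.Div3
import Pool.Agent.Helper923.HMertens

/-!
Density zero statements for the sets `Allowed ℓ`, uniformly in `ℓ`.
-/

namespace Pool.Agent.H374R2.Cof

open Finset Filter Topology

/-- Natural density zero. -/
def NatNull (E : Set ℕ) : Prop :=
  ∀ ε : ℝ, 0 < ε → ∃ N₀ : ℕ, ∀ N : ℕ, N₀ ≤ N → ((E ∩ Set.Ioc 0 N).ncard : ℝ) ≤ ε * N

theorem NatNull.mono {E F : Set ℕ} (h : NatNull F) (hEF : E ⊆ F) : NatNull E := by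
  intro ε hε
  obtain ⟨L, hL⟩ := h ε hε
  refine ⟨L, fun N hN => le_trans ?_ (hL N hN)⟩
  exact_mod_cast Set.ncard_le_ncard (Set.inter_subset_inter_left _ hEF)
    ((Set.finite_Ioc _ _).subset Set.inter_subset_right)

theorem NatNull.union {E F : Set ℕ} (h : NatNull E) (h' : NatNull F) : NatNull (E ∪ F) := by
  intro ε hε
  obtain ⟨L, hL⟩ := h (ε / 2) (by positivity)
  obtain ⟨L', hL'⟩ := h' (ε / 2) (by positivity)
  refine ⟨max L L', fun N hN => ?_⟩
  have h1 := hL N ((le_max_left _ _).trans hN)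
  have h2 := hL' N ((le_max_right _ _).trans hN)
  rw [Set.union_inter_distrib_right]
  have h3 : (((E ∩ Set.Ioc 0 N) ∪ (F ∩ Set.Ioc 0 N)).ncard : ℝ) ≤
      (E ∩ Set.Ioc 0 N).ncard + (F ∩ Set.Ioc 0 N).ncard := by
    exact_mod_cast Set.ncard_union_le _ _
  linarith

theorem natNull_biUnion {ι : Type*} (s : Finset ι) (E : ι → Set ℕ) (h : ∀ i ∈ s, NatNull (E i)) :
    NatNull (⋃ i ∈ s, E i) := by
  classical
  induction s using Finset.induction_on with
  | empty =>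
    intro ε hε
    refine ⟨0, fun N _ => ?_⟩
    simp
    positivity
  | insert i s hi ih =>
    rw [Finset.set_biUnion_insert]
    exact (h i (Finset.mem_insert_self i s)).union
      (ih (fun j hj => h j (Finset.mem_insert_of_mem hj)))

/-- Existence of finitely many primes in a residue class with large reciprocal sum. -/
theorem exists_primes_class (q : ℕ) (hq : 0 < q) (a : ℕ) (ha : Nat.Coprime a q) (T : ℝ) :
    ∃ F : Finset ℕ, (∀ p ∈ F, p.Prime ∧ p ≡ a [MOD q]) ∧ T ≤ ∑ p ∈ F, (1 : ℝ) / p := by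
  classical
  have : NeZero q := ⟨hq.ne'⟩
  have h := Pool.Agent.Helper379.Div3.not_summable_inv_primes_mod (q := q) (a := (a : ZMod q))
    ((ZMod.isUnit_iff_coprime a q).mpr ha)
  have h1 : ∃ F : Finset ℕ, T ≤ ∑ n ∈ F, (if n.Prime ∧ (n : ZMod q) = (a : ZMod q) then (1 : ℝ) / n else 0) := by
    by_contra hcon
    push Not at hcon
    apply h
    refine summable_of_sum_le (c := T) ?_ (fun F => (hcon F).le)
    intro n
    simp only [Pi.zero_apply]
    split_ifs <;> positivity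
  obtain ⟨F, hF⟩ := h1
  refine ⟨F.filter (fun n => n.Prime ∧ (n : ZMod q) = (a : ZMod q)), ?_, ?_⟩
  · intro p hp
    have := (Finset.mem_filter.mp hp).2
    exact ⟨this.1, (ZMod.natCast_eq_natCast_iff _ _ _).mp this.2⟩
  · rw [Finset.sum_filter]; exact hF

/-- `∏ (p - 1) / p ≤ exp (- ∑ 1/p)`. -/
theorem prod_le_exp (F : Finset ℕ) (hF : ∀ p ∈ F, p.Prime) :
    (∏ p ∈ F, (({x : ZMod p | x ≠ 0}.ncard : ℕ) : ℝ)) / (∏ p ∈ F, (p : ℝ)) ≤
      Real.exp (-∑ p ∈ F, (1 : ℝ) / p) := by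
  rw [← Finset.prod_div_distrib, ← Finset.sum_neg_distrib, Real.exp_sum]
  apply Finset.prod_le_prod
  · intro p hp
    positivity
  · intro p hp
    have hpp := hF p hp
    have : Fact p.Prime := ⟨hpp⟩
    have h1 : {x : ZMod p | x ≠ 0}.ncard = p - 1 := by
      have : {x : ZMod p | x ≠ 0} = ({0} : Set (ZMod p))ᶜ := by ext; simp
      rw [this, Set.ncard_compl, Set.ncard_singleton, Nat.card_eq_fintype_card, ZMod.card]
    rw [h1, Nat.cast_sub hpp.one_lt.le]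
    have h2 := Real.add_one_le_exp (-(1 / (p : ℝ)))
    have hp0 : (0 : ℝ) < p := by exact_mod_cast hpp.pos
    calc ((p : ℝ) - ((1 : ℕ) : ℝ)) / p = -(1 / (p : ℝ)) + 1 := by
          field_simp; push_cast; ring
      _ ≤ _ := h2

/-- Integers without prime factors in a primitive residue class have density zero. -/
theorem natNull_avoid (q : ℕ) (hq : 0 < q) (a : ℕ) (ha : Nat.Coprime a q) :
    NatNull {C | ∀ p : ℕ, p.Prime → p ≡ a [MOD q] → ¬ p ∣ C} := by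
  intro ε hε
  obtain ⟨F, hF, hsum⟩ := exists_primes_class q hq a ha (-Real.log (ε / 2))
  set R : ℝ := ∏ p ∈ F, (({x : ZMod p | x ≠ 0}.ncard : ℕ) : ℝ) with hR
  set M : ℝ := ∏ p ∈ F, (p : ℝ) with hM
  have hR0 : 0 ≤ R := Finset.prod_nonneg (fun _ _ => by positivity)
  have hM0 : 0 < M := Finset.prod_pos (fun p hp => by exact_mod_cast (hF p hp).1.pos)
  have hRM : R / M ≤ ε / 2 := by
    have h1 := prod_le_exp F (fun p hp => (hF p hp).1)
    calc R / M ≤ _ := h1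
      _ ≤ Real.exp (Real.log (ε / 2)) := Real.exp_le_exp.mpr (by linarith)
      _ = ε / 2 := Real.exp_log (by positivity)
  obtain ⟨N₀, hN₀⟩ := exists_nat_ge (R / (ε / 2))
  refine ⟨N₀, fun N hN => ?_⟩
  have h1 := count1 F (fun p hp => (hF p hp).1) (fun p => {x : ZMod p | x ≠ 0})
    {C | ∀ p : ℕ, p.Prime → p ≡ a [MOD q] → ¬ p ∣ C} (by
      intro m hm p hp
      have := hm p (hF p hp).1 (hF p hp).2
      show (m : ZMod p) ≠ 0
      rwa [Ne, ZMod.natCast_eq_zero_iff]) N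
  have h2 : (({C | ∀ p : ℕ, p.Prime → p ≡ a [MOD q] → ¬ p ∣ C} ∩ Set.Ioc 0 N).ncard : ℝ) ≤
      R * ((N : ℝ) / M + 1) := by
    calc _ ≤ (((∏ p ∈ F, {x : ZMod p | x ≠ 0}.ncard) * (N / (∏ p ∈ F, p) + 1) : ℕ) : ℝ) := by
          exact_mod_cast h1
      _ = R * (((N / (∏ p ∈ F, p) : ℕ) : ℝ) + 1) := by rw [hR]; push_cast; ring
      _ ≤ _ := by
        apply mul_le_mul_of_nonneg_left _ hR0
        have h3 : ((N / (∏ p ∈ F, p) : ℕ) : ℝ) ≤ (N : ℝ) / ((∏ p ∈ F, p : ℕ) : ℝ) := Nat.cast_div_le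
        push_cast at h3
        linarith
  have h3 : R ≤ (ε / 2) * N := by
    have h4 : R / (ε / 2) ≤ N := hN₀.trans (by exact_mod_cast hN)
    rwa [div_le_iff₀ (by positivity), mul_comm] at h4
  calc _ ≤ R * ((N : ℝ) / M + 1) := h2
    _ = (R / M) * N + R := by field_simp
    _ ≤ (ε / 2) * N + (ε / 2) * N := by
      have : (R / M) * N ≤ (ε / 2) * N := mul_le_mul_of_nonneg_right hRM (by positivity)
      linarith
    _ = ε * N := by ring

/-- For a fixed odd prime `ℓ` the allowed integers have density zero. -/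
theorem natNull_allowed {ℓ : ℕ} (hℓ : ℓ.Prime) (hℓ2 : ℓ ≠ 2) : NatNull (Allowed ℓ) := by
  intro ε hε
  have hℓ3 : 3 ≤ ℓ := by have := hℓ.two_le; omega
  have hco : Nat.Coprime 2 ℓ := (Nat.coprime_primes Nat.prime_two hℓ).mpr (Ne.symm hℓ2)
  obtain ⟨F, hF, hsum⟩ := exists_primes_class ℓ hℓ.pos 2 hco (-Real.log (ε / 16))
  set R : ℝ := ∏ p ∈ F, (({x : ZMod p | x ≠ 0}.ncard : ℕ) : ℝ) with hR
  set M : ℝ := ∏ p ∈ F, (p : ℝ) with hM
  have hR0 : 0 ≤ R := Finset.prod_nonneg (fun _ _ => by positivity)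
  have hM0 : 0 < M := Finset.prod_pos (fun p hp => by exact_mod_cast (hF p hp).1.pos)
  have hRM : R / M ≤ ε / 16 := by
    have h1 := prod_le_exp F (fun p hp => (hF p hp).1)
    calc R / M ≤ _ := h1
      _ ≤ Real.exp (Real.log (ε / 16)) := Real.exp_le_exp.mpr (by linarith)
      _ = ε / 16 := Real.exp_log (by positivity)
  -- `8 N^(1/ℓ) R ≤ (ε/2) N` eventually
  have hlim : Tendsto (fun N : ℕ => (N : ℝ) ^ (-(2 / 3) : ℝ)) atTop (𝓝 0) :=
    (tendsto_rpow_neg_atTop (by norm_num : (0 : ℝ) < 2 / 3)).comp tendsto_natCast_atTop_atTop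
  have hev : ∀ᶠ N : ℕ in atTop, (N : ℝ) ^ (-(2 / 3) : ℝ) * (8 * R) ≤ ε / 2 := by
    have : Tendsto (fun N : ℕ => (N : ℝ) ^ (-(2 / 3) : ℝ) * (8 * R)) atTop (𝓝 (0 * (8 * R))) :=
      hlim.mul_const _
    rw [zero_mul] at this
    exact this.eventually (Iic_mem_nhds (by positivity))
  obtain ⟨N₀, hN₀⟩ := eventually_atTop.mp hev
  refine ⟨max N₀ 1, fun N hN => ?_⟩
  have hN1 : 1 ≤ N := (le_max_right _ _).trans hN
  have hNR : (1 : ℝ) ≤ N := by exact_mod_cast hN1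
  have h1 := count_allowed hℓ.pos F (fun p hp => (hF p hp).1) (fun p => {x : ZMod p | x ≠ 0}) (by
      intro m hm hmo p hp
      show (m : ZMod p) ≠ 0
      rw [Ne, ZMod.natCast_eq_zero_iff]
      intro hpm
      have h2 := hmo p (hF p hp).1 hpm
      have h3 : p ≡ 1 [MOD ℓ] := by
        have h4 : 1 ≤ p := (hF p hp).1.one_lt.le
        exact ((Nat.modEq_iff_dvd' h4).mpr h2).symm
      have h5 : 1 ≡ 2 [MOD ℓ] := h3.symm.trans (hF p hp).2
      have h6 : ℓ ∣ 2 - 1 := (Nat.modEq_iff_dvd' (by norm_num)).mp h5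
      have := Nat.le_of_dvd (by norm_num) h6
      omega) (by omega : 0 < N)
  have h2 : 8 * (N : ℝ) ^ ((1 : ℝ) / ℓ) * R ≤ (ε / 2) * N := by
    have h3 : (N : ℝ) ^ ((1 : ℝ) / ℓ) ≤ (N : ℝ) ^ ((1 : ℝ) / 3) := by
      apply Real.rpow_le_rpow_of_exponent_le hNR
      apply one_div_le_one_div_of_le (by norm_num)
      exact_mod_cast hℓ3
    have h4 := hN₀ N ((le_max_left _ _).trans hN)
    have h5 : (N : ℝ) ^ ((1 : ℝ) / 3) = (N : ℝ) ^ (-(2 / 3) : ℝ) * N := by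
      rw [← Real.rpow_add_one (by positivity)]
      norm_num
    calc 8 * (N : ℝ) ^ ((1 : ℝ) / ℓ) * R ≤ 8 * (N : ℝ) ^ ((1 : ℝ) / 3) * R := by gcongr
      _ = ((N : ℝ) ^ (-(2 / 3) : ℝ) * (8 * R)) * N := by rw [h5]; ring
      _ ≤ _ := mul_le_mul_of_nonneg_right h4 (by positivity)
  calc ((Allowed ℓ ∩ Set.Ioc 0 N).ncard : ℝ) ≤ 8 * (R / M) * N + 8 * (N : ℝ) ^ ((1 : ℝ) / ℓ) * R := h1
    _ ≤ 8 * (ε / 16) * N + (ε / 2) * N := by
      have : 8 * (R / M) * N ≤ 8 * (ε / 16) * N := by gcongr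
      linarith
    _ = ε * N := by ring

end Pool.Agent.H374R2.Cof
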