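import Mathlib
import Pool.Agent.H374R2.CofC

/-!
The uniform part: the contribution of all large primes `ℓ`.
-/

namespace Pool.Agent.H374R2.Cof

open Finset Filter Topology

/-- `∑_{a < p ≤ b} 1/(p log p) ≤ K / log a`. -/
theorem tail_bound : ∃ K : ℝ, 0 ≤ K ∧ ∀ n a b : ℕ, b ≤ a + n → 2 ≤ a →
    ∑ p ∈ (Finset.Ioc a b).filter Nat.Prime, (1 : ℝ) / (p * Real.log p) ≤ K / Real.log a := by
  obtain ⟨C, hC0, hC⟩ := Pool.Agent.Helper923.HMertens.mertens_ratio
  have hl2 : (0 : ℝ) < Real.log 2 := Real.log_pos (by norm_num)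
  set K₁ : ℝ := Real.log 2 + C / Real.log 2 with hK1
  have hK1pos : 0 ≤ K₁ := by positivity
  refine ⟨2 * K₁, by positivity, ?_⟩
  -- first the range `(a, a^2]`
  have hshort : ∀ a b : ℕ, 2 ≤ a → b ≤ a ^ 2 →
      ∑ p ∈ (Finset.Ioc a b).filter Nat.Prime, (1 : ℝ) / (p * Real.log p) ≤ K₁ / Real.log a := by
    intro a b ha hb
    have hla : 0 < Real.log a := Real.log_pos (by exact_mod_cast (by omega : 1 < a))
    have hla2 : Real.log 2 ≤ Real.log a := Real.log_le_log (by norm_num) (by exact_mod_cast ha)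
    rcases lt_or_ge b a with hba | hab
    · rw [Finset.Ioc_eq_empty (by omega)]
      simp
      positivity
    · have h1 := (abs_le.mp (hC a b ha hab)).2
      have h2 : Real.log (Real.log b / Real.log a) ≤ Real.log 2 := by
        have hlb : 0 < Real.log b := Real.log_pos (by exact_mod_cast (by omega : 1 < b))
        apply Real.log_le_log (by positivity)
        rw [div_le_iff₀ hla]
        have h3 : Real.log b ≤ Real.log ((a : ℝ) ^ 2) := by
          apply Real.log_le_log (by exact_mod_cast (by omega : 0 < b))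
          exact_mod_cast hb
        rw [Real.log_pow] at h3
        exact_mod_cast h3
      have h4 : C / Real.log a ≤ C / Real.log 2 := div_le_div_of_nonneg_left hC0 hl2 hla2
      have h5 : ∑ p ∈ (Finset.Ioc a b).filter Nat.Prime, (1 : ℝ) / p ≤ K₁ := by
        rw [hK1]; linarith
      calc ∑ p ∈ (Finset.Ioc a b).filter Nat.Prime, (1 : ℝ) / (p * Real.log p)
          ≤ ∑ p ∈ (Finset.Ioc a b).filter Nat.Prime, ((1 : ℝ) / p) * (1 / Real.log a) := by
            apply Finset.sum_le_sum
            intro p hp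
            simp only [Finset.mem_filter, Finset.mem_Ioc] at hp
            have hp0 : (0 : ℝ) < p := by exact_mod_cast hp.2.pos
            have h6 : Real.log a ≤ Real.log p :=
              Real.log_le_log (by exact_mod_cast (by omega : 0 < a)) (by exact_mod_cast hp.1.1.le)
            rw [← one_div_mul_one_div]
            gcongr
        _ = (∑ p ∈ (Finset.Ioc a b).filter Nat.Prime, (1 : ℝ) / p) * (1 / Real.log a) := by
            rw [Finset.sum_mul]
        _ ≤ K₁ * (1 / Real.log a) := by gcongr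
        _ = _ := by ring
  intro n
  induction n using Nat.strong_induction_on with
  | _ n ih =>
    intro a b hb ha
    have hla : 0 < Real.log a := Real.log_pos (by exact_mod_cast (by omega : 1 < a))
    rcases le_or_gt b (a ^ 2) with h | h
    · refine (hshort a b ha h).trans ?_
      apply div_le_div_of_nonneg_right _ hla.le
      linarith
    · have ha2 : a < a ^ 2 := by nlinarith
      have h1 : (Finset.Ioc a b).filter Nat.Prime =
          (Finset.Ioc a (a ^ 2)).filter Nat.Prime ∪ (Finset.Ioc (a ^ 2) b).filter Nat.Prime := by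
        rw [← Finset.filter_union, Finset.Ioc_union_Ioc_eq_Ioc ha2.le h.le]
      have hdisj : Disjoint ((Finset.Ioc a (a ^ 2)).filter Nat.Prime)
          ((Finset.Ioc (a ^ 2) b).filter Nat.Prime) := by
        apply Finset.disjoint_filter_filter
        rw [Finset.disjoint_left]
        intro x hx hx2
        simp only [Finset.mem_Ioc] at hx hx2
        omega
      rw [h1, Finset.sum_union hdisj]
      have h2 := hshort a (a ^ 2) ha le_rfl
      have h3 := ih (b - a ^ 2) (by omega) (a ^ 2) b (by omega) (by nlinarith)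
      have h4 : Real.log ((a ^ 2 : ℕ) : ℝ) = 2 * Real.log a := by
        push_cast; rw [Real.log_pow]; norm_num
      rw [h4] at h3
      have h5 : 2 * K₁ / (2 * Real.log a) = K₁ / Real.log a := by field_simp
      rw [h5] at h3
      calc _ ≤ K₁ / Real.log a + K₁ / Real.log a := add_le_add h2 h3
        _ = _ := by ring

/-- Mertens-type bound for the product over all primes up to `k`. -/
theorem mertens_prod : ∃ K : ℝ, 0 < K ∧ ∀ k : ℕ, 2 ≤ k →
    (∏ p ∈ (Finset.Icc 1 k).filter Nat.Prime, (({x : ZMod p | x ≠ 0}.ncard : ℕ) : ℝ)) /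
      (∏ p ∈ (Finset.Icc 1 k).filter Nat.Prime, (p : ℝ)) ≤ K / Real.log k := by
  obtain ⟨C, hC0, hC⟩ := Pool.Agent.Helper923.HMertens.mertens_ratio
  have hl2 : (0 : ℝ) < Real.log 2 := Real.log_pos (by norm_num)
  refine ⟨Real.exp (C / Real.log 2) * Real.log 2, by positivity, fun k hk => ?_⟩
  have hlk : 0 < Real.log k := Real.log_pos (by exact_mod_cast (by omega : 1 < k))
  refine (prod_le_exp _ (fun p hp => (Finset.mem_filter.mp hp).2)).trans ?_
  have h1 := (abs_le.mp (hC 2 k le_rfl hk)).1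
  have h2 : ∑ p ∈ (Finset.Ioc 2 k).filter Nat.Prime, (1 : ℝ) / p ≤
      ∑ p ∈ (Finset.Icc 1 k).filter Nat.Prime, (1 : ℝ) / p := by
    apply Finset.sum_le_sum_of_subset_of_nonneg
    · intro p hp
      simp only [Finset.mem_filter, Finset.mem_Ioc, Finset.mem_Icc] at hp ⊢
      exact ⟨⟨by omega, hp.1.2⟩, hp.2⟩
    · intro p _ _; positivity
  have h3 : -∑ p ∈ (Finset.Icc 1 k).filter Nat.Prime, (1 : ℝ) / p ≤
      C / Real.log 2 - Real.log (Real.log k / Real.log 2) := by
    push_cast at h1
    linarith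
  calc _ ≤ Real.exp (C / Real.log 2 - Real.log (Real.log k / Real.log 2)) := Real.exp_le_exp.mpr h3
    _ = Real.exp (C / Real.log 2) * Real.log 2 / Real.log k := by
      rw [Real.exp_sub, Real.exp_log (by positivity)]
      field_simp

theorem oneMod_mod {ℓ : ℕ} : ∀ m : ℕ, 0 < m → OneMod ℓ m → (m : ZMod ℓ) = 1 := by
  intro m
  induction m using Nat.recOnMul with
  | zero => intro h; omega
  | one => intro _ _; simp
  | prime p hp =>
    intro _ h
    have h1 := h p hp dvd_rfl
    have h2 : ((p - 1 : ℕ) : ZMod ℓ) = 0 := (ZMod.natCast_eq_zero_iff _ _).mpr h1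
    rw [Nat.cast_sub hp.one_lt.le, sub_eq_zero, Nat.cast_one] at h2
    exact h2
  | mul a b iha ihb =>
    intro h0 h
    have ha : 0 < a := Nat.pos_of_mul_pos_right h0 |> fun _ => by
      rcases Nat.eq_zero_or_pos a with h1 | h1
      · subst h1; simp at h0
      · exact h1
    have hb : 0 < b := by
      rcases Nat.eq_zero_or_pos b with h1 | h1
      · subst h1; simp at h0
      · exact h1
    rw [Nat.cast_mul, iha ha (fun p hp hd => h p hp (hd.mul_right b)),
      ihb hb (fun p hp hd => h p hp (hd.mul_left a)), one_mul]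

/-- Bound for one large prime `ℓ`. -/
theorem large_prime : ∃ K : ℝ, 0 < K ∧ ∀ ℓ N k : ℕ, ℓ.Prime → 0 < N → 2 ≤ k → k < ℓ →
    ((Allowed ℓ ∩ Set.Ioc 0 N).ncard : ℝ) ≤
      K / (ℓ * Real.log k) * N + 8 * (N : ℝ) ^ ((1 : ℝ) / ℓ) * 4 ^ k := by
  obtain ⟨K, hK, hKb⟩ := mertens_prod
  refine ⟨8 * K, by positivity, fun ℓ N k hℓ hN hk hkℓ => ?_⟩
  classical
  set G : Finset ℕ := (Finset.Icc 1 k).filter Nat.Prime with hG
  have hℓG : ℓ ∉ G := by
    intro h
    simp only [hG, Finset.mem_filter, Finset.mem_Icc] at h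
    omega
  set S : ∀ p : ℕ, Set (ZMod p) := fun p => if p = ℓ then {1} else {x | x ≠ 0} with hS
  have hSℓ : S ℓ = {1} := by simp [hS]
  have hSG : ∀ p ∈ G, S p = {x : ZMod p | x ≠ 0} := by
    intro p hp
    have : p ≠ ℓ := fun h => hℓG (h ▸ hp)
    simp [hS, this]
  have h1 := count_allowed hℓ.pos (insert ℓ G) (by
      intro p hp
      rcases Finset.mem_insert.mp hp with h | h
      · exact h ▸ hℓ
      · exact (Finset.mem_filter.mp h).2) S (by
      intro m hm hmo p hp
      rcases Finset.mem_insert.mp hp with h | h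
      · subst h
        rw [hSℓ]
        exact oneMod_mod m hm hmo
      · rw [hSG p h]
        show (m : ZMod p) ≠ 0
        rw [Ne, ZMod.natCast_eq_zero_iff]
        intro hpm
        have hp' := (Finset.mem_filter.mp h)
        have h2 := hmo p hp'.2 hpm
        have h3 := Nat.le_of_dvd (by have := hp'.2.two_le; omega) h2
        have := (Finset.mem_Icc.mp hp'.1).2
        omega) hN
  rw [Finset.prod_insert hℓG, Finset.prod_insert hℓG, hSℓ, Set.ncard_singleton] at h1
  have h2 : ∏ p ∈ G, ((S p).ncard : ℝ) = ∏ p ∈ G, (({x : ZMod p | x ≠ 0}.ncard : ℕ) : ℝ) :=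
    Finset.prod_congr rfl (fun p hp => by rw [hSG p hp])
  rw [h2] at h1
  have h3 := hKb k hk
  rw [← hG] at h3
  set R : ℝ := ∏ p ∈ G, (({x : ZMod p | x ≠ 0}.ncard : ℕ) : ℝ) with hR
  set M : ℝ := ∏ p ∈ G, (p : ℝ) with hM
  have hM0 : 0 < M := Finset.prod_pos (fun p hp => by exact_mod_cast (Finset.mem_filter.mp hp).2.pos)
  have hR0 : 0 ≤ R := Finset.prod_nonneg (fun _ _ => by positivity)
  have hℓ0 : (0 : ℝ) < ℓ := by exact_mod_cast hℓ.pos
  -- `R ≤ 4^k`
  have hR4 : R ≤ 4 ^ k := by
    have e1 : R ≤ M := by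
      apply Finset.prod_le_prod (fun _ _ => by positivity)
      intro p hp
      have hpp := (Finset.mem_filter.mp hp).2
      have : Fact p.Prime := ⟨hpp⟩
      have : {x : ZMod p | x ≠ 0}.ncard ≤ Nat.card (ZMod p) := by
        rw [← Set.ncard_univ]
        exact Set.ncard_le_ncard (Set.subset_univ _) (Set.toFinite _)
      rw [Nat.card_eq_fintype_card, ZMod.card] at this
      exact_mod_cast this
    have e2 : M = (primorial k : ℝ) := by
      rw [hM, primorial]
      push_cast
      apply Finset.prod_congr _ (fun _ _ => rfl)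
      ext p
      simp only [hG, Finset.mem_filter, Finset.mem_Icc, Finset.mem_range]
      constructor
      · rintro ⟨⟨_, h⟩, hp⟩; exact ⟨by omega, hp⟩
      · rintro ⟨h, hp⟩; exact ⟨⟨hp.one_lt.le, by omega⟩, hp⟩
    have e3 : (primorial k : ℝ) ≤ 4 ^ k := by exact_mod_cast primorial_le_four_pow k
    linarith
  have hlk : 0 < Real.log k := Real.log_pos (by exact_mod_cast (by omega : 1 < k))
  calc ((Allowed ℓ ∩ Set.Ioc 0 N).ncard : ℝ)
      ≤ 8 * ((((1 : ℕ) : ℝ) * R) / (ℓ * M)) * N + 8 * (N : ℝ) ^ ((1 : ℝ) / ℓ) * (((1 : ℕ) : ℝ) * R) := h1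
    _ = 8 * ((1 / ℓ) * (R / M)) * N + 8 * (N : ℝ) ^ ((1 : ℝ) / ℓ) * R := by
        push_cast
        field_simp
    _ ≤ 8 * ((1 / ℓ) * (K / Real.log k)) * N + 8 * (N : ℝ) ^ ((1 : ℝ) / ℓ) * 4 ^ k := by
        gcongr
    _ = _ := by
        field_simp

end Pool.Agent.H374R2.Cof
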