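import Mathlib
import Pool.Agent.H374R2.CofD

/-!
Assembly: for almost all `C`, no power of `C` is a sum of two coprime perfect powers whose
exponents have a common factor.
-/

namespace Pool.Agent.H374R2.Cof

open Finset Filter Topology

/-- The refined set of allowed integers. -/
def Allowed' (ℓ : ℕ) : Set ℕ := {C | C ∈ Allowed ℓ ∧ (5 ≤ ℓ → C ≠ 2 → 2 ^ (ℓ - 4) ≤ C ^ 6)}

theorem rpow_pow_le {x : ℝ} {y : ℝ} (hx : 0 ≤ x) (n : ℕ) (hn : n ≠ 0) (h : x ^ n ≤ y) :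
    x ≤ y ^ ((1 : ℝ) / n) := by
  have h1 : (x ^ n) ^ ((n : ℝ)⁻¹) = x := Real.pow_rpow_inv_natCast hx hn
  rw [one_div, ← h1]
  exact Real.rpow_le_rpow (by positivity) h (by positivity)

theorem uniform_large {ε : ℝ} (hε : 0 < ε) : ∃ L : ℕ, 5 ≤ L ∧ ∃ N₀ : ℕ, ∀ N : ℕ, N₀ ≤ N →
    (({C | ∃ ℓ : ℕ, ℓ.Prime ∧ L < ℓ ∧ C ∈ Allowed' ℓ} ∩ Set.Ioc 0 N).ncard : ℝ) ≤ ε * N := by
  classical
  obtain ⟨K₁, hK1, hK1b⟩ := large_prime
  obtain ⟨K₂, hK2, hK2b⟩ := tail_bound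
  -- choice of `L`
  have hloglim : Tendsto (fun n : ℕ => Real.log n) atTop atTop :=
    Real.tendsto_log_atTop.comp tendsto_natCast_atTop_atTop
  obtain ⟨L, hL⟩ := eventually_atTop.mp
    ((hloglim.eventually_ge_atTop ((2 * K₁ * K₂ + 1) / (ε / 4))).and (eventually_ge_atTop 5))
  have hL5 : 5 ≤ L := (hL L le_rfl).2
  have hLlog := (hL L le_rfl).1
  refine ⟨L, hL5, ?_⟩
  have hlogL : 0 < Real.log L := Real.log_pos (by exact_mod_cast (by omega : 1 < L))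
  have hLε : 2 * K₁ * K₂ / Real.log L ≤ ε / 4 := by
    rw [div_le_iff₀ hlogL]
    rw [div_le_iff₀ (by positivity)] at hLlog
    linarith
  -- eventual bounds
  have hPlim : Tendsto (fun N : ℕ => Nat.log 16 N) atTop atTop := by
    apply tendsto_atTop_atTop.mpr
    intro b
    refine ⟨16 ^ b, fun a ha => ?_⟩
    exact Nat.le_log_of_pow_le (by norm_num) ha
  have hev1 : ∀ᶠ N : ℕ in atTop, 52 * K₁ / (ε / 4) ≤ Real.log (Nat.log 16 N : ℕ) :=
    (hloglim.comp hPlim).eventually_ge_atTop _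
  have hev2 : ∀ᶠ N : ℕ in atTop, L + 2 ≤ Nat.log 16 N := hPlim.eventually_ge_atTop _
  have hev3 : ∀ᶠ N : ℕ in atTop, (N : ℝ) ^ (-(1 / 20) : ℝ) * 416 ≤ ε / 4 := by
    have hlim : Tendsto (fun N : ℕ => (N : ℝ) ^ (-(1 / 20) : ℝ)) atTop (𝓝 0) :=
      (tendsto_rpow_neg_atTop (by norm_num : (0 : ℝ) < 1 / 20)).comp tendsto_natCast_atTop_atTop
    have : Tendsto (fun N : ℕ => (N : ℝ) ^ (-(1 / 20) : ℝ) * 416) atTop (𝓝 (0 * 416)) :=
      hlim.mul_const _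
    rw [zero_mul] at this
    exact this.eventually (Iic_mem_nhds (by positivity))
  have hev4 : ∀ᶠ N : ℕ in atTop, 1 / (ε / 4) ≤ (N : ℝ) :=
    tendsto_natCast_atTop_atTop.eventually_ge_atTop _
  obtain ⟨N₀, hN₀⟩ := eventually_atTop.mp
    (hev1.and (hev2.and (hev3.and (hev4.and (eventually_ge_atTop 1)))))
  refine ⟨N₀, fun N hN => ?_⟩
  obtain ⟨e1, e2, e3, e4, e5⟩ := hN₀ N hN
  set P := Nat.log 16 N with hP
  have hNR : (1 : ℝ) ≤ N := by exact_mod_cast e5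
  have hN0 : (0 : ℝ) < N := by linarith
  have h16 : 16 ^ P ≤ N := Nat.pow_log_le_self 16 (by omega)
  have h16' : N < 16 ^ (P + 1) := Nat.lt_pow_succ_log_self (by norm_num) N
  have hP7 : 7 ≤ P := by omega
  have hPR : (7 : ℝ) ≤ P := by exact_mod_cast hP7
  have hlogP : 0 < Real.log P := Real.log_pos (by linarith)
  have hP4 : (P : ℝ) ≤ (N : ℝ) ^ ((1 : ℝ) / 4) := by
    apply rpow_pow_le (by positivity) 4 (by norm_num)
    have h1 : P ^ 4 ≤ N := by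
      calc P ^ 4 ≤ (2 ^ P) ^ 4 := Nat.pow_le_pow_left Nat.lt_two_pow_self.le _
        _ = 16 ^ P := by rw [← pow_mul, mul_comm, pow_mul]; norm_num
        _ ≤ N := h16
    exact_mod_cast h1
  have h4P : (4 : ℝ) ^ P ≤ (N : ℝ) ^ ((1 : ℝ) / 2) := by
    apply rpow_pow_le (by positivity) 2 (by norm_num)
    have h1 : (4 ^ P) ^ 2 ≤ N := by
      calc (4 ^ P) ^ 2 = 16 ^ P := by rw [← pow_mul, mul_comm, pow_mul]; norm_num
        _ ≤ N := h16
    exact_mod_cast h1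
  set J : Finset ℕ := (Finset.Ioc L (52 * P)).filter Nat.Prime with hJ
  -- bound for each prime
  have hone : ∀ ℓ ∈ J, ((Allowed ℓ ∩ Set.Ioc 0 N).ncard : ℝ) ≤
      2 * K₁ * N * (1 / (ℓ * Real.log ℓ)) + (K₁ * N * (1 / (P * Real.log P)) + 8 * (N : ℝ) ^ ((7 : ℝ) / 10)) := by
    intro ℓ hℓ
    simp only [hJ, Finset.mem_filter, Finset.mem_Ioc] at hℓ
    have hℓ5 : 5 < ℓ := by omega
    have hℓR : (5 : ℝ) < ℓ := by exact_mod_cast hℓ5
    have hlogℓ : 0 < Real.log ℓ := Real.log_pos (by linarith)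
    set k := min (ℓ - 1) P with hk
    have hk2 : 2 ≤ k := by omega
    have hkℓ : k < ℓ := by omega
    have h1 := hK1b ℓ N k hℓ.2 (by omega) hk2 hkℓ
    have hlogk : 0 < Real.log k := Real.log_pos (by exact_mod_cast (by omega : 1 < k))
    have h2 : K₁ / (ℓ * Real.log k) * N ≤ 2 * K₁ * N * (1 / (ℓ * Real.log ℓ)) + K₁ * N * (1 / (P * Real.log P)) := by
      rcases le_total (ℓ - 1) P with hle | hle
      · have hk' : k = ℓ - 1 := min_eq_left hle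
        have h3 : Real.log ℓ ≤ 2 * Real.log k := by
          have h4 : (ℓ : ℝ) ≤ (k : ℝ) ^ 2 := by
            have : ℓ ≤ k ^ 2 := by
              rw [hk']
              obtain ⟨j, rfl⟩ : ∃ j, ℓ = j + 2 := ⟨ℓ - 2, by omega⟩
              simp only [Nat.add_sub_cancel, show j + 2 - 1 = j + 1 by omega]
              nlinarith
            exact_mod_cast this
          have h5 := Real.log_le_log (by linarith) h4
          rw [Real.log_pow] at h5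
          exact_mod_cast h5
        have h6 : 1 / (ℓ * Real.log k) ≤ 2 * (1 / (ℓ * Real.log ℓ)) := by
          rw [← one_div_mul_one_div, ← one_div_mul_one_div]
          have h7 : 1 / Real.log k ≤ 2 * (1 / Real.log ℓ) := by
            rw [mul_one_div, div_le_div_iff₀ hlogk hlogℓ]
            linarith
          calc 1 / (ℓ : ℝ) * (1 / Real.log k) ≤ 1 / (ℓ : ℝ) * (2 * (1 / Real.log ℓ)) := by gcongr
            _ = _ := by ring
        calc K₁ / (ℓ * Real.log k) * N = K₁ * N * (1 / (ℓ * Real.log k)) := by ring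
          _ ≤ K₁ * N * (2 * (1 / (ℓ * Real.log ℓ))) := by gcongr
          _ ≤ _ := by
            have : 0 ≤ K₁ * N * (1 / (P * Real.log P)) := by positivity
            linarith
      · have hk' : k = P := min_eq_right hle
        have h6 : 1 / (ℓ * Real.log k) ≤ 1 / (P * Real.log P) := by
          rw [hk']
          apply one_div_le_one_div_of_le (by positivity)
          have : (P : ℝ) ≤ ℓ := by exact_mod_cast (by omega : P ≤ ℓ)
          gcongr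
        calc K₁ / (ℓ * Real.log k) * N = K₁ * N * (1 / (ℓ * Real.log k)) := by ring
          _ ≤ K₁ * N * (1 / (P * Real.log P)) := by gcongr
          _ ≤ _ := by
            have : 0 ≤ 2 * K₁ * N * (1 / (ℓ * Real.log ℓ)) := by positivity
            linarith
    have h3 : 8 * (N : ℝ) ^ ((1 : ℝ) / ℓ) * 4 ^ k ≤ 8 * (N : ℝ) ^ ((7 : ℝ) / 10) := by
      have h4 : (N : ℝ) ^ ((1 : ℝ) / ℓ) ≤ (N : ℝ) ^ ((1 : ℝ) / 5) := by
        apply Real.rpow_le_rpow_of_exponent_le hNR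
        apply one_div_le_one_div_of_le (by norm_num) hℓR.le
      have h5 : (4 : ℝ) ^ k ≤ (N : ℝ) ^ ((1 : ℝ) / 2) :=
        (pow_le_pow_right₀ (by norm_num) (min_le_right _ _)).trans h4P
      calc 8 * (N : ℝ) ^ ((1 : ℝ) / ℓ) * 4 ^ k ≤ 8 * (N : ℝ) ^ ((1 : ℝ) / 5) * (N : ℝ) ^ ((1 : ℝ) / 2) := by
            gcongr
        _ = 8 * (N : ℝ) ^ ((7 : ℝ) / 10) := by
            rw [mul_assoc, ← Real.rpow_add hN0]; norm_num
    linarith
  -- the union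
  have hsub : ({C | ∃ ℓ : ℕ, ℓ.Prime ∧ L < ℓ ∧ C ∈ Allowed' ℓ} ∩ Set.Ioc 0 N) ⊆
      {2} ∪ ⋃ ℓ ∈ J, (Allowed ℓ ∩ Set.Ioc 0 N) := by
    rintro C ⟨⟨ℓ, hℓ, hLℓ, hC⟩, hCN⟩
    by_cases hC2 : C = 2
    · left; exact hC2
    · right
      have h1 := hC.2 (by omega) hC2
      have h2 : 2 ^ (ℓ - 4) < 2 ^ (24 * (P + 1)) := by
        calc 2 ^ (ℓ - 4) ≤ C ^ 6 := h1
          _ ≤ N ^ 6 := Nat.pow_le_pow_left hCN.2 _
          _ < (16 ^ (P + 1)) ^ 6 := Nat.pow_lt_pow_left h16' (by norm_num)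
          _ = 2 ^ (24 * (P + 1)) := by
            rw [show (16 : ℕ) = 2 ^ 4 by norm_num, ← pow_mul, ← pow_mul]
            congr 1; ring
      have h3 : ℓ - 4 < 24 * (P + 1) := (Nat.pow_lt_pow_iff_right (by norm_num)).mp h2
      simp only [Set.mem_iUnion]
      refine ⟨ℓ, ?_, hC.1, hCN⟩
      simp only [hJ, Finset.mem_filter, Finset.mem_Ioc]
      exact ⟨⟨hLℓ, by omega⟩, hℓ⟩
  have hfin : ({2} ∪ ⋃ ℓ ∈ J, (Allowed ℓ ∩ Set.Ioc 0 N)).Finite := by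
    apply (Set.finite_singleton 2).union
    apply Set.Finite.biUnion (Finset.finite_toSet J)
    intro ℓ _
    exact (Set.finite_Ioc _ _).subset Set.inter_subset_right
  have hcount : (({C | ∃ ℓ : ℕ, ℓ.Prime ∧ L < ℓ ∧ C ∈ Allowed' ℓ} ∩ Set.Ioc 0 N).ncard : ℝ) ≤
      1 + ∑ ℓ ∈ J, ((Allowed ℓ ∩ Set.Ioc 0 N).ncard : ℝ) := by
    have h1 : ({C | ∃ ℓ : ℕ, ℓ.Prime ∧ L < ℓ ∧ C ∈ Allowed' ℓ} ∩ Set.Ioc 0 N).ncard ≤
        1 + ∑ ℓ ∈ J, (Allowed ℓ ∩ Set.Ioc 0 N).ncard := by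
      refine (Set.ncard_le_ncard hsub hfin).trans ((Set.ncard_union_le _ _).trans ?_)
      rw [Set.ncard_singleton]
      apply Nat.add_le_add_left
      have : ∀ s : Finset ℕ, (⋃ ℓ ∈ s, (Allowed ℓ ∩ Set.Ioc 0 N)).ncard ≤
          ∑ ℓ ∈ s, (Allowed ℓ ∩ Set.Ioc 0 N).ncard := by
        intro s
        induction s using Finset.induction_on with
        | empty => simp
        | insert i s hi ih =>
          rw [Finset.set_biUnion_insert, Finset.sum_insert hi]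
          exact (Set.ncard_union_le _ _).trans (Nat.add_le_add_left ih _)
      exact this J
    exact_mod_cast h1
  have hsum : ∑ ℓ ∈ J, ((Allowed ℓ ∩ Set.Ioc 0 N).ncard : ℝ) ≤
      2 * K₁ * N * (K₂ / Real.log L) + (52 * P) * (K₁ * N * (1 / (P * Real.log P)) + 8 * (N : ℝ) ^ ((7 : ℝ) / 10)) := by
    calc ∑ ℓ ∈ J, ((Allowed ℓ ∩ Set.Ioc 0 N).ncard : ℝ) ≤
        ∑ ℓ ∈ J, (2 * K₁ * N * (1 / (ℓ * Real.log ℓ)) +
          (K₁ * N * (1 / (P * Real.log P)) + 8 * (N : ℝ) ^ ((7 : ℝ) / 10))) := Finset.sum_le_sum hone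
      _ = 2 * K₁ * N * (∑ ℓ ∈ J, 1 / (ℓ * Real.log ℓ)) +
          J.card * (K₁ * N * (1 / (P * Real.log P)) + 8 * (N : ℝ) ^ ((7 : ℝ) / 10)) := by
          rw [Finset.sum_add_distrib, ← Finset.mul_sum, Finset.sum_const, nsmul_eq_mul]
      _ ≤ _ := by
          have h1 := hK2b (52 * P) L (52 * P) (by omega) (by omega)
          have h2 : (J.card : ℝ) ≤ 52 * P := by
            have : J.card ≤ 52 * P := by
              calc J.card ≤ (Finset.Ioc L (52 * P)).card := Finset.card_filter_le _ _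
                _ = 52 * P - L := Nat.card_Ioc _ _
                _ ≤ _ := Nat.sub_le _ _
            exact_mod_cast this
          gcongr
  have hfinal2 : (52 * P) * (K₁ * N * (1 / (P * Real.log P))) ≤ (ε / 4) * N := by
    have h1 : (52 * P : ℝ) * (K₁ * N * (1 / (P * Real.log P))) = (52 * K₁ / Real.log P) * N := by
      field_simp
    rw [h1]
    apply mul_le_mul_of_nonneg_right _ hN0.le
    rw [div_le_iff₀ hlogP]
    rw [div_le_iff₀ (by positivity)] at e1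
    linarith
  have hfinal3 : (52 * P : ℝ) * (8 * (N : ℝ) ^ ((7 : ℝ) / 10)) ≤ (ε / 4) * N := by
    have h1 : (N : ℝ) ^ ((1 : ℝ) / 4) * (N : ℝ) ^ ((7 : ℝ) / 10) = (N : ℝ) ^ (-(1 / 20) : ℝ) * N := by
      rw [← Real.rpow_add hN0, ← Real.rpow_add_one hN0.ne']
      norm_num
    calc (52 * P : ℝ) * (8 * (N : ℝ) ^ ((7 : ℝ) / 10)) ≤
        (52 * (N : ℝ) ^ ((1 : ℝ) / 4)) * (8 * (N : ℝ) ^ ((7 : ℝ) / 10)) := by gcongr
      _ = 416 * ((N : ℝ) ^ ((1 : ℝ) / 4) * (N : ℝ) ^ ((7 : ℝ) / 10)) := by ring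
      _ = ((N : ℝ) ^ (-(1 / 20) : ℝ) * 416) * N := by rw [h1]; ring
      _ ≤ _ := mul_le_mul_of_nonneg_right e3 hN0.le
  have hfinal1 : 2 * K₁ * N * (K₂ / Real.log L) ≤ (ε / 4) * N := by
    have h1 : 2 * K₁ * N * (K₂ / Real.log L) = (2 * K₁ * K₂ / Real.log L) * N := by ring
    rw [h1]
    exact mul_le_mul_of_nonneg_right hLε hN0.le
  have hfinal4 : (1 : ℝ) ≤ (ε / 4) * N := by
    rw [div_le_iff₀ (by positivity)] at e4
    linarith
  calc _ ≤ 1 + ∑ ℓ ∈ J, ((Allowed ℓ ∩ Set.Ioc 0 N).ncard : ℝ) := hcount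
    _ ≤ 1 + (2 * K₁ * N * (K₂ / Real.log L) + (52 * P) * (K₁ * N * (1 / (P * Real.log P)) + 8 * (N : ℝ) ^ ((7 : ℝ) / 10))) := by
        linarith
    _ ≤ ε * N := by
        rw [mul_add]
        linarith

/-- The exceptional integers: some power of `C` is a sum of two coprime positive perfect powers
whose exponents have a common factor. -/
def Exceptional : Set ℕ :=
  {C | ∃ A B x y z : ℕ, 0 < A ∧ 0 < B ∧ 0 < x ∧ 0 < y ∧ 0 < z ∧ Nat.Coprime A B ∧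
    1 < Nat.gcd x y ∧ A ^ x + B ^ y = C ^ z}

theorem exceptional_subset (L : ℕ) (hL : 5 ≤ L) : Exceptional ⊆
    ({C | ∀ p : ℕ, p.Prime → p ≡ 3 [MOD 4] → ¬ p ∣ C} ∪
      ⋃ ℓ ∈ (Finset.Icc 3 L).filter Nat.Prime, Allowed ℓ) ∪
      {C | ∃ ℓ : ℕ, ℓ.Prime ∧ L < ℓ ∧ C ∈ Allowed' ℓ} := by
  rintro C ⟨A, B, x, y, z, hA, hB, hx, hy, hz, hAB, hgcd, h⟩
  obtain ⟨ℓ, hℓ, hℓd⟩ := Nat.exists_prime_and_dvd (n := Nat.gcd x y) (by omega)
  obtain ⟨x', rfl⟩ := hℓd.trans (Nat.gcd_dvd_left x y)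
  obtain ⟨y', rfl⟩ := hℓd.trans (Nat.gcd_dvd_right _ y)
  set a := A ^ x' with ha
  set b := B ^ y' with hb
  have hapos : 0 < a := by positivity
  have hbpos : 0 < b := by positivity
  have hab : Nat.Coprime a b := Nat.Coprime.pow _ _ hAB
  have h' : a ^ ℓ + b ^ ℓ = C ^ z := by
    rw [ha, hb, ← pow_mul, ← pow_mul, mul_comm x' ℓ, mul_comm y' ℓ]; exact h
  by_cases hℓ2 : ℓ = 2
  · left; left
    intro p hp hp3 hpC
    subst hℓ2
    have : Fact p.Prime := ⟨hp⟩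
    have h1 : p ∣ a ^ 2 + b ^ 2 := h' ▸ hpC.trans (dvd_pow_self C hz.ne')
    have hpb : ¬ p ∣ b := by
      intro h3
      have h4 : p ∣ b ^ 2 := h3.trans (dvd_pow_self b (by norm_num))
      have h5 : p ∣ a ^ 2 := (Nat.dvd_add_left h4).mp h1
      have h6 : p ∣ a := hp.dvd_of_dvd_pow h5
      exact hp.not_dvd_one (hab ▸ Nat.dvd_gcd h6 h3)
    have hb0 : (b : ZMod p) ≠ 0 := by rwa [Ne, ZMod.natCast_eq_zero_iff]
    have h3 : (a : ZMod p) ^ 2 + (b : ZMod p) ^ 2 = 0 := by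
      have := (ZMod.natCast_eq_zero_iff (a ^ 2 + b ^ 2) p).mpr h1
      exact_mod_cast this
    have h4 : IsSquare (-1 : ZMod p) := by
      refine ⟨(a : ZMod p) / b, ?_⟩
      field_simp
      linear_combination -h3
    have h5 := ZMod.exists_sq_eq_neg_one_iff.mp h4
    apply h5
    exact hp3
  · have hst := struct hℓ hℓ2 hapos hbpos hab hz h'
    obtain ⟨D, m, hD, hm, hmo, hC, h1, h2, h3⟩ := hst
    have hal : C ∈ Allowed ℓ := ⟨D, m, hD, hm, hmo, hC, h1, h2⟩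
    have hℓ3 : 3 ≤ ℓ := by have := hℓ.two_le; omega
    rcases le_or_gt ℓ L with hle | hgt
    · left; right
      simp only [Set.mem_iUnion]
      exact ⟨ℓ, Finset.mem_filter.mpr ⟨Finset.mem_Icc.mpr ⟨hℓ3, hle⟩, hℓ⟩, hal⟩
    · right
      exact ⟨ℓ, hℓ, hgt, hal, h3⟩

theorem natNull_exceptional : NatNull Exceptional := by
  intro ε hε
  obtain ⟨L, hL5, N₁, hN₁⟩ := uniform_large (ε := ε / 2) (by positivity)
  have h1 : NatNull ({C | ∀ p : ℕ, p.Prime → p ≡ 3 [MOD 4] → ¬ p ∣ C} ∪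
      ⋃ ℓ ∈ (Finset.Icc 3 L).filter Nat.Prime, Allowed ℓ) := by
    apply NatNull.union (natNull_avoid 4 (by norm_num) 3 (by norm_num))
    apply natNull_biUnion
    intro ℓ hℓ
    simp only [Finset.mem_filter, Finset.mem_Icc] at hℓ
    exact natNull_allowed hℓ.2 (by omega)
  obtain ⟨N₂, hN₂⟩ := h1 (ε / 2) (by positivity)
  refine ⟨max N₁ N₂, fun N hN => ?_⟩
  have e1 := hN₁ N ((le_max_left _ _).trans hN)
  have e2 := hN₂ N ((le_max_right _ _).trans hN)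
  have e3 : Exceptional ∩ Set.Ioc 0 N ⊆
      (({C | ∀ p : ℕ, p.Prime → p ≡ 3 [MOD 4] → ¬ p ∣ C} ∪
      ⋃ ℓ ∈ (Finset.Icc 3 L).filter Nat.Prime, Allowed ℓ) ∩ Set.Ioc 0 N) ∪
      ({C | ∃ ℓ : ℕ, ℓ.Prime ∧ L < ℓ ∧ C ∈ Allowed' ℓ} ∩ Set.Ioc 0 N) := by
    rw [← Set.union_inter_distrib_right]
    exact Set.inter_subset_inter_left _ (exceptional_subset L hL5)
  have hfin : ((({C | ∀ p : ℕ, p.Prime → p ≡ 3 [MOD 4] → ¬ p ∣ C} ∪
      ⋃ ℓ ∈ (Finset.Icc 3 L).filter Nat.Prime, Allowed ℓ) ∩ Set.Ioc 0 N) ∪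
      ({C | ∃ ℓ : ℕ, ℓ.Prime ∧ L < ℓ ∧ C ∈ Allowed' ℓ} ∩ Set.Ioc 0 N)).Finite :=
    ((Set.finite_Ioc _ _).subset Set.inter_subset_right).union
      ((Set.finite_Ioc _ _).subset Set.inter_subset_right)
  have e4 : ((Exceptional ∩ Set.Ioc 0 N).ncard : ℝ) ≤
      (((({C | ∀ p : ℕ, p.Prime → p ≡ 3 [MOD 4] → ¬ p ∣ C} ∪
      ⋃ ℓ ∈ (Finset.Icc 3 L).filter Nat.Prime, Allowed ℓ) ∩ Set.Ioc 0 N).ncard : ℕ) : ℝ) +
      ((({C | ∃ ℓ : ℕ, ℓ.Prime ∧ L < ℓ ∧ C ∈ Allowed' ℓ} ∩ Set.Ioc 0 N).ncard : ℕ) : ℝ) := by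
    exact_mod_cast (Set.ncard_le_ncard e3 hfin).trans (Set.ncard_union_le _ _)
  linarith

end Pool.Agent.H374R2.Cof
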