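import Mathlib

/-!
Counting, for given exponents, base `A` and divisor `d`, the multiples `B` of `d` for which
`B^y ± A^x` is a perfect `q`-th power.
-/

namespace Pool.Agent.H374R2.Fc

open Finset

/-- Two residues modulo `d ^ y` with the same `q`-th power which agree modulo all prime factors of
`d` are equal. -/
theorem eq_of_modEq {q d y C₁ C₂ : ℕ}
    (hq : ∀ p : ℕ, p.Prime → p ∣ d → ¬ p ∣ q)
    (hC : ∀ p : ℕ, p.Prime → p ∣ d → ¬ p ∣ C₁)
    (h1 : C₁ < d ^ y) (h2 : C₂ < d ^ y)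
    (hmod : ∀ p : ℕ, p.Prime → p ∣ d → (C₁ : ZMod p) = C₂)
    (hpow : ((d ^ y : ℕ) : ℤ) ∣ (C₁ : ℤ) ^ q - (C₂ : ℤ) ^ q) : C₁ = C₂ := by
  set G : ℤ := ∑ i ∈ range q, (C₁ : ℤ) ^ i * (C₂ : ℤ) ^ (q - 1 - i) with hG
  have hfac : G * ((C₁ : ℤ) - C₂) = (C₁ : ℤ) ^ q - (C₂ : ℤ) ^ q :=
    (Commute.all (C₁ : ℤ) (C₂ : ℤ)).geom_sum₂_mul q
  have hcop : Nat.Coprime d G.natAbs := by
    apply Nat.coprime_of_dvd
    intro p hp hpd hpG
    have : Fact p.Prime := ⟨hp⟩
    have e1 : (p : ℤ) ∣ G := Int.natCast_dvd.mpr hpG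
    have e2 : (G : ZMod p) = 0 := (ZMod.intCast_zmod_eq_zero_iff_dvd _ _).mpr e1
    have e3 : (G : ZMod p) = (q : ZMod p) * (C₁ : ZMod p) ^ (q - 1) := by
      rw [hG]
      push_cast
      rw [← hmod p hp hpd]
      have : ∀ i ∈ range q, (C₁ : ZMod p) ^ i * (C₁ : ZMod p) ^ (q - 1 - i) =
          (C₁ : ZMod p) ^ (q - 1) := by
        intro i hi
        rw [Finset.mem_range] at hi
        rw [← pow_add]
        congr 1
        omega
      rw [Finset.sum_congr rfl this, Finset.sum_const, Finset.card_range, nsmul_eq_mul]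
    rw [e3] at e2
    rcases mul_eq_zero.mp e2 with e4 | e4
    · exact hq p hp hpd ((ZMod.natCast_eq_zero_iff _ _).mp e4)
    · exact hC p hp hpd ((ZMod.natCast_eq_zero_iff _ _).mp (by_contra fun h => pow_ne_zero _ h e4))
  have hcop2 : IsCoprime ((d ^ y : ℕ) : ℤ) G := by
    rw [Int.isCoprime_iff_gcd_eq_one]
    have := Nat.Coprime.pow_left y hcop
    simpa [Int.gcd] using this
  rw [← hfac] at hpow
  have h3 : ((d ^ y : ℕ) : ℤ) ∣ (C₁ : ℤ) - C₂ := hcop2.dvd_of_dvd_mul_left hpow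
  have h4 : (C₁ : ℤ) - C₂ = 0 := by
    apply Int.eq_zero_of_abs_lt_dvd h3
    rw [abs_lt]
    constructor
    · have : (C₂ : ℤ) < ((d ^ y : ℕ) : ℤ) := by exact_mod_cast h2
      have h0 : (0 : ℤ) ≤ C₁ := by positivity
      linarith
    · have : (C₁ : ℤ) < ((d ^ y : ℕ) : ℤ) := by exact_mod_cast h1
      have h0 : (0 : ℤ) ≤ C₂ := by positivity
      linarith
  have : (C₁ : ℤ) = C₂ := by linarith
  exact_mod_cast this

/-- The multiples `B ≤ N` of `d` such that `B ^ y + s A ^ x` is a `q`-th power, where `s = ±1` and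
`A ^ x ≤ B ^ y`. -/
def Sols (N q d x y A : ℕ) (s : ℤ) : Set ℕ :=
  {B | 0 < B ∧ B ≤ N ∧ d ∣ B ∧ A ^ x ≤ B ^ y ∧
    ∃ C : ℕ, (C : ℤ) ^ q = (B : ℤ) ^ y + s * (A : ℤ) ^ x}

theorem sols_finite (N q d x y A : ℕ) (s : ℤ) : (Sols N q d x y A s).Finite :=
  (Set.finite_Icc 0 N).subset (fun _ hB => ⟨Nat.zero_le _, hB.2.1⟩)

theorem card_sols {N q d x y A : ℕ} {s : ℤ} (hs : s = 1 ∨ s = -1) (hd : 0 < d) (hy : 0 < y)
    (hq0 : 0 < q) (hqd : ∀ p : ℕ, p.Prime → p ∣ d → ¬ p ∣ q) (hAd : Nat.Coprime A d)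
    (hbig : 2 * N < d ^ q) (r : ℕ)
    (hr : ∀ p : ℕ, p.Prime → p ∣ d → ∀ a : ZMod p, a ≠ 0 → {u : ZMod p | u ^ q = a}.ncard ≤ r) :
    (Sols N q d x y A s).ncard ≤ r ^ d.primeFactors.card := by
  classical
  have hpr : ∀ i : d.primeFactors, ((i : ℕ)).Prime := fun i => Nat.prime_of_mem_primeFactors i.2
  have hdv : ∀ i : d.primeFactors, (i : ℕ) ∣ d := fun i => Nat.dvd_of_mem_primeFactors i.2
  have : ∀ i : d.primeFactors, NeZero (i : ℕ) := fun i => ⟨(hpr i).ne_zero⟩
  have hAp : ∀ p : ℕ, p.Prime → p ∣ d → ¬ p ∣ A := by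
    intro p hp hpd hpA
    exact hp.not_dvd_one (hAd ▸ Nat.dvd_gcd hpA hpd)
  -- the target
  let T : Finset (∀ i : d.primeFactors, ZMod (i : ℕ)) :=
    Fintype.piFinset (fun i => univ.filter (fun u : ZMod (i : ℕ) => u ^ q = ((s * (A : ℤ) ^ x : ℤ) : ZMod (i : ℕ))))
  have hT : T.card ≤ r ^ d.primeFactors.card := by
    rw [Fintype.card_piFinset]
    calc ∏ i : d.primeFactors, (univ.filter (fun u : ZMod (i : ℕ) => u ^ q = ((s * (A : ℤ) ^ x : ℤ) : ZMod (i : ℕ)))).card
        ≤ ∏ _i : d.primeFactors, r := by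
          apply Finset.prod_le_prod' 
          intro i _
          have : Fact ((i : ℕ)).Prime := ⟨hpr i⟩
          have h1 := hr i (hpr i) (hdv i) ((s * (A : ℤ) ^ x : ℤ) : ZMod (i : ℕ)) (by
            push_cast
            apply mul_ne_zero
            · rcases hs with rfl | rfl
              · simp
              · simp
            · apply pow_ne_zero
              rw [Ne, ZMod.natCast_eq_zero_iff]
              exact hAp i (hpr i) (hdv i))
          rw [← Set.ncard_coe_finset]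
          refine le_trans (le_of_eq ?_) h1
          congr 1
          ext u
          simp
      _ = r ^ d.primeFactors.card := by
          rw [Finset.prod_const]
          congr 1
          simp
  refine le_trans ?_ hT
  -- the choice of C
  have hch : ∀ B : ℕ, ∃ C : ℕ, B ∈ Sols N q d x y A s → (C : ℤ) ^ q = (B : ℤ) ^ y + s * (A : ℤ) ^ x := by
    intro B
    by_cases h : B ∈ Sols N q d x y A s
    · obtain ⟨C, hC⟩ := h.2.2.2.2
      exact ⟨C, fun _ => hC⟩
    · exact ⟨0, fun h' => absurd h' h⟩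
  choose c hc using hch
  have hclt : ∀ B ∈ Sols N q d x y A s, c B < d ^ y := by
    intro B hB
    have h1 := hc B hB
    obtain ⟨hB0, hBN, hdB, hAB, -⟩ := hB
    have h2 : ((c B : ℤ)) ^ q ≤ 2 * (B : ℤ) ^ y := by
      rw [h1]
      have h3 : (A : ℤ) ^ x ≤ (B : ℤ) ^ y := by exact_mod_cast hAB
      have h4 : (0 : ℤ) ≤ (A : ℤ) ^ x := by positivity
      rcases hs with rfl | rfl <;> linarith
    have h5 : (c B) ^ q ≤ 2 * B ^ y := by exact_mod_cast h2
    have h6 : 2 * B ^ y ≤ (2 * N) ^ y := by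
      calc 2 * B ^ y ≤ 2 ^ y * N ^ y := by
            apply Nat.mul_le_mul
            · calc 2 = 2 ^ 1 := by norm_num
                _ ≤ 2 ^ y := Nat.pow_le_pow_right (by norm_num) hy
            · exact Nat.pow_le_pow_left hBN y
        _ = (2 * N) ^ y := by rw [mul_pow]
    have h7 : (2 * N) ^ y < (d ^ q) ^ y := Nat.pow_lt_pow_left hbig hy.ne'
    have h8 : (c B) ^ q < (d ^ y) ^ q := by
      calc (c B) ^ q ≤ (2 * N) ^ y := h5.trans h6
        _ < (d ^ q) ^ y := h7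
        _ = (d ^ y) ^ q := by rw [← pow_mul, ← pow_mul, mul_comm]
    exact lt_of_pow_lt_pow_left₀ q (Nat.zero_le _) h8
  have hcmod : ∀ B ∈ Sols N q d x y A s, ∀ p : ℕ, p.Prime → p ∣ d →
      ((c B : ZMod p)) ^ q = ((s * (A : ℤ) ^ x : ℤ) : ZMod p) := by
    intro B hB p hp hpd
    have h1 := hc B hB
    have h2 : (((c B : ℤ) ^ q : ℤ) : ZMod p) = (((B : ℤ) ^ y + s * (A : ℤ) ^ x : ℤ) : ZMod p) := by rw [h1]
    have h3 : (B : ZMod p) = 0 := (ZMod.natCast_eq_zero_iff _ _).mpr (hpd.trans hB.2.2.1)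
    push_cast at h2 ⊢
    rw [h2, h3, zero_pow hy.ne', zero_add]
  have hcp : ∀ B ∈ Sols N q d x y A s, ∀ p : ℕ, p.Prime → p ∣ d → ¬ p ∣ c B := by
    intro B hB p hp hpd hpc
    have : Fact p.Prime := ⟨hp⟩
    have h1 := hcmod B hB p hp hpd
    have h2 : (c B : ZMod p) = 0 := (ZMod.natCast_eq_zero_iff _ _).mpr hpc
    rw [h2, zero_pow hq0.ne'] at h1
    push_cast at h1
    rcases mul_eq_zero.mp h1.symm with h3 | h3
    · rcases hs with rfl | rfl
      · simp at h3
      · simp at h3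
    · have h4 : p ∣ A := (ZMod.natCast_eq_zero_iff _ _).mp (by_contra fun h => pow_ne_zero _ h h3)
      exact hAp p hp hpd h4
  have key : (Sols N q d x y A s).ncard ≤ (T : Set (∀ i : d.primeFactors, ZMod (i : ℕ))).ncard := by
    apply Set.ncard_le_ncard_of_injOn (fun B => fun i : d.primeFactors => (c B : ZMod (i : ℕ)))
    · intro B hB
      rw [Finset.mem_coe, Fintype.mem_piFinset]
      intro i
      rw [Finset.mem_filter]
      exact ⟨Finset.mem_univ _, hcmod B hB i (hpr i) (hdv i)⟩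
    · intro B hB B' hB' hBB
      have h1 : c B = c B' := by
        apply eq_of_modEq hqd (hcp B hB) (hclt B hB) (hclt B' hB')
        · intro p hp hpd
          exact congrFun hBB ⟨p, Nat.mem_primeFactors.mpr ⟨hp, hpd, hd.ne'⟩⟩
        · rw [hc B hB, hc B' hB']
          have e1 : ((d ^ y : ℕ) : ℤ) ∣ (B : ℤ) ^ y := by
            exact_mod_cast pow_dvd_pow_of_dvd hB.2.2.1 y
          have e2 : ((d ^ y : ℕ) : ℤ) ∣ (B' : ℤ) ^ y := by
            exact_mod_cast pow_dvd_pow_of_dvd hB'.2.2.1 y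
          have h7 := dvd_sub e1 e2
          have h8 : (B : ℤ) ^ y + s * (A : ℤ) ^ x - ((B' : ℤ) ^ y + s * (A : ℤ) ^ x) =
              (B : ℤ) ^ y - (B' : ℤ) ^ y := by ring
          rw [h8]
          exact h7
      have h2 := hc B hB
      have h3 := hc B' hB'
      rw [h1, h3] at h2
      have h4 : (B : ℤ) ^ y = (B' : ℤ) ^ y := by linarith
      have h5 : B ^ y = B' ^ y := by exact_mod_cast h4
      exact Nat.pow_left_injective hy.ne' h5
  rwa [Set.ncard_coe_finset] at key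

/-- A polynomial bound for the number of roots. -/
theorem roots_le {p q : ℕ} (hp : p.Prime) (hq : 0 < q) (a : ZMod p) :
    {u : ZMod p | u ^ q = a}.ncard ≤ q := by
  classical
  have : Fact p.Prime := ⟨hp⟩
  have h1 : {u : ZMod p | u ^ q = a} ⊆ ((Polynomial.nthRoots q a).toFinset : Set (ZMod p)) := by
    intro u hu
    rw [Finset.mem_coe, Multiset.mem_toFinset, Polynomial.mem_nthRoots hq]
    exact hu
  calc _ ≤ ((Polynomial.nthRoots q a).toFinset : Set (ZMod p)).ncard :=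
        Set.ncard_le_ncard h1 (Finset.finite_toSet _)
    _ = (Polynomial.nthRoots q a).toFinset.card := Set.ncard_coe_finset _
    _ ≤ (Polynomial.nthRoots q a).card := Multiset.toFinset_card_le _
    _ ≤ q := Polynomial.card_nthRoots q a

/-- If `q` is prime and larger than `p` there is at most one root. -/
theorem roots_le_one {p q : ℕ} (hp : p.Prime) (hq : q.Prime) (hpq : p < q) (a : ZMod p)
    (ha : a ≠ 0) : {u : ZMod p | u ^ q = a}.ncard ≤ 1 := by
  classical
  have : Fact p.Prime := ⟨hp⟩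
  rw [Set.ncard_le_one (Set.toFinite _)]
  intro u hu v hv
  simp only [Set.mem_ofPred_eq] at hu hv
  have hu0 : u ≠ 0 := by
    rintro rfl
    rw [zero_pow hq.ne_zero] at hu
    exact ha hu.symm
  have hv0 : v ≠ 0 := by
    rintro rfl
    rw [zero_pow hq.ne_zero] at hv
    exact ha hv.symm
  have h1 : (u / v) ^ q = 1 := by
    rw [div_pow, hu, hv, div_self ha]
  have h2 : (u / v) ^ (p - 1) = 1 := ZMod.pow_card_sub_one_eq_one (div_ne_zero hu0 hv0)
  have h3 : Nat.Coprime q (p - 1) := by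
    apply (Nat.Prime.coprime_iff_not_dvd hq).mpr
    intro h
    have := Nat.le_of_dvd (by have := hp.two_le; omega) h
    omega
  have h4 : orderOf (u / v) ∣ 1 := by
    rw [← h3]
    exact Nat.dvd_gcd (orderOf_dvd_of_pow_eq_one h1) (orderOf_dvd_of_pow_eq_one h2)
  have h5 : u / v = 1 := by
    rw [← orderOf_eq_one_iff]
    exact Nat.dvd_one.mp h4
  rwa [div_eq_one_iff_eq hv0] at h5

end Pool.Agent.H374R2.Fc
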