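import Mathlib
import Pool.Agent.H374R2.CofD

/-!
Typical integers: almost all `B ≤ N` have a divisor `d` between `√(2N)` and `N^(1-η)` all of whose
prime factors exceed `N^η`.
-/

namespace Pool.Agent.H374R2.Fc

open Finset Filter Topology Pool.Agent.Helper923.HMertens

/-- Logarithm of the `y`-smooth part of `B`. -/
noncomputable def smoothLog (y B : ℕ) : ℝ :=
  ∑ p ∈ PP y, (B.factorization p : ℝ) * Real.log p

theorem sum_factorization (p N : ℕ) :
    ∑ B ∈ Finset.Icc 1 N, B.factorization p = (N.factorial).factorization p := by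
  induction N with
  | zero => simp
  | succ n ih =>
    rw [Finset.sum_Icc_succ_top (by omega), ih, Nat.factorial_succ,
      Nat.factorization_mul (by omega) (Nat.factorial_ne_zero n)]
    simp [add_comm]

theorem factorization_factorial_le {p : ℕ} (hp : p.Prime) (N : ℕ) :
    ((N.factorial).factorization p : ℝ) ≤ N / (p - 1) := by
  have : Fact p.Prime := ⟨hp⟩
  have h1 := sub_one_mul_padicValNat_factorial (p := p) N
  rw [← Nat.factorization_def _ hp] at h1
  have h2 : (p - 1) * (N.factorial).factorization p ≤ N := by rw [h1]; omega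
  have h3 : (1 : ℝ) < p := by exact_mod_cast hp.one_lt
  rw [le_div_iff₀ (by linarith), mul_comm]
  have h4 : ((p - 1 : ℕ) : ℝ) = (p : ℝ) - 1 := by
    rw [Nat.cast_sub hp.one_lt.le]; norm_num
  rw [← h4]
  exact_mod_cast h2

theorem smooth_sum : ∃ C : ℝ, 0 ≤ C ∧ ∀ N y : ℕ, 1 ≤ y →
    ∑ B ∈ Finset.Icc 1 N, smoothLog y B ≤ N * (Real.log y + C) := by
  obtain ⟨C₁, hC₁, h1⟩ := sum_small_bound
  obtain ⟨C₂, h2⟩ := mertens_log
  refine ⟨C₁ + |C₂|, by positivity, fun N y hy => ?_⟩
  have e1 : ∑ B ∈ Finset.Icc 1 N, smoothLog y B =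
      ∑ p ∈ PP y, ((N.factorial).factorization p : ℝ) * Real.log p := by
    unfold smoothLog
    rw [Finset.sum_comm]
    apply Finset.sum_congr rfl
    intro p _
    rw [← Finset.sum_mul, ← sum_factorization]
    push_cast
    rfl
  rw [e1]
  calc ∑ p ∈ PP y, ((N.factorial).factorization p : ℝ) * Real.log p
      ≤ ∑ p ∈ PP y, N * (Real.log p / p + Real.log p / (p * (p - 1))) := by
        apply Finset.sum_le_sum
        intro p hp
        have hpp := (Finset.mem_filter.mp hp).2
        have hp1 : (1 : ℝ) < p := by exact_mod_cast hpp.one_lt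
        have hlog : 0 ≤ Real.log p := Real.log_nonneg hp1.le
        calc ((N.factorial).factorization p : ℝ) * Real.log p ≤ (N / (p - 1)) * Real.log p :=
              mul_le_mul_of_nonneg_right (factorization_factorial_le hpp N) hlog
          _ = _ := by
              have : (p : ℝ) - 1 ≠ 0 := by linarith
              have : (p : ℝ) ≠ 0 := by linarith
              field_simp
              ring
    _ = N * (∑ p ∈ PP y, Real.log p / p + ∑ p ∈ PP y, Real.log p / (p * (p - 1))) := by
        rw [← Finset.mul_sum, Finset.sum_add_distrib]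
    _ ≤ N * (Real.log y + (C₁ + |C₂|)) := by
        apply mul_le_mul_of_nonneg_left _ (by positivity)
        have e2 := (abs_le.mp (h2 y hy)).2
        have e3 := h1 y
        have e4 := le_abs_self C₂
        linarith

/-- The `y`-rough part of `B`. -/
def rough (y B : ℕ) : ℕ := ∏ p ∈ B.primeFactors.filter (fun p => y < p), p ^ B.factorization p

theorem eq_prod {B : ℕ} (hB : B ≠ 0) : B = ∏ p ∈ B.primeFactors, p ^ B.factorization p := by
  conv_lhs => rw [← Nat.prod_factorization_pow_eq_self hB]
  rfl

theorem rough_dvd {y B : ℕ} (hB : B ≠ 0) : rough y B ∣ B := by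
  conv_rhs => rw [eq_prod hB]
  exact Finset.prod_dvd_prod_of_subset _ _ _ (Finset.filter_subset _ _)

theorem log_rough {y B : ℕ} (_hB : B ≠ 0) :
    Real.log (rough y B) = Real.log B - smoothLog y B := by
  have e1 : Real.log B = ∑ p ∈ B.primeFactors, (B.factorization p : ℝ) * Real.log p := by
    rw [Real.log_nat_eq_sum_factorization]
    rfl
  have e2 : Real.log (rough y B) =
      ∑ p ∈ B.primeFactors.filter (fun p => y < p), (B.factorization p : ℝ) * Real.log p := by
    unfold rough
    push_cast
    rw [Real.log_prod]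
    · apply Finset.sum_congr rfl
      intro p _
      rw [Real.log_pow]
    · intro p hp
      have := (Nat.prime_of_mem_primeFactors (Finset.mem_filter.mp hp).1).pos
      positivity
  have e3 : smoothLog y B =
      ∑ p ∈ B.primeFactors.filter (fun p => ¬ y < p), (B.factorization p : ℝ) * Real.log p := by
    unfold smoothLog
    symm
    apply Finset.sum_subset
    · intro p hp
      rw [Finset.mem_filter] at hp
      have hpp := Nat.prime_of_mem_primeFactors hp.1
      rw [Finset.mem_filter, Finset.mem_Icc]
      exact ⟨⟨hpp.one_lt.le, by omega⟩, hpp⟩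
    · intro p hp hp2
      rw [Finset.mem_filter, Finset.mem_Icc] at hp
      have : p ∉ B.primeFactors := by
        intro h
        apply hp2
        rw [Finset.mem_filter]
        exact ⟨h, by omega⟩
      have h0 : B.factorization p = 0 := by
        rw [← Finsupp.notMem_support_iff, Nat.support_factorization]
        exact this
      rw [h0]; simp
  rw [e1, e2, e3, ← Finset.sum_filter_add_sum_filter_not B.primeFactors (fun p => y < p)]
  ring

theorem prime_dvd_rough {y B p : ℕ} (hp : p.Prime) (h : p ∣ rough y B) : y < p := by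
  unfold rough at h
  obtain ⟨r, hr, hpr⟩ := (hp.prime.dvd_finsetProd_iff _).mp h
  rw [Finset.mem_filter] at hr
  have h1 := hp.dvd_of_dvd_pow hpr
  have h2 := (Nat.prime_dvd_prime_iff_eq hp (Nat.prime_of_mem_primeFactors hr.1)).mp h1
  omega

theorem rough_pos {y B : ℕ} (hB : B ≠ 0) : 0 < rough y B :=
  Nat.pos_of_dvd_of_pos (rough_dvd hB) (Nat.pos_of_ne_zero hB)

/-- The divisor `d` of a typical `B`. -/
theorem exists_div {N y B k : ℕ} {L : ℝ} (hL : L = Real.log N) (hk : 10 ≤ k)
    (hLk : Real.log 2 < L / k) (hL15 : 15 * Real.log 2 < L) (hB : 0 < B) (hBN : B ≤ N)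
    (h1 : smoothLog y B ≤ L / k) (h2 : L - L / k ≤ Real.log B)
    (h3 : ∀ p : ℕ, p.Prime → p ∣ B → Real.log p < L - 2 * (L / k))
    (h4 : ∀ p : ℕ, p.Prime → p ∣ B → ¬ (L / 2 - L / k ≤ Real.log p ∧ Real.log p ≤ L / 2 + L / k)) :
    ∃ d, 0 < d ∧ d ∣ B ∧ (∀ p : ℕ, p.Prime → p ∣ d → y < p) ∧ 2 * N < d ^ 2 ∧ d * (y + 1) ≤ N := by
  have hl2 : 0 < Real.log 2 := Real.log_pos (by norm_num)
  have hk' : (10 : ℝ) ≤ k := by exact_mod_cast hk
  have hLpos : 0 < L := by linarith
  set t : ℝ := L / k with ht
  have ht10 : 10 * t ≤ L := by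
    rw [ht, mul_div_assoc', div_le_iff₀ (by linarith)]
    nlinarith
  have htpos : 0 < t := by positivity
  set R := rough y B with hR
  have hRpos : 0 < R := rough_pos hB.ne'
  have hRB : R ∣ B := rough_dvd hB.ne'
  have hlogR : L - 2 * t ≤ Real.log R := by
    rw [hR, log_rough hB.ne']
    linarith
  have hR1 : R ≠ 1 := by
    intro h
    rw [h] at hlogR
    simp at hlogR
    linarith
  set p := R.minFac with hp
  have hpp : p.Prime := Nat.minFac_prime hR1
  obtain ⟨d, hd⟩ : p ∣ R := Nat.minFac_dvd R
  have hdpos : 0 < d := by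
    rcases Nat.eq_zero_or_pos d with h | h
    · rw [h] at hd; omega
    · exact h
  have hdR : d ∣ R := ⟨p, by rw [hd, mul_comm]⟩
  have hlog : Real.log R = Real.log p + Real.log d := by
    rw [hd]; push_cast
    rw [Real.log_mul (by exact_mod_cast hpp.ne_zero) (by exact_mod_cast hdpos.ne')]
  refine ⟨d, hdpos, hdR.trans hRB, fun r hr hrd => prime_dvd_rough hr (hrd.trans hdR), ?_, ?_⟩
  · -- size of d
    have key : L + Real.log 2 < 2 * Real.log d := by
      rcases Nat.lt_or_ge d 2 with hd2 | hd2
      · have hd1 : d = 1 := by omega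
        rw [hd1] at hlog
        simp at hlog
        have := h3 p hpp ((Nat.minFac_dvd R).trans hRB)
        linarith
      · set p' := d.minFac with hp'
        have hp'p : p'.Prime := Nat.minFac_prime (by omega)
        have hp'd : p' ∣ d := Nat.minFac_dvd d
        have hpp' : p ≤ p' := Nat.minFac_le_of_dvd hp'p.two_le (hp'd.trans hdR)
        have hlogpp' : Real.log p ≤ Real.log p' :=
          Real.log_le_log (by exact_mod_cast hpp.pos) (by exact_mod_cast hpp')
        obtain ⟨e, he⟩ := hp'd
        rcases Nat.lt_or_ge e 2 with he2 | he2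
        · have he1 : e = 1 := by
            rcases Nat.eq_zero_or_pos e with h | h
            · rw [h] at he; omega
            · omega
          rw [he1, mul_one] at he
          have h5 := h4 p' hp'p ((Nat.minFac_dvd d).trans (hdR.trans hRB))
          rw [← he] at h5 hlogpp'
          have h6 : L / 2 - t ≤ Real.log d := by linarith
          have h7 : L / 2 + t < Real.log d := by
            by_contra hcon
            exact h5 ⟨h6, not_lt.mp hcon⟩
          linarith
        · have hep : p' ≤ e := by
            have h8 : p' ≤ e.minFac :=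
              Nat.minFac_le_of_dvd (Nat.minFac_prime (by omega)).two_le
                ((Nat.minFac_dvd e).trans ⟨p', by rw [he, mul_comm]⟩)
            exact h8.trans (Nat.minFac_le (by omega))
          have hlogd : Real.log d = Real.log p' + Real.log e := by
            rw [he]; push_cast
            rw [Real.log_mul (by exact_mod_cast hp'p.ne_zero) (by positivity)]
          have hloge : Real.log p' ≤ Real.log e :=
            Real.log_le_log (by exact_mod_cast hp'p.pos) (by exact_mod_cast hep)
          linarith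
    have h9 : Real.log ((2 * N : ℕ) : ℝ) < Real.log ((d ^ 2 : ℕ) : ℝ) := by
      have hN0 : (N : ℝ) ≠ 0 := by
        have : 0 < N := by omega
        positivity
      push_cast
      rw [Real.log_mul (by norm_num) hN0, Real.log_pow, ← hL]
      push_cast
      linarith
    have h10 : ((2 * N : ℕ) : ℝ) < ((d ^ 2 : ℕ) : ℝ) := by
      have h11 : (0 : ℝ) < ((d ^ 2 : ℕ) : ℝ) := by positivity
      have h12 : (0 : ℝ) < ((2 * N : ℕ) : ℝ) := by
        have : 0 < N := by omega
        positivity
      exact (Real.log_lt_log_iff h12 h11).mp h9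
    exact_mod_cast h10
  · have hyp : y + 1 ≤ p := prime_dvd_rough hpp (Nat.minFac_dvd R)
    calc d * (y + 1) ≤ d * p := Nat.mul_le_mul_left _ hyp
      _ = R := by rw [hd, mul_comm]
      _ ≤ B := Nat.le_of_dvd hB hRB
      _ ≤ N := hBN

end Pool.Agent.H374R2.Fc
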