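import Mathlib
import Pool.Agent.H374R2.FcB

/-!
Almost all integers are nice.
-/

namespace Pool.Agent.H374R2.Fc

open Finset Filter Topology Pool.Agent.Helper923.HMertens

/-- Few integers have a prime factor `p` with `α log N ≤ log p ≤ β log N` when `β / α` is close
to one. -/
theorem interval_primes {α β : ℝ} (hα : 0 < α) (hαβ : α < β) {ε : ℝ} (hε : 0 < ε) :
    ∃ N₀ : ℕ, ∀ N : ℕ, N₀ ≤ N →
      (({B : ℕ | 0 < B ∧ B ≤ N ∧ ∃ p : ℕ, p.Prime ∧ p ∣ B ∧ α * Real.log N ≤ Real.log p ∧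
        Real.log p ≤ β * Real.log N}.ncard : ℕ) : ℝ) ≤ (Real.log (β / α) + ε) * N := by
  obtain ⟨C, hC0, hC⟩ := mertens_ratio
  have hβ : 0 < β := hα.trans hαβ
  -- the limit
  have hlim : Tendsto (fun L : ℝ => Real.log (β / (α - 1 / L)) + C / (α * L - 1)) atTop
      (𝓝 (Real.log (β / (α - 0)) + 0)) := by
    apply Tendsto.add
    · apply Tendsto.log
      · apply Tendsto.div tendsto_const_nhds
        · apply Tendsto.sub tendsto_const_nhds
          have h0 : Tendsto (fun L : ℝ => L⁻¹) atTop (𝓝 0) := tendsto_inv_atTop_zero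
          exact h0.congr (fun L => (one_div L).symm)
        · rw [sub_zero]; exact hα.ne'
      · rw [sub_zero]; positivity
    · apply Tendsto.div_atTop tendsto_const_nhds
      apply tendsto_atTop_add_const_right
      exact Tendsto.const_mul_atTop hα tendsto_id
  rw [sub_zero, add_zero] at hlim
  have hlog : Tendsto (fun N : ℕ => Real.log N) atTop atTop :=
    Real.tendsto_log_atTop.comp tendsto_natCast_atTop_atTop
  have hev := (hlim.comp hlog).eventually (gt_mem_nhds (show Real.log (β / α) < Real.log (β / α) + ε by linarith))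
  have hev2 : ∀ᶠ N : ℕ in atTop, 3 ≤ α * Real.log N ∧ 1 ≤ N ∧ Real.log N * (β - α) ≥ 1 := by
    have e1 := hlog.eventually (eventually_ge_atTop (3 / α))
    have e2 := hlog.eventually (eventually_ge_atTop (1 / (β - α)))
    filter_upwards [e1, e2, eventually_ge_atTop 1] with N h1 h2 h3
    refine ⟨?_, h3, ?_⟩
    · rwa [div_le_iff₀ hα, mul_comm] at h1
    · rwa [div_le_iff₀ (by linarith)] at h2
  obtain ⟨N₀, hN₀⟩ := eventually_atTop.mp (hev.and hev2)
  refine ⟨N₀, fun N hN => ?_⟩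
  obtain ⟨h1, h2, h3, h4⟩ := hN₀ N hN
  set L := Real.log N with hL
  simp only [Function.comp] at h1
  have hLpos : 0 < L := by
    by_contra hcon
    nlinarith
  set a : ℕ := ⌈Real.exp (α * L)⌉₊ - 1 with ha
  set b : ℕ := ⌊Real.exp (β * L)⌋₊ with hb
  have hexp3 : Real.exp 3 ≤ Real.exp (α * L) := Real.exp_le_exp.mpr h2
  have hexp3' : (4 : ℝ) ≤ Real.exp 3 := by
    have := Real.add_one_le_exp (3 : ℝ)
    linarith
  have hceil : Real.exp (α * L) ≤ ⌈Real.exp (α * L)⌉₊ := Nat.le_ceil _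
  have hceil1 : 1 ≤ ⌈Real.exp (α * L)⌉₊ := by
    rw [Nat.one_le_ceil_iff]; positivity
  have haR : (a : ℝ) = ⌈Real.exp (α * L)⌉₊ - 1 := by
    rw [ha, Nat.cast_sub hceil1]; norm_num
  have ha1 : Real.exp (α * L) - 1 ≤ a := by rw [haR]; linarith
  have ha2 : (2 : ℝ) ≤ a := by linarith
  have ha2' : 2 ≤ a := by exact_mod_cast ha2
  have haub : (a : ℝ) < Real.exp (α * L) := by
    have := Nat.ceil_lt_add_one (Real.exp_pos (α * L)).le
    rw [haR]; linarith
  have hab : a ≤ b := by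
    rw [hb]
    apply Nat.le_floor
    have : α * L ≤ β * L := mul_le_mul_of_nonneg_right hαβ.le hLpos.le
    exact haub.le.trans (Real.exp_le_exp.mpr this)
  have hloga : α * L - 1 ≤ Real.log a := by
    rw [Real.le_log_iff_exp_le (by linarith)]
    have h5 : Real.exp (α * L - 1) ≤ Real.exp (α * L) - 1 := by
      rw [Real.exp_sub]
      have h6 : (2 : ℝ) ≤ Real.exp 1 := by
        have := Real.add_one_le_exp (1 : ℝ)
        linarith
      have h7 : Real.exp (α * L) / Real.exp 1 ≤ Real.exp (α * L) / 2 :=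
        div_le_div_of_nonneg_left (Real.exp_pos _).le (by norm_num) h6
      linarith
    linarith
  have hlogb : Real.log b ≤ β * L := by
    rw [Real.log_le_iff_le_exp (by have : 0 < b := by omega
                                   exact_mod_cast this)]
    exact Nat.floor_le (Real.exp_pos _).le
  have hsum := (abs_le.mp (hC a b ha2' hab)).2
  have hloga0 : 0 < Real.log a := by linarith
  have hlogb0 : 0 < Real.log b := Real.log_pos (by exact_mod_cast (by omega : 1 < b))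
  have hsum2 : ∑ p ∈ (Finset.Ioc a b).filter Nat.Prime, (1 : ℝ) / p ≤ Real.log (β / α) + ε := by
    have e1 : Real.log (Real.log b / Real.log a) ≤ Real.log (β / (α - 1 / L)) := by
      apply Real.log_le_log (by positivity)
      have e2 : β / (α - 1 / L) = (β * L) / (α * L - 1) := by
        have : α * L - 1 ≠ 0 := by linarith
        have : α - 1 / L ≠ 0 := by
          intro h
          have : α * L - 1 = (α - 1 / L) * L := by field_simp
          rw [h, zero_mul] at this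
          linarith
        field_simp
      rw [e2]
      exact div_le_div₀ (by positivity) hlogb (by linarith) hloga
    have e3 : C / Real.log a ≤ C / (α * L - 1) :=
      div_le_div_of_nonneg_left hC0 (by linarith) hloga
    linarith
  -- counting
  classical
  have hsub : {B : ℕ | 0 < B ∧ B ≤ N ∧ ∃ p : ℕ, p.Prime ∧ p ∣ B ∧ α * L ≤ Real.log p ∧
        Real.log p ≤ β * L} ⊆
      ((((Finset.Ioc a b).filter Nat.Prime).biUnion
        (fun p => (Finset.Ioc 0 N).filter (fun B => p ∣ B)) : Finset ℕ) : Set ℕ) := by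
    rintro B ⟨hB0, hBN, p, hp, hpB, hp1, hp2⟩
    have hp0 : (0 : ℝ) < p := by exact_mod_cast hp.pos
    simp only [Finset.coe_biUnion, Set.mem_iUnion, Finset.mem_coe, Finset.mem_filter,
      Finset.mem_Ioc, exists_prop]
    refine ⟨p, ⟨⟨?_, ?_⟩, hp⟩, ⟨hB0, hBN⟩, hpB⟩
    · have h5 : Real.exp (α * L) ≤ p := (Real.le_log_iff_exp_le hp0).mp hp1
      have h6 : (a : ℝ) < p := haub.trans_le h5
      exact_mod_cast h6
    · rw [hb]
      apply Nat.le_floor
      exact (Real.log_le_iff_le_exp hp0).mp hp2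
  calc (({B : ℕ | 0 < B ∧ B ≤ N ∧ ∃ p : ℕ, p.Prime ∧ p ∣ B ∧ α * L ≤ Real.log p ∧
        Real.log p ≤ β * L}.ncard : ℕ) : ℝ)
      ≤ ((((Finset.Ioc a b).filter Nat.Prime).biUnion
        (fun p => (Finset.Ioc 0 N).filter (fun B => p ∣ B))).card : ℝ) := by
        rw [← Set.ncard_coe_finset]
        exact_mod_cast Set.ncard_le_ncard hsub (Finset.finite_toSet _)
    _ ≤ ∑ p ∈ (Finset.Ioc a b).filter Nat.Prime, (((Finset.Ioc 0 N).filter (fun B => p ∣ B)).card : ℝ) := by
        exact_mod_cast Finset.card_biUnion_le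
    _ ≤ ∑ p ∈ (Finset.Ioc a b).filter Nat.Prime, ((1 : ℝ) / p) * N := by
        apply Finset.sum_le_sum
        intro p _
        rw [Nat.Ioc_filter_dvd_card_eq_div]
        calc ((N / p : ℕ) : ℝ) ≤ (N : ℝ) / p := Nat.cast_div_le
          _ = _ := by ring
    _ = (∑ p ∈ (Finset.Ioc a b).filter Nat.Prime, (1 : ℝ) / p) * N := by rw [Finset.sum_mul]
    _ ≤ _ := mul_le_mul_of_nonneg_right hsum2 (by positivity)

/-- Few integers have no small prime factor. -/
theorem small_prime {ε : ℝ} (hε : 0 < ε) : ∃ P₀ N₀ : ℕ, ∀ N : ℕ, N₀ ≤ N →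
    (({B : ℕ | 0 < B ∧ B ≤ N ∧ ∀ p : ℕ, p ≤ P₀ → p.Prime → ¬ p ∣ B}.ncard : ℕ) : ℝ) ≤ ε * N := by
  obtain ⟨F, hF, hsum⟩ := Cof.exists_primes_class 1 one_pos 0 (by simp) (-Real.log (ε / 2))
  set R : ℝ := ∏ p ∈ F, (({x : ZMod p | x ≠ 0}.ncard : ℕ) : ℝ) with hR
  set M : ℝ := ∏ p ∈ F, (p : ℝ) with hM
  have hR0 : 0 ≤ R := Finset.prod_nonneg (fun _ _ => by positivity)
  have hM0 : 0 < M := Finset.prod_pos (fun p hp => by exact_mod_cast (hF p hp).1.pos)
  have hRM : R / M ≤ ε / 2 := by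
    have h1 := Cof.prod_le_exp F (fun p hp => (hF p hp).1)
    calc R / M ≤ _ := h1
      _ ≤ Real.exp (Real.log (ε / 2)) := Real.exp_le_exp.mpr (by linarith)
      _ = ε / 2 := Real.exp_log (by positivity)
  obtain ⟨N₀, hN₀⟩ := exists_nat_ge (R / (ε / 2))
  refine ⟨F.sup id, N₀, fun N hN => ?_⟩
  set E : Set ℕ := {B : ℕ | ∀ p : ℕ, p ≤ F.sup id → p.Prime → ¬ p ∣ B} with hE
  have h1 := Cof.count1 F (fun p hp => (hF p hp).1) (fun p => {x : ZMod p | x ≠ 0}) E (by
      intro m hm p hp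
      have := hm p (Finset.le_sup (f := id) hp) (hF p hp).1
      show (m : ZMod p) ≠ 0
      rwa [Ne, ZMod.natCast_eq_zero_iff]) N
  have h0 : {B : ℕ | 0 < B ∧ B ≤ N ∧ ∀ p : ℕ, p ≤ F.sup id → p.Prime → ¬ p ∣ B} ⊆
      E ∩ Set.Ioc 0 N := by
    rintro B ⟨h1, h2, h3⟩
    exact ⟨h3, h1, h2⟩
  have h2 : ((E ∩ Set.Ioc 0 N).ncard : ℝ) ≤ R * ((N : ℝ) / M + 1) := by
    calc _ ≤ (((∏ p ∈ F, {x : ZMod p | x ≠ 0}.ncard) * (N / (∏ p ∈ F, p) + 1) : ℕ) : ℝ) := by
          exact_mod_cast h1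
      _ = R * (((N / (∏ p ∈ F, p) : ℕ) : ℝ) + 1) := by rw [hR]; push_cast; ring
      _ ≤ _ := by
        apply mul_le_mul_of_nonneg_left _ hR0
        have h3 : ((N / (∏ p ∈ F, p) : ℕ) : ℝ) ≤ (N : ℝ) / ((∏ p ∈ F, p : ℕ) : ℝ) := Nat.cast_div_le
        push_cast at h3
        linarith
  have h3 : R ≤ (ε / 2) * N := by
    have h4 : R / (ε / 2) ≤ N := hN₀.trans (by exact_mod_cast hN)
    rwa [div_le_iff₀ (by positivity), mul_comm] at h4
  calc _ ≤ ((E ∩ Set.Ioc 0 N).ncard : ℝ) := by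
        exact_mod_cast Set.ncard_le_ncard h0 ((Set.finite_Ioc 0 N).subset Set.inter_subset_right)
    _ ≤ R * ((N : ℝ) / M + 1) := h2
    _ = (R / M) * N + R := by field_simp
    _ ≤ (ε / 2) * N + (ε / 2) * N := by
      have : (R / M) * N ≤ (ε / 2) * N := mul_le_mul_of_nonneg_right hRM (by positivity)
      linarith
    _ = ε * N := by ring

/-- Few integers have a large smooth part. -/
theorem smooth_part {k : ℕ} (hk : 0 < k) {ε : ℝ} (hε : 0 < ε) : ∃ m : ℕ, 0 < m ∧ ∃ N₀ : ℕ,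
    ∀ N : ℕ, N₀ ≤ N →
      (({B : ℕ | 0 < B ∧ B ≤ N ∧ Real.log N / k < smoothLog ⌊(N : ℝ) ^ ((1 : ℝ) / m)⌋₊ B}.ncard : ℕ) : ℝ)
        ≤ ε * N := by
  obtain ⟨C, hC0, hC⟩ := smooth_sum
  obtain ⟨m, hm⟩ := exists_nat_gt (2 * k / ε)
  have hk' : (0 : ℝ) < k := by exact_mod_cast hk
  have hm0 : (0 : ℝ) < m := lt_of_le_of_lt (by positivity) hm
  have hlog : Tendsto (fun N : ℕ => Real.log N) atTop atTop :=
    Real.tendsto_log_atTop.comp tendsto_natCast_atTop_atTop
  have hev := hlog.eventually (eventually_ge_atTop (2 * k * C / ε + 1))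
  obtain ⟨N₀, hN₀⟩ := eventually_atTop.mp (hev.and (eventually_ge_atTop 1))
  refine ⟨m, by exact_mod_cast hm0, N₀, fun N hN => ?_⟩
  obtain ⟨h1, h2⟩ := hN₀ N hN
  set L := Real.log N with hL
  have hLpos : 0 < L := by
    have : 0 ≤ 2 * k * C / ε := by positivity
    linarith
  have hN1 : (1 : ℝ) ≤ N := by exact_mod_cast h2
  set y : ℕ := ⌊(N : ℝ) ^ ((1 : ℝ) / m)⌋₊ with hy
  have hy1 : 1 ≤ y := by
    rw [hy]
    apply Nat.le_floor
    push_cast
    exact Real.one_le_rpow hN1 (by positivity)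
  have hlogy : Real.log y ≤ L / m := by
    have h3 : (y : ℝ) ≤ (N : ℝ) ^ ((1 : ℝ) / m) := Nat.floor_le (by positivity)
    calc Real.log y ≤ Real.log ((N : ℝ) ^ ((1 : ℝ) / m)) :=
          Real.log_le_log (by exact_mod_cast hy1) h3
      _ = L / m := by rw [Real.log_rpow (by linarith)]; ring
  classical
  set E : Finset ℕ := (Finset.Icc 1 N).filter (fun B => L / k < smoothLog y B) with hE
  have hsub : {B : ℕ | 0 < B ∧ B ≤ N ∧ L / k < smoothLog y B} = (E : Set ℕ) := by
    ext B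
    simp only [Set.mem_ofPred_eq, hE, Finset.coe_filter, Finset.mem_Icc]
    constructor
    · rintro ⟨a1, a2, a3⟩; exact ⟨⟨a1, a2⟩, a3⟩
    · rintro ⟨⟨a1, a2⟩, a3⟩; exact ⟨a1, a2, a3⟩
  rw [hsub, Set.ncard_coe_finset]
  have hnn : ∀ B, 0 ≤ smoothLog y B := by
    intro B
    unfold smoothLog
    apply Finset.sum_nonneg
    intro p hp
    have hpp := (Finset.mem_filter.mp hp).2
    have : 0 ≤ Real.log p := Real.log_nonneg (by exact_mod_cast hpp.one_lt.le)
    positivity
  have h3 : (E.card : ℝ) * (L / k) ≤ N * (L / m + C) := by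
    calc (E.card : ℝ) * (L / k) = ∑ _B ∈ E, (L / k) := by rw [Finset.sum_const, nsmul_eq_mul]
      _ ≤ ∑ B ∈ E, smoothLog y B :=
          Finset.sum_le_sum (fun B hB => (Finset.mem_filter.mp hB).2.le)
      _ ≤ ∑ B ∈ Finset.Icc 1 N, smoothLog y B :=
          Finset.sum_le_sum_of_subset_of_nonneg (Finset.filter_subset _ _) (fun B _ _ => hnn B)
      _ ≤ N * (Real.log y + C) := hC N y hy1
      _ ≤ _ := by gcongr
  have h4 : (N : ℝ) * (L / m + C) ≤ (ε * N) * (L / k) := by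
    have e1 : L / m ≤ (ε / 2) * (L / k) := by
      have : 2 * k ≤ ε * m := by
        rw [div_lt_iff₀ hε] at hm
        linarith
      rw [div_le_iff₀ hm0]
      have : (ε / 2) * (L / k) * m = (L / (2 * k)) * (ε * m) := by field_simp
      rw [this]
      calc L = (L / (2 * k)) * (2 * k) := by field_simp
        _ ≤ (L / (2 * k)) * (ε * m) := by gcongr
    have e2 : C ≤ (ε / 2) * (L / k) := by
      have e3 : 2 * k * C / ε ≤ L := by linarith
      rw [div_le_iff₀ hε] at e3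
      have : (ε / 2) * (L / k) = (L * ε) / (2 * k) := by field_simp
      rw [this, le_div_iff₀ (by positivity)]
      linarith
    calc (N : ℝ) * (L / m + C) ≤ N * ((ε / 2) * (L / k) + (ε / 2) * (L / k)) := by gcongr
      _ = _ := by ring
  exact le_of_mul_le_mul_right (h3.trans h4) (by positivity)

end Pool.Agent.H374R2.Fc
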