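import Mathlib
import Pool.Agent.H374R2.FcA
import Pool.Agent.H374R2.FcC

/-!
Nice integers and the count of pairs for given exponents.
-/

namespace Pool.Agent.H374R2.Fc

open Finset Filter Topology

/-- `⌊N^(1/m)⌋`. -/
noncomputable def yy (N m : ℕ) : ℕ := ⌊(N : ℝ) ^ ((1 : ℝ) / m)⌋₊

/-- Nice integers. -/
def Nice (N m P₀ B : ℕ) : Prop :=
  (∃ p : ℕ, p ≤ P₀ ∧ p.Prime ∧ p ∣ B) ∧
  ∃ d, 0 < d ∧ d ∣ B ∧ (∀ p : ℕ, p.Prime → p ∣ d → yy N m < p) ∧ 2 * N < d ^ 2 ∧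
    d * (yy N m + 1) ≤ N

theorem nice_density {ε : ℝ} (hε : 0 < ε) : ∃ m : ℕ, 0 < m ∧ ∃ P₀ N₀ : ℕ, ∀ N : ℕ, N₀ ≤ N →
    (({B : ℕ | 0 < B ∧ B ≤ N ∧ ¬ Nice N m P₀ B}.ncard : ℕ) : ℝ) ≤ ε * N := by
  obtain ⟨k, hk⟩ := exists_nat_ge (max 10 (2 + 24 / ε))
  have hk10R : (10 : ℝ) ≤ k := (le_max_left _ _).trans hk
  have hk10 : 10 ≤ k := by exact_mod_cast hk10R
  have hk2 : 2 + 24 / ε ≤ k := (le_max_right _ _).trans hk
  have hkpos : (0 : ℝ) < k := by linarith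
  have hk6 : 6 / ((k : ℝ) - 2) ≤ ε / 4 := by
    rw [div_le_div_iff₀ (by linarith) (by norm_num)]
    have : 24 / ε ≤ (k : ℝ) - 2 := by linarith
    rw [div_le_iff₀ hε] at this
    linarith
  obtain ⟨m, hm, N₁, hN₁⟩ := smooth_part (k := k) (by omega) (ε := ε / 8) (by positivity)
  have h2k : (2 : ℝ) / k ≤ 1 / 5 := by
    rw [div_le_div_iff₀ hkpos (by norm_num)]; linarith
  have h1k : (0 : ℝ) < 1 / k := by positivity
  have hα3 : (0 : ℝ) < 1 - 2 / k := by linarith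
  have h21 : (2 : ℝ) / k = 2 * (1 / k) := by ring
  have hα4 : (0 : ℝ) < 1 / 2 - 1 / k := by linarith
  obtain ⟨N₃, hN₃⟩ := interval_primes (α := 1 - 2 / k) (β := 1) hα3 (by linarith) (ε := ε / 8) (by positivity)
  obtain ⟨N₄, hN₄⟩ := interval_primes (α := 1 / 2 - 1 / k) (β := 1 / 2 + 1 / k) hα4 (by linarith)
    (ε := ε / 8) (by positivity)
  obtain ⟨P₀, N₅, hN₅⟩ := small_prime (ε := ε / 8) (by positivity)
  have hlog : Tendsto (fun N : ℕ => Real.log N) atTop atTop :=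
    Real.tendsto_log_atTop.comp tendsto_natCast_atTop_atTop
  have hev1 := hlog.eventually (eventually_gt_atTop (k * Real.log 2))
  have hev2 := hlog.eventually (eventually_gt_atTop (15 * Real.log 2))
  have hev3 := hlog.eventually (eventually_ge_atTop (k * Real.log (8 / ε)))
  obtain ⟨N₂, hN₂⟩ := eventually_atTop.mp (((hev1.and hev2).and hev3).and (eventually_ge_atTop 1))
  refine ⟨m, hm, P₀, max N₁ (max N₂ (max N₃ (max N₄ N₅))), fun N hN => ?_⟩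
  have hN1 : N₁ ≤ N := (le_max_left _ _).trans hN
  have hN' : max N₂ (max N₃ (max N₄ N₅)) ≤ N := (le_max_right _ _).trans hN
  have hN2 : N₂ ≤ N := (le_max_left _ _).trans hN'
  have hN'' : max N₃ (max N₄ N₅) ≤ N := (le_max_right _ _).trans hN'
  have hN3 : N₃ ≤ N := (le_max_left _ _).trans hN''
  have hN''' : max N₄ N₅ ≤ N := (le_max_right _ _).trans hN''
  have hN4 : N₄ ≤ N := (le_max_left _ _).trans hN'''
  have hN5 : N₅ ≤ N := (le_max_right _ _).trans hN'''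
  obtain ⟨⟨⟨hLk, hL15⟩, hLε⟩, hNpos⟩ := hN₂ N hN2
  have hNR : (0 : ℝ) < N := by exact_mod_cast hNpos
  have E1 := hN₁ N hN1
  have E3 := hN₃ N hN3
  have E4 := hN₄ N hN4
  have E5 := hN₅ N hN5
  set L := Real.log N with hL
  have hl2 : 0 < Real.log 2 := Real.log_pos (by norm_num)
  have hLpos : 0 < L := by linarith
  have hLk' : Real.log 2 < L / k := by
    rw [lt_div_iff₀ hkpos]; linarith
  -- the set of small `B`
  have E2 : (({B : ℕ | 0 < B ∧ B ≤ N ∧ Real.log B < L - L / k}.ncard : ℕ) : ℝ) ≤ (ε / 8) * N := by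
    have h1 : {B : ℕ | 0 < B ∧ B ≤ N ∧ Real.log B < L - L / k} ⊆
        (Finset.Ioc 0 ⌊Real.exp (L - L / k)⌋₊ : Set ℕ) := by
      rintro B ⟨hB0, hBN, hB⟩
      rw [Finset.mem_coe, Finset.mem_Ioc]
      refine ⟨hB0, Nat.le_floor ?_⟩
      have hB0' : (0 : ℝ) < B := by exact_mod_cast hB0
      exact (Real.log_le_iff_le_exp hB0').mp hB.le
    have h2 : Real.exp (L - L / k) ≤ (ε / 8) * N := by
      rw [Real.exp_sub, hL, Real.exp_log hNR, ← hL, div_le_iff₀ (Real.exp_pos _)]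
      have h3 : 8 / ε ≤ Real.exp (L / k) := by
        rw [← Real.log_le_iff_le_exp (by positivity), le_div_iff₀ hkpos]
        linarith
      have h4 : 1 ≤ (ε / 8) * Real.exp (L / k) := by
        calc (1 : ℝ) = (ε / 8) * (8 / ε) := by field_simp
          _ ≤ _ := by gcongr
      nlinarith
    calc (({B : ℕ | 0 < B ∧ B ≤ N ∧ Real.log B < L - L / k}.ncard : ℕ) : ℝ)
        ≤ (((Finset.Ioc 0 ⌊Real.exp (L - L / k)⌋₊ : Set ℕ).ncard : ℕ) : ℝ) := by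
          exact_mod_cast Set.ncard_le_ncard h1 (Finset.finite_toSet _)
      _ = (⌊Real.exp (L - L / k)⌋₊ : ℝ) := by
          rw [Set.ncard_coe_finset, Nat.card_Ioc, Nat.sub_zero]
      _ ≤ Real.exp (L - L / k) := Nat.floor_le (Real.exp_pos _).le
      _ ≤ _ := h2
  -- logs of the ratios
  have R3 : Real.log (1 / (1 - 2 / k)) ≤ 2 / ((k : ℝ) - 2) := by
    have h1 := Real.log_le_sub_one_of_pos (show (0 : ℝ) < 1 / (1 - 2 / k) by positivity)
    have h2 : 1 / (1 - 2 / (k : ℝ)) - 1 = 2 / ((k : ℝ) - 2) := by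
      have e1 : (k : ℝ) - 2 ≠ 0 := by linarith
      have e2 : (1 : ℝ) - 2 / k = (k - 2) / k := by field_simp
      rw [e2]
      field_simp
      ring
    linarith
  have R4 : Real.log ((1 / 2 + 1 / k) / (1 / 2 - 1 / k)) ≤ 4 / ((k : ℝ) - 2) := by
    have h1 := Real.log_le_sub_one_of_pos (show (0 : ℝ) < (1 / 2 + 1 / k) / (1 / 2 - 1 / k) by positivity)
    have h2 : (1 / 2 + 1 / (k : ℝ)) / (1 / 2 - 1 / k) - 1 = 4 / ((k : ℝ) - 2) := by
      have e1 : (k : ℝ) - 2 ≠ 0 := by linarith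
      have e2 : (1 : ℝ) / 2 - 1 / k = (k - 2) / (2 * k) := by field_simp
      have e3 : (1 : ℝ) / 2 + 1 / k = (k + 2) / (2 * k) := by field_simp
      rw [e2, e3]
      field_simp
      ring
    linarith
  -- union
  set S1 := {B : ℕ | 0 < B ∧ B ≤ N ∧ L / k < smoothLog ⌊(N : ℝ) ^ ((1 : ℝ) / m)⌋₊ B}
  set S2 := {B : ℕ | 0 < B ∧ B ≤ N ∧ Real.log B < L - L / k}
  set S3 := {B : ℕ | 0 < B ∧ B ≤ N ∧ ∃ p : ℕ, p.Prime ∧ p ∣ B ∧ (1 - 2 / (k : ℝ)) * L ≤ Real.log p ∧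
        Real.log p ≤ 1 * L}
  set S4 := {B : ℕ | 0 < B ∧ B ≤ N ∧ ∃ p : ℕ, p.Prime ∧ p ∣ B ∧ (1 / 2 - 1 / (k : ℝ)) * L ≤ Real.log p ∧
        Real.log p ≤ (1 / 2 + 1 / (k : ℝ)) * L}
  set S5 := {B : ℕ | 0 < B ∧ B ≤ N ∧ ∀ p : ℕ, p ≤ P₀ → p.Prime → ¬ p ∣ B}
  have hsub : {B : ℕ | 0 < B ∧ B ≤ N ∧ ¬ Nice N m P₀ B} ⊆ S1 ∪ (S2 ∪ (S3 ∪ (S4 ∪ S5))) := by
    rintro B ⟨hB0, hBN, hB⟩
    by_contra hcon
    simp only [Set.mem_union, not_or] at hcon
    obtain ⟨c1, c2, c3, c4, c5⟩ := hcon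
    apply hB
    refine ⟨?_, ?_⟩
    · by_contra h
      apply c5
      refine ⟨hB0, hBN, fun p hp hpp hpB => h ⟨p, hp, hpp, hpB⟩⟩
    · apply exists_div (y := yy N m) hL hk10 hLk' hL15 hB0 hBN
      · by_contra h
        exact c1 ⟨hB0, hBN, not_le.mp h⟩
      · by_contra h
        exact c2 ⟨hB0, hBN, not_le.mp h⟩
      · intro p hp hpB
        by_contra h
        apply c3
        refine ⟨hB0, hBN, p, hp, hpB, ?_, ?_⟩
        · have := not_lt.mp h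
          calc (1 - 2 / (k : ℝ)) * L = L - 2 * (L / k) := by ring
            _ ≤ _ := this
        · rw [one_mul, hL]
          exact Real.log_le_log (by exact_mod_cast hp.pos)
            (by exact_mod_cast (Nat.le_of_dvd hB0 hpB).trans hBN)
      · intro p hp hpB h
        apply c4
        refine ⟨hB0, hBN, p, hp, hpB, ?_, ?_⟩
        · calc (1 / 2 - 1 / (k : ℝ)) * L = L / 2 - L / k := by ring
            _ ≤ _ := h.1
        · calc Real.log p ≤ L / 2 + L / k := h.2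
            _ = _ := by ring
  have hfin : (S1 ∪ (S2 ∪ (S3 ∪ (S4 ∪ S5)))).Finite := by
    apply (Set.finite_Icc 0 N).subset
    intro B hB
    rcases hB with h | h | h | h | h <;> exact ⟨Nat.zero_le _, h.2.1⟩
  have hcard : ({B : ℕ | 0 < B ∧ B ≤ N ∧ ¬ Nice N m P₀ B}.ncard : ℝ) ≤
      S1.ncard + (S2.ncard + (S3.ncard + (S4.ncard + S5.ncard))) := by
    have h1 := Set.ncard_le_ncard hsub hfin
    have h2 := Set.ncard_union_le S1 (S2 ∪ (S3 ∪ (S4 ∪ S5)))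
    have h3 := Set.ncard_union_le S2 (S3 ∪ (S4 ∪ S5))
    have h4 := Set.ncard_union_le S3 (S4 ∪ S5)
    have h5 := Set.ncard_union_le S4 S5
    have : {B : ℕ | 0 < B ∧ B ≤ N ∧ ¬ Nice N m P₀ B}.ncard ≤
      S1.ncard + (S2.ncard + (S3.ncard + (S4.ncard + S5.ncard))) := by omega
    exact_mod_cast this
  have hsum : 2 / ((k : ℝ) - 2) + 4 / ((k : ℝ) - 2) ≤ ε / 4 := by
    rw [← add_div]; norm_num; linarith
  calc ({B : ℕ | 0 < B ∧ B ≤ N ∧ ¬ Nice N m P₀ B}.ncard : ℝ)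
      ≤ S1.ncard + (S2.ncard + (S3.ncard + (S4.ncard + S5.ncard))) := hcard
    _ ≤ (ε / 8) * N + ((ε / 8) * N + ((Real.log (1 / (1 - 2 / k)) + ε / 8) * N +
        ((Real.log ((1 / 2 + 1 / k) / (1 / 2 - 1 / k)) + ε / 8) * N + (ε / 8) * N))) := by
        gcongr
    _ = (5 * (ε / 8) + (Real.log (1 / (1 - 2 / k)) + Real.log ((1 / 2 + 1 / k) / (1 / 2 - 1 / k)))) * N := by ring
    _ ≤ ε * N := by
        apply mul_le_mul_of_nonneg_right _ hNR.le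
        linarith

/-- Number of pairs for given exponents, when the divisors are taken from a set `𝒟`. -/
theorem pair_bound {N q x y r w : ℕ} {s : ℤ} (hs : s = 1 ∨ s = -1) (hy : 0 < y) (hq0 : 0 < q)
    (hr0 : 0 < r)
    (𝒟 : Finset ℕ) (h𝒟 : ∀ d ∈ 𝒟, 0 < d ∧ (∀ p : ℕ, p.Prime → p ∣ d → ¬ p ∣ q) ∧ 2 * N < d ^ q ∧
      (∀ p : ℕ, p.Prime → p ∣ d → ∀ a : ZMod p, a ≠ 0 → {u : ZMod p | u ^ q = a}.ncard ≤ r) ∧
      d.primeFactors.card ≤ w)
    (P : Set (ℕ × ℕ)) (hP : ∀ z ∈ P, z.1 ∈ Finset.Icc 1 N ∧ ∃ d ∈ 𝒟, Nat.Coprime z.1 d ∧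
      z.2 ∈ Sols N q d x y z.1 s) :
    P.Finite ∧ P.ncard ≤ N * 𝒟.card * r ^ w := by
  classical
  let F : ℕ → ℕ → Finset ℕ := fun A d =>
    if Nat.Coprime A d then (sols_finite N q d x y A s).toFinset else ∅
  let U : Finset (ℕ × ℕ) := (Finset.Icc 1 N ×ˢ 𝒟).biUnion
    (fun z => (F z.1 z.2).image (fun B => (z.1, B)))
  have hsub : P ⊆ (U : Set (ℕ × ℕ)) := by
    rintro ⟨A, B⟩ hz
    obtain ⟨h1, d, hd, hcop, hsol⟩ := hP _ hz
    simp only [U, Finset.coe_biUnion, Set.mem_iUnion, Finset.mem_coe, exists_prop]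
    refine ⟨(A, d), Finset.mem_product.mpr ⟨h1, hd⟩, ?_⟩
    rw [Finset.mem_image]
    refine ⟨B, ?_, rfl⟩
    simp only [F]
    rw [if_pos hcop, Set.Finite.mem_toFinset]
    exact hsol
  refine ⟨(Finset.finite_toSet U).subset hsub, ?_⟩
  have hF : ∀ z ∈ Finset.Icc 1 N ×ˢ 𝒟, ((F z.1 z.2).image (fun B => (z.1, B))).card ≤ r ^ w := by
    intro z hz
    refine Finset.card_image_le.trans ?_
    have hd := (Finset.mem_product.mp hz).2
    obtain ⟨h1, h2, h3, h4, h5⟩ := h𝒟 _ hd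
    simp only [F]
    split_ifs with hc
    · have e0 : (sols_finite N q z.2 x y z.1 s).toFinset.card = (Sols N q z.2 x y z.1 s).ncard :=
        (Set.ncard_eq_toFinset_card _ _).symm
      rw [e0]
      exact (card_sols hs h1 hy hq0 h2 hc h3 r h4).trans (Nat.pow_le_pow_right hr0 h5)
    · simp
  calc P.ncard ≤ (U : Set (ℕ × ℕ)).ncard := Set.ncard_le_ncard hsub (Finset.finite_toSet _)
    _ = U.card := Set.ncard_coe_finset _
    _ ≤ ∑ z ∈ Finset.Icc 1 N ×ˢ 𝒟, ((F z.1 z.2).image (fun B => (z.1, B))).card :=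
        Finset.card_biUnion_le
    _ ≤ ∑ _z ∈ Finset.Icc 1 N ×ˢ 𝒟, r ^ w := Finset.sum_le_sum hF
    _ = N * 𝒟.card * r ^ w := by
        rw [Finset.sum_const, Finset.card_product, Nat.card_Icc, smul_eq_mul, Nat.add_sub_cancel]

/-- The pairs with a solution for given exponents `x, y, q`, sign `s`, with `B` nice and
`A ^ x ≤ B ^ y`. -/
def Pairs (N m P₀ x y q : ℕ) (s : ℤ) : Set (ℕ × ℕ) :=
  {z | 0 < z.1 ∧ z.1 ≤ N ∧ 0 < z.2 ∧ z.2 ≤ N ∧ Nat.Coprime z.1 z.2 ∧ Nice N m P₀ z.2 ∧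
    z.1 ^ x ≤ z.2 ^ y ∧ ∃ C : ℕ, (C : ℤ) ^ q = (z.2 : ℤ) ^ y + s * (z.1 : ℤ) ^ x}

theorem primeFactors_card_le {N m d : ℕ} (hm : 0 < m) (hN : 0 < N) (hd : 0 < d) (hdN : d ≤ N)
    (h : ∀ p : ℕ, p.Prime → p ∣ d → yy N m < p) : d.primeFactors.card ≤ m := by
  have hNR : (0 : ℝ) < N := by exact_mod_cast hN
  set Y : ℝ := (N : ℝ) ^ ((1 : ℝ) / m) with hY
  have hYpos : 0 < Y := Real.rpow_pos_of_pos hNR _
  have hYm : Y ^ m = N := by
    rw [hY, ← Real.rpow_natCast, ← Real.rpow_mul hNR.le, one_div, inv_mul_cancel₀ (by positivity),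
      Real.rpow_one]
  have hY1 : Y < (yy N m : ℝ) + 1 := Nat.lt_floor_add_one _
  by_contra hcon
  push Not at hcon
  have h1 : ∏ p ∈ d.primeFactors, p ∣ d := Nat.prod_primeFactors_dvd d
  have h2 : ∏ p ∈ d.primeFactors, p ≤ N := (Nat.le_of_dvd hd h1).trans hdN
  have h3 : (yy N m + 1) ^ d.primeFactors.card ≤ ∏ p ∈ d.primeFactors, p := by
    rw [← Finset.prod_const]
    apply Finset.prod_le_prod'
    intro p hp
    exact h p (Nat.prime_of_mem_primeFactors hp) (Nat.dvd_of_mem_primeFactors hp)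
  have h4 : (yy N m + 1) ^ m ≤ N := by
    refine (Nat.pow_le_pow_right (by omega) hcon.le).trans (h3.trans h2)
  have h5 : ((yy N m : ℝ) + 1) ^ m ≤ N := by exact_mod_cast h4
  have h6 : Y ^ m < ((yy N m : ℝ) + 1) ^ m := pow_lt_pow_left₀ hY1 hYpos.le hm.ne'
  linarith

/-- Small `q`. -/
theorem pairs_small {N m P₀ x y q : ℕ} {s : ℤ} (hs : s = 1 ∨ s = -1) (hm : 0 < m) (hN : 0 < N)
    (hy : 0 < y) (hq : q.Prime) (hqy : q ≤ yy N m) :
    (Pairs N m P₀ x y q s).Finite ∧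
      (Pairs N m P₀ x y q s).ncard ≤ N * (N / (yy N m + 1)) * q ^ m := by
  classical
  set 𝒟 : Finset ℕ := (Finset.Icc 1 (N / (yy N m + 1))).filter
    (fun d => (∀ p : ℕ, p.Prime → p ∣ d → yy N m < p) ∧ 2 * N < d ^ 2) with h𝒟
  have h := pair_bound (N := N) (q := q) (x := x) (y := y) (r := q) (w := m) hs hy hq.pos hq.pos 𝒟
    (by
      intro d hd
      rw [h𝒟, Finset.mem_filter, Finset.mem_Icc] at hd
      obtain ⟨⟨h1, h2⟩, h3, h4⟩ := hd
      have hdN : d ≤ N := h2.trans (Nat.div_le_self _ _)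
      refine ⟨h1, ?_, ?_, ?_, ?_⟩
      · intro p hp hpd hpq
        have h5 := h3 p hp hpd
        have h6 := Nat.le_of_dvd hq.pos hpq
        omega
      · exact h4.trans_le (Nat.pow_le_pow_right h1 hq.two_le)
      · intro p hp _ a _
        exact roots_le hp hq.pos a
      · exact primeFactors_card_le hm hN h1 hdN h3)
    (Pairs N m P₀ x y q s) (by
      rintro ⟨A, B⟩ ⟨hA0, hAN, hB0, hBN, hcop, hnice, hAB, hC⟩
      refine ⟨Finset.mem_Icc.mpr ⟨hA0, hAN⟩, ?_⟩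
      obtain ⟨-, d, hd0, hdB, hdp, hd2, hdN⟩ := hnice
      refine ⟨d, ?_, Nat.Coprime.coprime_dvd_right hdB hcop, hB0, hBN, hdB, hAB, hC⟩
      rw [h𝒟, Finset.mem_filter, Finset.mem_Icc]
      exact ⟨⟨hd0, (Nat.le_div_iff_mul_le (by omega)).mpr hdN⟩, hdp, hd2⟩)
  refine ⟨h.1, h.2.trans ?_⟩
  apply Nat.mul_le_mul_right
  apply Nat.mul_le_mul_left
  calc 𝒟.card ≤ (Finset.Icc 1 (N / (yy N m + 1))).card := Finset.card_filter_le _ _
    _ = N / (yy N m + 1) := by rw [Nat.card_Icc, Nat.add_sub_cancel]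

/-- Large `q`. -/
theorem pairs_large {N m P₀ x y q : ℕ} {s : ℤ} (hs : s = 1 ∨ s = -1)
    (hy : 0 < y) (hq : q.Prime) (hqP : P₀ < q) (hqN : 2 * N < 2 ^ q) :
    (Pairs N m P₀ x y q s).Finite ∧
      (Pairs N m P₀ x y q s).ncard ≤ N * P₀ := by
  classical
  set 𝒟 : Finset ℕ := (Finset.Icc 1 P₀).filter Nat.Prime with h𝒟
  have h := pair_bound (N := N) (q := q) (x := x) (y := y) (r := 1) (w := 1) hs hy hq.pos one_pos 𝒟
    (by
      intro d hd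
      rw [h𝒟, Finset.mem_filter, Finset.mem_Icc] at hd
      obtain ⟨⟨h1, h2⟩, h3⟩ := hd
      have hpd : ∀ p : ℕ, p.Prime → p ∣ d → p = d := fun p hp hpd =>
        (Nat.prime_dvd_prime_iff_eq hp h3).mp hpd
      refine ⟨h1, ?_, ?_, ?_, ?_⟩
      · intro p hp hpd' hpq
        have h5 := hpd p hp hpd'
        have h6 := (Nat.prime_dvd_prime_iff_eq hp hq).mp hpq
        omega
      · exact hqN.trans_le (Nat.pow_le_pow_left h3.two_le q)
      · intro p hp hpd' a ha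
        have h5 := hpd p hp hpd'
        exact roots_le_one hp hq (by omega) a ha
      · rw [Nat.Prime.primeFactors h3]; simp)
    (Pairs N m P₀ x y q s) (by
      rintro ⟨A, B⟩ ⟨hA0, hAN, hB0, hBN, hcop, hnice, hAB, hC⟩
      refine ⟨Finset.mem_Icc.mpr ⟨hA0, hAN⟩, ?_⟩
      obtain ⟨⟨p, hpP, hp, hpB⟩, -⟩ := hnice
      refine ⟨p, ?_, Nat.Coprime.coprime_dvd_right hpB hcop, hB0, hBN, hpB, hAB, hC⟩
      rw [h𝒟, Finset.mem_filter, Finset.mem_Icc]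
      exact ⟨⟨hp.one_lt.le, hpP⟩, hp⟩)
  refine ⟨h.1, h.2.trans ?_⟩
  rw [one_pow, mul_one]
  apply Nat.mul_le_mul_left
  calc 𝒟.card ≤ (Finset.Icc 1 P₀).card := Finset.card_filter_le _ _
    _ = P₀ := by rw [Nat.card_Icc, Nat.add_sub_cancel]

end Pool.Agent.H374R2.Fc
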