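import Mathlib
import Pool.Agent.H374R2.FcD

/-!
Final assembly: for almost all coprime pairs `(A, B)`, none of the numbers `|A^x ± B^y|` with
`x, y ≤ N^c` is a perfect power.
-/

namespace Pool.Agent.H374R2.Fc

open Finset Filter Topology

/-- The exceptional pairs, with exponents up to `X`. -/
def Bad (N X : ℕ) : Set (ℕ × ℕ) :=
  {z | 0 < z.1 ∧ z.1 ≤ N ∧ 0 < z.2 ∧ z.2 ≤ N ∧ Nat.Coprime z.1 z.2 ∧ ∃ x y w C : ℕ,
    0 < x ∧ 0 < y ∧ x ≤ X ∧ y ≤ X ∧ 2 ≤ w ∧ 0 < C ∧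
    (z.1 ^ x + z.2 ^ y = C ^ w ∨ z.1 ^ x + C ^ w = z.2 ^ y ∨ z.2 ^ y + C ^ w = z.1 ^ x)}

/-- Bound for prime exponents. -/
def QQ (N X : ℕ) : ℕ := X * (Nat.log 2 N + 1) + 3

theorem pow_lt_QQ {N X : ℕ} : 2 * N ^ X < 2 ^ QQ N X := by
  have h1 : N < 2 ^ (Nat.log 2 N + 1) := Nat.lt_pow_succ_log_self (by norm_num) N
  have h2 : N ^ X ≤ 2 ^ (X * (Nat.log 2 N + 1)) := by
    rw [mul_comm, pow_mul]
    exact Nat.pow_le_pow_left h1.le X
  unfold QQ
  rw [pow_add]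
  have h3 : 0 < 2 ^ (X * (Nat.log 2 N + 1)) := by positivity
  omega

/-- Reduction to a prime exponent. -/
theorem reduce {N X w C T : ℕ} (hw : 2 ≤ w) (hC : 0 < C) (hT : T = C ^ w) (hTN : T ≤ 2 * N ^ X) :
    ∃ q C' : ℕ, q.Prime ∧ q < QQ N X ∧ C' ^ q = T := by
  rcases Nat.lt_or_ge C 2 with hC2 | hC2
  · have hC1 : C = 1 := by omega
    refine ⟨2, 1, Nat.prime_two, ?_, by rw [hT, hC1]; simp⟩
    unfold QQ
    omega
  · set q := w.minFac with hq
    have hqp : q.Prime := Nat.minFac_prime (by omega)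
    obtain ⟨e, he⟩ := Nat.minFac_dvd w
    have he0 : 0 < e := by
      rcases Nat.eq_zero_or_pos e with h | h
      · rw [h] at he; omega
      · exact h
    refine ⟨q, C ^ e, hqp, ?_, by rw [hT, he, ← pow_mul, mul_comm]⟩
    have h1 : 2 ^ q ≤ T := by
      rw [hT]
      calc 2 ^ q ≤ C ^ q := Nat.pow_le_pow_left hC2 q
        _ ≤ C ^ w := Nat.pow_le_pow_right hC (by rw [he]; exact Nat.le_mul_of_pos_right _ he0)
    have h2 : 2 ^ q < 2 ^ QQ N X := h1.trans_lt (hTN.trans_lt pow_lt_QQ)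
    exact (Nat.pow_lt_pow_iff_right (by norm_num)).mp h2

/-- The pairs with a solution, up to exchanging the two bases. -/
def BPairs (N m P₀ x y q : ℕ) (s : ℤ) : Set (ℕ × ℕ) :=
  Pairs N m P₀ x y q s ∪ Prod.swap '' Pairs N m P₀ x y q s

/-- The index set. -/
def Ind (N X : ℕ) : Finset ((ℕ × ℕ) × ℕ × ℤ) :=
  (Finset.Icc 1 X ×ˢ Finset.Icc 1 X) ×ˢ
    ((Finset.range (QQ N X)).filter Nat.Prime ×ˢ ({1, -1} : Finset ℤ))

theorem bad_subset {N m P₀ X : ℕ} :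
    Bad N X ⊆ ({B : ℕ | 0 < B ∧ B ≤ N ∧ ¬ Nice N m P₀ B} ×ˢ Set.Icc 1 N) ∪
      ((Set.Icc 1 N ×ˢ {B : ℕ | 0 < B ∧ B ≤ N ∧ ¬ Nice N m P₀ B}) ∪
        ⋃ i ∈ Ind N X, BPairs N m P₀ i.1.1 i.1.2 i.2.1 i.2.2) := by
  rintro ⟨A, B⟩ ⟨hA0, hAN, hB0, hBN, hcop, x, y, w, C, hx, hy, hxX, hyX, hw, hC, h⟩
  simp only at hA0 hAN hB0 hBN hcop h
  by_cases hA : Nice N m P₀ A
  swap
  · left
    exact ⟨⟨hA0, hAN, hA⟩, hB0, hBN⟩
  by_cases hB : Nice N m P₀ B
  swap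
  · right; left
    exact ⟨⟨hA0, hAN⟩, hB0, hBN, hB⟩
  right; right
  have hN : 0 < N := by omega
  have hAx : A ^ x ≤ N ^ X := (Nat.pow_le_pow_left hAN x).trans (Nat.pow_le_pow_right hN hxX)
  have hBy : B ^ y ≤ N ^ X := (Nat.pow_le_pow_left hBN y).trans (Nat.pow_le_pow_right hN hyX)
  have hT : C ^ w ≤ 2 * N ^ X := by
    rcases h with h | h | h <;> omega
  obtain ⟨q, C', hq, hqQ, hC'⟩ := reduce hw hC rfl hT
  have hC'' : (C' : ℤ) ^ q = ((C ^ w : ℕ) : ℤ) := by exact_mod_cast hC'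
  simp only [Set.mem_iUnion, exists_prop]
  have hind : ∀ (u v : ℕ) (s : ℤ), 0 < u → 0 < v → u ≤ X → v ≤ X → (s = 1 ∨ s = -1) →
      ((u, v), q, s) ∈ Ind N X := by
    intro u v s hu hv huX hvX hs
    unfold Ind
    simp only [Finset.mem_product, Finset.mem_Icc, Finset.mem_filter, Finset.mem_range,
      Finset.mem_insert, Finset.mem_singleton]
    exact ⟨⟨⟨hu, huX⟩, hv, hvX⟩, ⟨hqQ, hq⟩, hs⟩
  rcases le_total (A ^ x) (B ^ y) with hle | hle
  · -- `B ^ y` is the larger one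
    have hsol : ∀ s : ℤ, ((C' : ℤ) ^ q = (B : ℤ) ^ y + s * (A : ℤ) ^ x) → (s = 1 ∨ s = -1) →
        ∃ i ∈ Ind N X, (A, B) ∈ BPairs N m P₀ i.1.1 i.1.2 i.2.1 i.2.2 := by
      intro s hs hs1
      refine ⟨((x, y), q, s), hind x y s hx hy hxX hyX hs1, Or.inl ?_⟩
      exact ⟨hA0, hAN, hB0, hBN, hcop, hB, hle, C', hs⟩
    rcases h with h | h | h
    · apply hsol 1 _ (Or.inl rfl)
      rw [hC'', ← h]; push_cast; ring
    · apply hsol (-1) _ (Or.inr rfl)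
      rw [hC'']
      have h2 : ((A ^ x + C ^ w : ℕ) : ℤ) = ((B ^ y : ℕ) : ℤ) := by rw [h]
      push_cast at h2 ⊢
      linarith
    · exfalso
      have : 0 < C ^ w := by positivity
      omega
  · have hsol : ∀ s : ℤ, ((C' : ℤ) ^ q = (A : ℤ) ^ x + s * (B : ℤ) ^ y) → (s = 1 ∨ s = -1) →
        ∃ i ∈ Ind N X, (A, B) ∈ BPairs N m P₀ i.1.1 i.1.2 i.2.1 i.2.2 := by
      intro s hs hs1
      refine ⟨((y, x), q, s), hind y x s hy hx hyX hxX hs1, Or.inr ?_⟩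
      exact ⟨(B, A), ⟨hB0, hBN, hA0, hAN, hcop.symm, hA, hle, C', hs⟩, rfl⟩
    rcases h with h | h | h
    · apply hsol 1 _ (Or.inl rfl)
      rw [hC'', ← h]; push_cast; ring
    · exfalso
      have : 0 < C ^ w := by positivity
      omega
    · apply hsol (-1) _ (Or.inr rfl)
      rw [hC'']
      have h2 : ((B ^ y + C ^ w : ℕ) : ℤ) = ((A ^ x : ℕ) : ℤ) := by rw [h]
      push_cast at h2 ⊢
      linarith

theorem bpairs_card {N m P₀ x y q : ℕ} {s : ℤ} {K : ℕ}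
    (h : (Pairs N m P₀ x y q s).Finite ∧ (Pairs N m P₀ x y q s).ncard ≤ K) :
    (BPairs N m P₀ x y q s).Finite ∧ (BPairs N m P₀ x y q s).ncard ≤ 2 * K := by
  refine ⟨h.1.union (h.1.image _), ?_⟩
  calc (BPairs N m P₀ x y q s).ncard ≤ (Pairs N m P₀ x y q s).ncard +
        (Prod.swap '' Pairs N m P₀ x y q s).ncard := Set.ncard_union_le _ _
    _ ≤ K + K := by
        refine Nat.add_le_add h.2 ?_
        exact (Set.ncard_image_le h.1).trans h.2
    _ = 2 * K := by ring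

/-- The finite bound. -/
theorem bad_card {N m P₀ X q₁ K : ℕ} (hm : 0 < m) (hN : 0 < N) (h1 : 2 * N < 2 ^ q₁)
    (hP : P₀ < q₁) (hy : q₁ ≤ yy N m)
    (hK : ({B : ℕ | 0 < B ∧ B ≤ N ∧ ¬ Nice N m P₀ B}.ncard) ≤ K) :
    (Bad N X).ncard ≤ 2 * (K * N) +
      4 * X ^ 2 * (q₁ * (N * (N / (yy N m + 1)) * q₁ ^ m) + QQ N X * (N * P₀)) := by
  classical
  set S : Set ℕ := {B : ℕ | 0 < B ∧ B ≤ N ∧ ¬ Nice N m P₀ B} with hS
  have hSfin : S.Finite := (Set.finite_Icc 0 N).subset (fun B hB => ⟨Nat.zero_le _, hB.2.1⟩)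
  set bd : ℕ → ℕ := fun q => if q < q₁ then N * (N / (yy N m + 1)) * q₁ ^ m else N * P₀ with hbd
  have hbp : ∀ i ∈ Ind N X, (BPairs N m P₀ i.1.1 i.1.2 i.2.1 i.2.2).Finite ∧
      (BPairs N m P₀ i.1.1 i.1.2 i.2.1 i.2.2).ncard ≤ 2 * bd i.2.1 := by
    rintro ⟨⟨x, y⟩, q, s⟩ hi
    unfold Ind at hi
    simp only [Finset.mem_product, Finset.mem_Icc, Finset.mem_filter, Finset.mem_range,
      Finset.mem_insert, Finset.mem_singleton] at hi
    obtain ⟨⟨⟨hx, hxX⟩, hy0, hyX⟩, ⟨hqQ, hq⟩, hs⟩ := hi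
    apply bpairs_card
    simp only [hbd]
    split_ifs with hlt
    · have h2 := pairs_small (P₀ := P₀) (x := x) hs hm hN hy0 hq (hlt.le.trans hy)
      refine ⟨h2.1, h2.2.trans ?_⟩
      apply Nat.mul_le_mul_left
      exact Nat.pow_le_pow_left hlt.le m
    · push Not at hlt
      exact pairs_large (m := m) (x := x) hs hy0 hq (by omega)
        (h1.trans_le (Nat.pow_le_pow_right (by norm_num) hlt))
  have hU : (⋃ i ∈ Ind N X, BPairs N m P₀ i.1.1 i.1.2 i.2.1 i.2.2).ncard ≤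
      ∑ i ∈ Ind N X, 2 * bd i.2.1 := by
    have e1 : ∀ (T : Finset ((ℕ × ℕ) × ℕ × ℤ)), T ⊆ Ind N X →
        (⋃ i ∈ T, BPairs N m P₀ i.1.1 i.1.2 i.2.1 i.2.2).ncard ≤ ∑ i ∈ T, 2 * bd i.2.1 := by
      intro T
      induction T using Finset.induction_on with
      | empty => intro _; simp
      | insert a T ha ih =>
        intro hT
        rw [Finset.set_biUnion_insert, Finset.sum_insert ha]
        refine (Set.ncard_union_le _ _).trans ?_
        exact Nat.add_le_add (hbp a (hT (Finset.mem_insert_self _ _))).2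
          (ih (fun i hi => hT (Finset.mem_insert_of_mem hi)))
    exact e1 _ (Finset.Subset.refl _)
  have hUfin : (⋃ i ∈ Ind N X, BPairs N m P₀ i.1.1 i.1.2 i.2.1 i.2.2).Finite :=
    Set.Finite.biUnion (Finset.finite_toSet _) (fun i hi => (hbp i hi).1)
  have hIcc : (Set.Icc 1 N).ncard = N := by
    rw [← Finset.coe_Icc, Set.ncard_coe_finset, Nat.card_Icc, Nat.add_sub_cancel]
  have hsum : ∑ i ∈ Ind N X, 2 * bd i.2.1 ≤
      4 * X ^ 2 * (q₁ * (N * (N / (yy N m + 1)) * q₁ ^ m) + QQ N X * (N * P₀)) := by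
    unfold Ind
    rw [Finset.sum_product]
    simp only [Finset.sum_const, Finset.card_product, Nat.card_Icc, Nat.add_sub_cancel]
    rw [Finset.sum_product]
    simp only [Finset.sum_const]
    have hc : ({1, -1} : Finset ℤ).card = 2 := by decide
    rw [hc]
    simp only [smul_eq_mul]
    have e2 : ∑ q ∈ (Finset.range (QQ N X)).filter Nat.Prime, 2 * (2 * bd q) ≤
        4 * (q₁ * (N * (N / (yy N m + 1)) * q₁ ^ m) + QQ N X * (N * P₀)) := by
      calc ∑ q ∈ (Finset.range (QQ N X)).filter Nat.Prime, 2 * (2 * bd q)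
          ≤ ∑ q ∈ Finset.range (QQ N X), 2 * (2 * bd q) :=
            Finset.sum_le_sum_of_subset (Finset.filter_subset _ _)
        _ ≤ ∑ q ∈ Finset.range (QQ N X), (4 * (if q < q₁ then N * (N / (yy N m + 1)) * q₁ ^ m else 0)
              + 4 * (N * P₀)) := by
            apply Finset.sum_le_sum
            intro q _
            simp only [hbd]
            split_ifs <;> omega
        _ = 4 * ∑ q ∈ Finset.range (QQ N X), (if q < q₁ then N * (N / (yy N m + 1)) * q₁ ^ m else 0)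
              + QQ N X * (4 * (N * P₀)) := by
            rw [Finset.sum_add_distrib, ← Finset.mul_sum, Finset.sum_const, Finset.card_range,
              smul_eq_mul]
        _ ≤ 4 * (q₁ * (N * (N / (yy N m + 1)) * q₁ ^ m)) + QQ N X * (4 * (N * P₀)) := by
            apply Nat.add_le_add_right
            apply Nat.mul_le_mul_left
            rw [← Finset.sum_filter, Finset.sum_const, smul_eq_mul]
            apply Nat.mul_le_mul_right
            calc ((Finset.range (QQ N X)).filter (fun q => q < q₁)).card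
                ≤ (Finset.range q₁).card := by
                  apply Finset.card_le_card
                  intro q hq
                  rw [Finset.mem_filter] at hq
                  exact Finset.mem_range.mpr hq.2
              _ = q₁ := Finset.card_range _
        _ = _ := by ring
    calc X * X * ∑ q ∈ (Finset.range (QQ N X)).filter Nat.Prime, 2 * (2 * bd q)
        ≤ X * X * (4 * (q₁ * (N * (N / (yy N m + 1)) * q₁ ^ m) + QQ N X * (N * P₀))) :=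
          Nat.mul_le_mul_left _ e2
      _ = _ := by ring
  have h2 : (Bad N X).ncard ≤ (S ×ˢ Set.Icc 1 N ∪ (Set.Icc 1 N ×ˢ S ∪
      ⋃ i ∈ Ind N X, BPairs N m P₀ i.1.1 i.1.2 i.2.1 i.2.2)).ncard :=
    Set.ncard_le_ncard (bad_subset (N := N) (m := m) (P₀ := P₀) (X := X))
    (((hSfin.prod (Set.finite_Icc 1 N))).union ((((Set.finite_Icc 1 N).prod hSfin)).union hUfin))
  have h3 := Set.ncard_union_le (S ×ˢ Set.Icc 1 N) ((Set.Icc 1 N ×ˢ S) ∪
        ⋃ i ∈ Ind N X, BPairs N m P₀ i.1.1 i.1.2 i.2.1 i.2.2)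
  have h4 := Set.ncard_union_le (Set.Icc 1 N ×ˢ S)
        (⋃ i ∈ Ind N X, BPairs N m P₀ i.1.1 i.1.2 i.2.1 i.2.2)
  rw [Set.ncard_prod, hIcc] at h3
  rw [Set.ncard_prod, hIcc] at h4
  have h5 : S.ncard * N ≤ K * N := Nat.mul_le_mul_right _ hK
  have h6 : N * S.ncard ≤ K * N := by rw [mul_comm]; exact h5
  omega

/-- For almost all coprime pairs `(A, B)` of integers up to `N`, no number `|A^x ± B^y|` with
`x, y ≤ N^c` is a perfect power. -/
theorem main : ∀ ε : ℝ, 0 < ε → ∃ c : ℝ, 0 < c ∧ ∃ N₀ : ℕ, ∀ N : ℕ, N₀ ≤ N → ∀ X : ℕ,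
    (X : ℝ) ≤ (N : ℝ) ^ c → ((Bad N X).ncard : ℝ) ≤ ε * (N : ℝ) ^ 2 := by
  intro ε hε
  obtain ⟨m, hm, P₀, N₁, hN₁⟩ := nice_density (ε := ε / 4) (by positivity)
  have hm1 : (1 : ℝ) ≤ m := by exact_mod_cast hm
  set c : ℝ := 1 / (4 * m) with hc
  have hcpos : 0 < c := by positivity
  have hc4 : c ≤ 1 / 4 := by
    rw [hc]
    apply one_div_le_one_div_of_le (by norm_num)
    linarith
  refine ⟨c, hcpos, ?_⟩
  have hnat : Tendsto (fun N : ℕ => (N : ℝ)) atTop atTop := tendsto_natCast_atTop_atTop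
  have hlog : Tendsto (fun N : ℕ => Real.log N) atTop atTop := Real.tendsto_log_atTop.comp hnat
  -- small `q`
  have o1 := (isLittleO_log_rpow_rpow_atTop ((m : ℝ) + 1) (show 0 < 2 * c by positivity))
  have o1' := (o1.comp_tendsto hnat).bound (show 0 < ε / (16 * 4 ^ (m + 1)) by positivity)
  -- large `q`
  have o2 := (isLittleO_log_rpow_rpow_atTop (1 : ℝ) (show (0 : ℝ) < 1 / 4 by norm_num))
  have o2' := (o2.comp_tendsto hnat).bound (show 0 < ε / (100 * (P₀ + 1)) by positivity)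
  -- `q₁ ≤ yy`
  have o3 := (isLittleO_log_rpow_rpow_atTop (1 : ℝ) (show 0 < 1 / (m : ℝ) by positivity))
  have o3' := (o3.comp_tendsto hnat).bound (show (0 : ℝ) < 1 / 4 by norm_num)
  have o4 := hlog.eventually (eventually_ge_atTop (max 1 (P₀ : ℝ)))
  obtain ⟨N₂, hN₂⟩ := eventually_atTop.mp ((((o1'.and o2').and o3').and o4).and (eventually_ge_atTop 2))
  refine ⟨max N₁ N₂, fun N hN X hX => ?_⟩
  obtain ⟨⟨⟨⟨b1, b2⟩, b3⟩, b4⟩, hN2⟩ := hN₂ N ((le_max_right _ _).trans hN)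
  have hK := hN₁ N ((le_max_left _ _).trans hN)
  have hN2R : (2 : ℝ) ≤ N := by exact_mod_cast hN2
  have hNR : (0 : ℝ) < N := by linarith
  have hNpos : 0 < N := by omega
  set L := Real.log N with hL
  have hL1 : 1 ≤ L := (le_max_left _ _).trans b4
  have hLP : (P₀ : ℝ) ≤ L := (le_max_right _ _).trans b4
  have hLpos : 0 < L := by linarith
  simp only [Function.comp, ← hL, Real.norm_eq_abs] at b1 b2 b3
  rw [abs_of_nonneg (Real.rpow_nonneg hLpos.le _), abs_of_nonneg (Real.rpow_nonneg hNR.le _)] at b1 b2 b3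
  rw [Real.rpow_one] at b2 b3
  have b1' : L ^ (m + 1) ≤ ε / (16 * 4 ^ (m + 1)) * (N : ℝ) ^ (2 * c) := by
    have : L ^ ((m : ℝ) + 1) = L ^ (m + 1) := by
      rw [← Real.rpow_natCast]; push_cast; rfl
    rw [← this]; exact b1
  -- the parameter `q₁`
  set q₁ : ℕ := Nat.log 2 N + 2 with hq₁
  have hlog2 : (Nat.log 2 N : ℝ) ≤ 3 / 2 * L := by
    have e1 : (2 : ℝ) ^ (Nat.log 2 N) ≤ N := by exact_mod_cast Nat.pow_log_le_self 2 (by omega)
    have e2 := Real.log_le_log (by positivity) e1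
    rw [Real.log_pow, ← hL] at e2
    have e3 := Real.log_two_gt_d9
    have e4 : (Nat.log 2 N : ℝ) * (2 / 3) ≤ Nat.log 2 N * Real.log 2 := by
      apply mul_le_mul_of_nonneg_left _ (by positivity)
      linarith
    linarith
  have hlogP : P₀ < q₁ := by
    have e1 : N < 2 ^ (Nat.log 2 N + 1) := Nat.lt_pow_succ_log_self (by norm_num) N
    have e2 : (N : ℝ) < 2 ^ (Nat.log 2 N + 1) := by exact_mod_cast e1
    have e3 := Real.log_lt_log hNR e2
    rw [Real.log_pow, ← hL] at e3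
    have e4 : Real.log 2 ≤ 1 := by have := Real.log_two_lt_d9; linarith
    have e5 : L < Nat.log 2 N + 1 := by
      calc L < ((Nat.log 2 N + 1 : ℕ) : ℝ) * Real.log 2 := e3
        _ ≤ ((Nat.log 2 N + 1 : ℕ) : ℝ) * 1 := by gcongr
        _ = _ := by push_cast; ring
    have e6 : (P₀ : ℝ) < (Nat.log 2 N + 1 : ℕ) := by push_cast; linarith
    have e7 : P₀ < Nat.log 2 N + 1 := by exact_mod_cast e6
    omega
  have hq4 : (q₁ : ℝ) ≤ 4 * L := by
    rw [hq₁]; push_cast; linarith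
  have h2N : 2 * N < 2 ^ q₁ := by
    have e1 : N < 2 ^ (Nat.log 2 N + 1) := Nat.lt_pow_succ_log_self (by norm_num) N
    rw [hq₁, show Nat.log 2 N + 2 = (Nat.log 2 N + 1) + 1 by ring, pow_succ]
    omega
  have hyy : q₁ ≤ yy N m := by
    unfold yy
    apply Nat.le_floor
    linarith
  -- the bound for the non-nice integers
  set K : ℕ := {B : ℕ | 0 < B ∧ B ≤ N ∧ ¬ Nice N m P₀ B}.ncard with hKdef
  have hfin := bad_card (N := N) (m := m) (P₀ := P₀) (X := X) (q₁ := q₁) (K := K) hm hNpos h2N hlogP hyy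
    hKdef.ge
  have hfinR : ((Bad N X).ncard : ℝ) ≤ 2 * (K * N) +
      4 * (X : ℝ) ^ 2 * (q₁ * (N * ((N / (yy N m + 1) : ℕ) : ℝ) * (q₁ : ℝ) ^ m) +
        (QQ N X : ℝ) * (N * P₀)) := by exact_mod_cast hfin
  -- estimates
  have hD : ((N / (yy N m + 1) : ℕ) : ℝ) ≤ (N : ℝ) ^ (1 - 4 * c) := by
    have e1 : ((N / (yy N m + 1) : ℕ) : ℝ) ≤ (N : ℝ) / ((yy N m + 1 : ℕ) : ℝ) := Nat.cast_div_le
    have e2 : (N : ℝ) ^ ((1 : ℝ) / m) < (yy N m : ℝ) + 1 := Nat.lt_floor_add_one _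
    have e3 : (1 : ℝ) / m = 4 * c := by rw [hc]; field_simp
    rw [e3] at e2
    have e4 : (0 : ℝ) < (N : ℝ) ^ (4 * c) := Real.rpow_pos_of_pos hNR _
    calc ((N / (yy N m + 1) : ℕ) : ℝ) ≤ (N : ℝ) / ((yy N m + 1 : ℕ) : ℝ) := e1
      _ ≤ (N : ℝ) / (N : ℝ) ^ (4 * c) := by
          apply div_le_div_of_nonneg_left hNR.le e4
          push_cast; exact e2.le
      _ = _ := by rw [Real.rpow_sub hNR, Real.rpow_one]
  have hXnn : (0 : ℝ) ≤ X := by positivity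
  have hX2 : (X : ℝ) ^ 2 ≤ (N : ℝ) ^ (2 * c) := by
    calc (X : ℝ) ^ 2 ≤ ((N : ℝ) ^ c) ^ 2 := pow_le_pow_left₀ hXnn hX 2
      _ = _ := by rw [← Real.rpow_natCast, ← Real.rpow_mul hNR.le]; congr 1; push_cast; ring
  have hX3 : (X : ℝ) ^ 3 ≤ (N : ℝ) ^ (3 * c) := by
    calc (X : ℝ) ^ 3 ≤ ((N : ℝ) ^ c) ^ 3 := pow_le_pow_left₀ hXnn hX 3
      _ = _ := by rw [← Real.rpow_natCast, ← Real.rpow_mul hNR.le]; congr 1; push_cast; ring
  -- first term
  have T1 : 4 * (X : ℝ) ^ 2 * (q₁ * (N * ((N / (yy N m + 1) : ℕ) : ℝ) * (q₁ : ℝ) ^ m)) ≤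
      (ε / 4) * (N : ℝ) ^ 2 := by
    have e1 : (q₁ : ℝ) ^ (m + 1) ≤ 4 ^ (m + 1) * L ^ (m + 1) := by
      rw [← mul_pow]
      exact pow_le_pow_left₀ (by positivity) hq4 _
    calc 4 * (X : ℝ) ^ 2 * (q₁ * (N * ((N / (yy N m + 1) : ℕ) : ℝ) * (q₁ : ℝ) ^ m))
        = 4 * (X : ℝ) ^ 2 * N * ((N / (yy N m + 1) : ℕ) : ℝ) * (q₁ : ℝ) ^ (m + 1) := by ring
      _ ≤ 4 * (N : ℝ) ^ (2 * c) * N * (N : ℝ) ^ (1 - 4 * c) *
            (4 ^ (m + 1) * (ε / (16 * 4 ^ (m + 1)) * (N : ℝ) ^ (2 * c))) := by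
          have e2 : (q₁ : ℝ) ^ (m + 1) ≤ 4 ^ (m + 1) * (ε / (16 * 4 ^ (m + 1)) * (N : ℝ) ^ (2 * c)) :=
            e1.trans (by gcongr)
          gcongr
      _ = (ε / 4) * (N * ((N : ℝ) ^ (2 * c) * (N : ℝ) ^ (1 - 4 * c) * (N : ℝ) ^ (2 * c))) := by
          field_simp
          ring
      _ = (ε / 4) * (N : ℝ) ^ 2 := by
          rw [← Real.rpow_add hNR, ← Real.rpow_add hNR]
          have : 2 * c + (1 - 4 * c) + 2 * c = 1 := by ring
          rw [this, Real.rpow_one]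
          ring
  -- second term
  have T2 : 4 * (X : ℝ) ^ 2 * ((QQ N X : ℝ) * (N * P₀)) ≤ (ε / 4) * (N : ℝ) ^ 2 := by
    rcases Nat.eq_zero_or_pos X with h0 | h0
    · subst h0
      simp
      positivity
    · have hX1 : (1 : ℝ) ≤ X := by exact_mod_cast h0
      have e1 : (QQ N X : ℝ) ≤ X * (5 * L + 1) := by
        unfold QQ
        push_cast
        nlinarith
      have e2 : (5 : ℝ) * L + 1 ≤ 6 * L := by linarith
      have e3 : (QQ N X : ℝ) ≤ X * (6 * (ε / (100 * (P₀ + 1)) * (N : ℝ) ^ ((1 : ℝ) / 4))) := by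
        calc (QQ N X : ℝ) ≤ X * (5 * L + 1) := e1
          _ ≤ X * (6 * L) := by gcongr
          _ ≤ _ := by gcongr
      have e4 : (P₀ : ℝ) / (P₀ + 1) ≤ 1 := by
        rw [div_le_one (by positivity)]; linarith
      have e5 : (N : ℝ) ^ (3 * c) ≤ (N : ℝ) ^ ((3 : ℝ) / 4) :=
        Real.rpow_le_rpow_of_exponent_le (by linarith) (by linarith)
      calc 4 * (X : ℝ) ^ 2 * ((QQ N X : ℝ) * (N * P₀))
          ≤ 4 * (X : ℝ) ^ 2 * ((X * (6 * (ε / (100 * (P₀ + 1)) * (N : ℝ) ^ ((1 : ℝ) / 4)))) * (N * P₀)) := by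
            gcongr
        _ = (24 / 100) * ε * (P₀ / (P₀ + 1)) * (N * ((X : ℝ) ^ 3 * (N : ℝ) ^ ((1 : ℝ) / 4))) := by
            field_simp
            ring
        _ ≤ (24 / 100) * ε * 1 * (N * ((N : ℝ) ^ ((3 : ℝ) / 4) * (N : ℝ) ^ ((1 : ℝ) / 4))) := by
            gcongr
            exact hX3.trans e5
        _ = (24 / 100) * ε * (N : ℝ) ^ 2 := by
            rw [← Real.rpow_add hNR]
            have e6 : (3 : ℝ) / 4 + 1 / 4 = 1 := by norm_num
            rw [e6, Real.rpow_one]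
            ring
        _ ≤ _ := by
            apply mul_le_mul_of_nonneg_right _ (by positivity)
            linarith
  have T0 : 2 * ((K : ℝ) * N) ≤ (ε / 2) * (N : ℝ) ^ 2 := by
    calc 2 * ((K : ℝ) * N) ≤ 2 * ((ε / 4 * N) * N) := by gcongr
      _ = _ := by ring
  calc ((Bad N X).ncard : ℝ) ≤ _ := hfinR
    _ = 2 * (K * N) + (4 * (X : ℝ) ^ 2 * (q₁ * (N * ((N / (yy N m + 1) : ℕ) : ℝ) * (q₁ : ℝ) ^ m)) +
        4 * (X : ℝ) ^ 2 * ((QQ N X : ℝ) * (N * P₀))) := by ring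
    _ ≤ (ε / 2) * (N : ℝ) ^ 2 + ((ε / 4) * (N : ℝ) ^ 2 + (ε / 4) * (N : ℝ) ^ 2) := by linarith
    _ = ε * (N : ℝ) ^ 2 := by ring

end Pool.Agent.H374R2.Fc
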