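import Mathlib
import Pool.Agent.H374R2.CofA

/-!
Factorisations of `u^q ± v^q = B^y`.
-/

namespace Pool.Agent.H374R2.Gc

open Finset

/-- The properties of the factorisation `T = W * Q` of `T = u^q ± v^q`, `W = u ± v`. -/
structure Fac (q W Q T : ℕ) : Prop where
  mul : W * Q = T
  posW : 0 < W
  posQ : 0 < Q
  onemod : ∀ p : ℕ, p.Prime → p ∣ Q → p = q ∨ q ∣ p - 1
  cop : ∀ p : ℕ, p.Prime → p ∣ W → p ∣ Q → p = q
  size : W ^ (q - 1) ≤ 2 ^ (q - 1) * Q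

theorem sum_fac {q a c T : ℕ} (hq : q.Prime) (hq2 : q ≠ 2) (ha : 0 < a) (hc : 0 < c)
    (hac : Nat.Coprime a c) (h : a ^ q + c ^ q = T) :
    ∃ Q, Fac q (a + c) Q T ∧ Q ≤ (a + c) ^ (q - 1) := by
  obtain ⟨Q, hQ, hQp, hcop, -, -⟩ := Cof.cofactor hq hq2 hc hac
  have hq1 := hq.one_lt
  have hQpos : 0 < Q := by
    rcases Nat.eq_zero_or_pos Q with h0 | h0
    · subst h0
      rw [mul_zero] at hQ
      have : 0 < a ^ q := by positivity
      omega
    · exact h0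
  have hlow : (a + c) ^ (q - 1) ≤ 2 ^ (q - 1) * Q := by
    have h1 : (a + c) ^ q ≤ 2 ^ (q - 1) * (a ^ q + c ^ q) := add_pow_le (Nat.zero_le a) (Nat.zero_le c) q
    have h2 : (a + c) * (a + c) ^ (q - 1) ≤ (a + c) * (2 ^ (q - 1) * Q) := by
      rw [← pow_succ', Nat.sub_add_cancel (by omega)]
      calc (a + c) ^ q ≤ _ := h1
        _ = _ := by rw [← hQ]; ring
    exact Nat.le_of_mul_le_mul_left h2 (by omega)
  have hup : Q ≤ (a + c) ^ (q - 1) := by
    have h1 : a ^ q + c ^ q ≤ (a + c) ^ q := pow_add_pow_le (Nat.zero_le a) (Nat.zero_le c) hq.ne_zero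
    have h2 : (a + c) * Q ≤ (a + c) * (a + c) ^ (q - 1) := by
      rw [hQ, ← pow_succ', Nat.sub_add_cancel (by omega)]; exact h1
    exact Nat.le_of_mul_le_mul_left h2 (by omega)
  exact ⟨Q, ⟨hQ.trans h, by omega, hQpos, hQp, hcop, hlow⟩, hup⟩

theorem diff_fac {q u v T : ℕ} (hq : q.Prime) (hq2 : q ≠ 2) (hv : 0 < v) (hT : 0 < T)
    (huv : Nat.Coprime u v) (h : v ^ q + T = u ^ q) :
    ∃ W Q, u = v + W ∧ Fac q W Q T ∧ W ^ (q - 1) < Q ∧ Q ≤ q * u ^ (q - 1) ∧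
      (u : ℤ) ∣ (Q : ℤ) - (W : ℤ) ^ (q - 1) ∧ (v : ℤ) ∣ (Q : ℤ) - (W : ℤ) ^ (q - 1) := by
  have hq3 : 3 ≤ q := by have := hq.two_le; omega
  have hodd := hq.odd_of_ne_two hq2
  have hvu : v < u := by
    by_contra hcon
    push Not at hcon
    have := Nat.pow_le_pow_left hcon q
    omega
  obtain ⟨W, rfl⟩ := Nat.exists_eq_add_of_lt hvu
  set u : ℕ := v + W + 1 with hu
  set W' : ℕ := W + 1 with hW'
  have huW : u = v + W' := by omega
  set Q : ℕ := ∑ i ∈ range q, u ^ i * v ^ (q - 1 - i) with hQ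
  have hfac : (W' : ℤ) * Q = (T : ℤ) := by
    have h1 := (Commute.all (u : ℤ) (v : ℤ)).geom_sum₂_mul q
    have h2 : (Q : ℤ) = ∑ i ∈ range q, (u : ℤ) ^ i * (v : ℤ) ^ (q - 1 - i) := by
      rw [hQ]; push_cast; rfl
    have h3 : (u : ℤ) - v = W' := by rw [huW]; push_cast; ring
    rw [← h2, h3] at h1
    have h4 : (v : ℤ) ^ q + T = (u : ℤ) ^ q := by exact_mod_cast h
    rw [mul_comm, h1]
    linarith
  have hfacN : W' * Q = T := by exact_mod_cast hfac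
  have hQpos : 0 < Q := by
    rcases Nat.eq_zero_or_pos Q with h0 | h0
    · rw [h0, mul_zero] at hfacN; omega
    · exact h0
  have hQgt : u ^ (q - 1) < Q := by
    rw [hQ]
    have h1 : range q = insert (q - 1) (range (q - 1)) := by
      rw [← Finset.range_add_one, Nat.sub_add_cancel (by omega)]
    rw [h1, Finset.sum_insert (by simp)]
    have h2 : u ^ (q - 1) * v ^ (q - 1 - (q - 1)) = u ^ (q - 1) := by simp
    rw [h2]
    have h3 : 0 < ∑ i ∈ range (q - 1), u ^ i * v ^ (q - 1 - i) := by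
      apply Finset.sum_pos
      · intro i _
        positivity
      · rw [Finset.nonempty_range_iff]; omega
    omega
  have hWu : W' ≤ u := by omega
  have key : ∀ p : ℕ, p.Prime → p ∣ W' → p ∣ Q → p = q := by
    intro p hp h1 h2
    have hpZ : Prime (p : ℤ) := Nat.prime_iff_prime_int.mp hp
    have h3 : (p : ℤ) ∣ (u : ℤ) - v := by
      have : (u : ℤ) - v = W' := by rw [huW]; push_cast; ring
      rw [this]; exact_mod_cast h1
    have h4 : (p : ℤ) ∣ ∑ i ∈ range q, (u : ℤ) ^ i * (v : ℤ) ^ (q - 1 - i) := by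
      have : (Q : ℤ) = ∑ i ∈ range q, (u : ℤ) ^ i * (v : ℤ) ^ (q - 1 - i) := by
        rw [hQ]; push_cast; rfl
      rw [← this]; exact_mod_cast h2
    have h5 := (dvd_geom_sum₂_iff_of_dvd_sub (n := q) h3).mp h4
    rcases hpZ.dvd_or_dvd h5 with h6 | h6
    · have h7 : p ∣ q := by exact_mod_cast h6
      exact (Nat.prime_dvd_prime_iff_eq hp hq).mp h7
    · exfalso
      have h7 : p ∣ v := by exact_mod_cast hpZ.dvd_of_dvd_pow h6
      have h8 : p ∣ u := by rw [huW]; exact dvd_add h7 h1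
      exact hp.not_dvd_one (huv ▸ Nat.dvd_gcd h8 h7)
  refine ⟨W', Q, huW, ⟨hfacN, by omega, hQpos, ?_, key, ?_⟩, ?_, ?_, ?_, ?_⟩
  · intro p hp hpQ
    by_cases h1 : p ∣ W'
    · exact Or.inl (key p hp h1 hpQ)
    · right
      have : Fact p.Prime := ⟨hp⟩
      have hpv : ¬ p ∣ v := by
        intro h3
        have h4 : p ∣ v ^ q := h3.trans (dvd_pow_self v hq.ne_zero)
        have h5 : p ∣ T := hfacN ▸ Dvd.dvd.mul_left hpQ _
        have h6 : p ∣ u ^ q := h ▸ dvd_add h4 h5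
        have h7 : p ∣ u := hp.dvd_of_dvd_pow h6
        exact hp.not_dvd_one (huv ▸ Nat.dvd_gcd h7 h3)
      have hv0 : (v : ZMod p) ≠ 0 := by rwa [Ne, ZMod.natCast_eq_zero_iff]
      have hT0 : (T : ZMod p) = 0 := by
        rw [ZMod.natCast_eq_zero_iff]
        exact hfacN ▸ Dvd.dvd.mul_left hpQ _
      have h3 : (v : ZMod p) ^ q = (u : ZMod p) ^ q := by
        have := congrArg (fun n : ℕ => (n : ZMod p)) h
        push_cast at this
        rw [hT0, add_zero] at this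
        exact this
      have : Fact q.Prime := ⟨hq⟩
      set t : ZMod p := (u : ZMod p) / v with ht
      have ht1 : t ^ q = 1 := by
        rw [ht, div_pow, div_eq_one_iff_eq (pow_ne_zero _ hv0)]
        exact h3.symm
      have ht2 : t ≠ 1 := by
        intro h8
        rw [ht, div_eq_one_iff_eq hv0] at h8
        apply h1
        rw [← ZMod.natCast_eq_zero_iff]
        have h9 : (u : ZMod p) = (v : ZMod p) + (W' : ZMod p) := by
          rw [huW]; push_cast; rfl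
        rw [h9] at h8
        simpa using h8
      have ht3 : orderOf t = q := orderOf_eq_prime ht1 ht2
      have ht0 : t ≠ 0 := by
        intro h8
        rw [h8, zero_pow hq.ne_zero] at ht1
        exact zero_ne_one ht1
      rw [← ht3]
      exact orderOf_dvd_of_pow_eq_one (ZMod.pow_card_sub_one_eq_one ht0)
  · calc W' ^ (q - 1) ≤ u ^ (q - 1) := Nat.pow_le_pow_left hWu _
      _ ≤ Q := hQgt.le
      _ ≤ 2 ^ (q - 1) * Q := Nat.le_mul_of_pos_left _ (by positivity)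
  · exact (Nat.pow_le_pow_left hWu _).trans_lt hQgt
  · rw [hQ]
    calc ∑ i ∈ range q, u ^ i * v ^ (q - 1 - i) ≤ ∑ _i ∈ range q, u ^ (q - 1) := by
          apply Finset.sum_le_sum
          intro i hi
          rw [Finset.mem_range] at hi
          calc u ^ i * v ^ (q - 1 - i) ≤ u ^ i * u ^ (q - 1 - i) :=
                Nat.mul_le_mul_left _ (Nat.pow_le_pow_left hvu.le _)
            _ = u ^ (q - 1) := by rw [← pow_add]; congr 1; omega
      _ = q * u ^ (q - 1) := by rw [Finset.sum_const, Finset.card_range, smul_eq_mul]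
  · -- modulo `u`
    have h2 : (Q : ℤ) = (v : ℤ) ^ (q - 1) + ∑ i ∈ (range q).erase 0, (u : ℤ) ^ i * (v : ℤ) ^ (q - 1 - i) := by
      rw [hQ]; push_cast
      rw [← Finset.add_sum_erase (range q) _ (Finset.mem_range.mpr hq.pos)]
      simp
    have h3 : (u : ℤ) ∣ ∑ i ∈ (range q).erase 0, (u : ℤ) ^ i * (v : ℤ) ^ (q - 1 - i) := by
      apply Finset.dvd_sum
      intro i hi
      exact Dvd.dvd.mul_right (dvd_pow_self _ (Finset.mem_erase.mp hi).1) _
    have h4 : (u : ℤ) ∣ (v : ℤ) ^ (q - 1) - (W' : ℤ) ^ (q - 1) := by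
      have h5 : (W' : ℤ) ^ (q - 1) = (-(W' : ℤ)) ^ (q - 1) := by
        rw [Even.neg_pow]
        obtain ⟨k, hk⟩ := hodd
        exact ⟨k, by omega⟩
      rw [h5]
      have h6 : (u : ℤ) = (v : ℤ) - (-(W' : ℤ)) := by rw [huW]; push_cast; ring
      rw [h6]
      exact sub_dvd_pow_sub_pow _ _ _
    rw [h2]
    have h7 : (v : ℤ) ^ (q - 1) + ∑ i ∈ (range q).erase 0, (u : ℤ) ^ i * (v : ℤ) ^ (q - 1 - i) - (W' : ℤ) ^ (q - 1)
      = ((v : ℤ) ^ (q - 1) - (W' : ℤ) ^ (q - 1)) + ∑ i ∈ (range q).erase 0, (u : ℤ) ^ i * (v : ℤ) ^ (q - 1 - i) := by ring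
    rw [h7]
    exact dvd_add h4 h3
  · -- modulo `v`
    have h1 : range q = insert (q - 1) (range (q - 1)) := by
      rw [← Finset.range_add_one, Nat.sub_add_cancel (by omega)]
    have h2 : (Q : ℤ) = (u : ℤ) ^ (q - 1) + ∑ i ∈ range (q - 1), (u : ℤ) ^ i * (v : ℤ) ^ (q - 1 - i) := by
      rw [hQ]; push_cast
      rw [h1, Finset.sum_insert (by simp)]
      simp
    have h3 : (v : ℤ) ∣ ∑ i ∈ range (q - 1), (u : ℤ) ^ i * (v : ℤ) ^ (q - 1 - i) := by
      apply Finset.dvd_sum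
      intro i hi
      rw [Finset.mem_range] at hi
      exact Dvd.dvd.mul_left (dvd_pow_self _ (by omega)) _
    have h4 : (v : ℤ) ∣ (u : ℤ) ^ (q - 1) - (W' : ℤ) ^ (q - 1) := by
      have h6 : (v : ℤ) = (u : ℤ) - (W' : ℤ) := by rw [huW]; push_cast; ring
      rw [h6]
      exact sub_dvd_pow_sub_pow _ _ _
    rw [h2]
    have h7 : (u : ℤ) ^ (q - 1) + ∑ i ∈ range (q - 1), (u : ℤ) ^ i * (v : ℤ) ^ (q - 1 - i) - (W' : ℤ) ^ (q - 1)
      = ((u : ℤ) ^ (q - 1) - (W' : ℤ) ^ (q - 1)) + ∑ i ∈ range (q - 1), (u : ℤ) ^ i * (v : ℤ) ^ (q - 1 - i) := by ring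
    rw [h7]
    exact dvd_add h4 h3

/-- A prime of `B` which does not divide `Q` is small. -/
theorem Fac.prime_small {q W Q B y N p : ℕ} (h : Fac q W Q (B ^ y)) (hq : 0 < q) (hy : 0 < y)
    (hBN : B ≤ N) (hp : p.Prime) (hpB : p ∣ B) (hpQ : ¬ p ∣ Q) :
    p ^ q ≤ 2 ^ (q - 1) * N ∧ p ^ y ≤ W := by
  have h1 : p ^ y ∣ W * Q := by rw [h.mul]; exact pow_dvd_pow_of_dvd hpB y
  have h2 : Nat.Coprime (p ^ y) Q := Nat.Coprime.pow_left y ((Nat.Prime.coprime_iff_not_dvd hp).mpr hpQ)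
  have h3 : p ^ y ∣ W := h2.dvd_of_dvd_mul_right h1
  have h4 : p ^ y ≤ W := Nat.le_of_dvd h.posW h3
  refine ⟨?_, h4⟩
  have h5 : W ^ q ≤ 2 ^ (q - 1) * N ^ y := by
    calc W ^ q = W * W ^ (q - 1) := by rw [← pow_succ', Nat.sub_add_cancel hq]
      _ ≤ W * (2 ^ (q - 1) * Q) := Nat.mul_le_mul_left _ h.size
      _ = 2 ^ (q - 1) * (W * Q) := by ring
      _ = 2 ^ (q - 1) * B ^ y := by rw [h.mul]
      _ ≤ 2 ^ (q - 1) * N ^ y := Nat.mul_le_mul_left _ (Nat.pow_le_pow_left hBN y)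
  have h6 : (p ^ q) ^ y ≤ (2 ^ (q - 1) * N) ^ y := by
    calc (p ^ q) ^ y = (p ^ y) ^ q := by rw [← pow_mul, ← pow_mul, mul_comm]
      _ ≤ W ^ q := Nat.pow_le_pow_left h4 q
      _ ≤ 2 ^ (q - 1) * N ^ y := h5
      _ ≤ (2 ^ (q - 1)) ^ y * N ^ y := Nat.mul_le_mul_right _ (Nat.le_self_pow hy.ne' _)
      _ = _ := (mul_pow _ _ _).symm
  exact (Nat.pow_le_pow_iff_left hy.ne').mp h6

/-- If `q` does not divide `B`, both factors are `y`-th powers. -/
theorem Fac.split {q W Q B y : ℕ} (h : Fac q W Q (B ^ y)) (hy : 0 < y) (hqB : ¬ q ∣ B) :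
    ∃ E F : ℕ, W = E ^ y ∧ Q = F ^ y ∧ B = E * F := by
  apply Cof.eq_pow_of_coprime _ h.mul hy
  apply Nat.coprime_of_dvd
  intro p hp h1 h2
  have h3 := h.cop p hp h1 h2
  subst h3
  apply hqB
  have h4 : p ∣ B ^ y := h.mul ▸ Dvd.dvd.mul_left h2 _
  exact hp.dvd_of_dvd_pow h4

/-- Lifting the exponent: if `r^k` divides `F^y - G^y` with `G < F ≤ N` and `r` an odd prime not
dividing `F`, `G`, then `k` is small. -/
theorem lte_bound {r F G y k N : ℕ} (hr : r.Prime) (hr2 : r ≠ 2) (hrF : ¬ r ∣ F) (hrG : ¬ r ∣ G)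
    (hGF : G < F) (hFN : F ≤ N) (hy : 0 < y) (h : ((r ^ k : ℕ) : ℤ) ∣ (F : ℤ) ^ y - (G : ℤ) ^ y) :
    2 ^ k ≤ N ^ (r - 1) * y := by
  have : Fact r.Prime := ⟨hr⟩
  set α : ℕ := F ^ (r - 1) with hα
  set β : ℕ := G ^ (r - 1) with hβ
  have hr1 : 0 < r - 1 := by have := hr.two_le; omega
  have hβα : β < α := Nat.pow_lt_pow_left hGF hr1.ne'
  have h1 : (F : ZMod r) ^ (r - 1) = 1 := ZMod.pow_card_sub_one_eq_one (by
    rwa [Ne, ZMod.natCast_eq_zero_iff])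
  have h2 : (G : ZMod r) ^ (r - 1) = 1 := ZMod.pow_card_sub_one_eq_one (by
    rwa [Ne, ZMod.natCast_eq_zero_iff])
  have hdvd : r ∣ α - β := by
    rw [← ZMod.natCast_eq_zero_iff, Nat.cast_sub hβα.le, hα, hβ]
    push_cast
    rw [h1, h2, sub_self]
  have hrα : ¬ r ∣ α := fun h => hrF (hr.dvd_of_dvd_pow h)
  have hpow : r ^ k ∣ α ^ y - β ^ y := by
    have e1 : (F : ℤ) ^ y - (G : ℤ) ^ y ∣ (α : ℤ) ^ y - (β : ℤ) ^ y := by
      have e2 : (α : ℤ) ^ y = ((F : ℤ) ^ y) ^ (r - 1) := by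
        rw [hα]; push_cast; rw [← pow_mul, ← pow_mul, mul_comm]
      have e3 : (β : ℤ) ^ y = ((G : ℤ) ^ y) ^ (r - 1) := by
        rw [hβ]; push_cast; rw [← pow_mul, ← pow_mul, mul_comm]
      rw [e2, e3]
      exact sub_dvd_pow_sub_pow _ _ _
    have e4 := h.trans e1
    have e5 : ((α ^ y - β ^ y : ℕ) : ℤ) = (α : ℤ) ^ y - (β : ℤ) ^ y := by
      rw [Nat.cast_sub (Nat.pow_le_pow_left hβα.le y)]
      push_cast; rfl
    rw [← e5] at e4
    exact_mod_cast e4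
  have hlte := padicValNat.pow_sub_pow (p := r) (hr.odd_of_ne_two hr2) hβα hdvd hrα hy.ne'
  have hne : α ^ y - β ^ y ≠ 0 := by
    have := Nat.pow_lt_pow_left hβα hy.ne'
    omega
  have hk : k ≤ padicValNat r (α ^ y - β ^ y) := (padicValNat_dvd_iff_le hne).mp hpow
  rw [hlte] at hk
  have h3 : r ^ padicValNat r (α - β) ≤ α := (Nat.le_of_dvd (by omega) pow_padicValNat_dvd).trans (Nat.sub_le _ _)
  have h4 : r ^ padicValNat r y ≤ y := Nat.le_of_dvd hy pow_padicValNat_dvd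
  calc 2 ^ k ≤ r ^ k := Nat.pow_le_pow_left hr.two_le k
    _ ≤ r ^ (padicValNat r (α - β) + padicValNat r y) := Nat.pow_le_pow_right hr.pos hk
    _ = r ^ padicValNat r (α - β) * r ^ padicValNat r y := pow_add _ _ _
    _ ≤ α * y := Nat.mul_le_mul h3 h4
    _ ≤ N ^ (r - 1) * y := Nat.mul_le_mul_right _ (Nat.pow_le_pow_left hFN _)

end Pool.Agent.H374R2.Gc
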