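import Mathlib
import Pool.Agent.H374R2.GcA

/-!
For a typical pair of bases the exponents are small when the exponent `z` and one of the other two
exponents share an odd prime factor `q` which does not divide the other base.
-/

namespace Pool.Agent.H374R2.Gc

open Finset

/-- The integers `B = E F` with `F` extremely close to `E^(q-1)`. -/
def NS (N Z Y : ℕ) : Set ℕ :=
  {B | 1 < B ∧ B ≤ N ∧ ∃ q y E F : ℕ, 3 ≤ q ∧ q ≤ Z ∧ Y ≤ y ∧ 0 < y ∧ B = E * F ∧
    F ^ y ≤ q * 2 ^ q * E ^ (y * (q - 1)) ∧ E ^ (y * (q - 1)) ≤ q * 2 ^ q * F ^ y}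

theorem aux_pow (t : ℕ) : (2 * t + 1) ^ 2 ≤ 9 * 2 ^ t := by
  induction t with
  | zero => norm_num
  | succ n ih =>
    rcases Nat.lt_or_ge n 2 with h | h
    · interval_cases n <;> norm_num
    · have h2 : 2 ^ (n + 1) = 2 * 2 ^ n := by ring
      rw [h2]
      nlinarith

/-- Case `a^q = A^(x'q)` is comparable with the largest term. -/
theorem lte_case {q A B N Z P₀ M x' y r W Q : ℕ} (hq : q.Prime) (hqZ : q ≤ Z)
    (hqB : ¬ q ∣ B) (hBN : B ≤ N) (hB0 : 0 < B) (hAB : Nat.Coprime A B)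
    (hN4 : 4 ≤ N) (hr : r.Prime) (hr2 : r ≠ 2) (hrA : r ∣ A) (hrP : r ≤ P₀) (hy : 0 < y)
    (hM : 9 * N ^ (2 * P₀) * Z ^ 2 < 2 ^ M) (hfac : Fac q W Q (B ^ y)) (hWQ : W ^ (q - 1) < Q)
    (hdvd : ((A ^ x' : ℕ) : ℤ) ∣ (Q : ℤ) - (W : ℤ) ^ (q - 1)) (hyx : y ≤ q * (2 * x' + 1)) :
    x' < M := by
  obtain ⟨E, F, hE, hF, hEF⟩ := hfac.split hy hqB
  have hq1 := hq.one_lt
  have hrB : ¬ r ∣ B := fun h => hr.not_dvd_one (hAB ▸ Nat.dvd_gcd hrA h)
  have hrE : ¬ r ∣ E := fun h => hrB (hEF ▸ Dvd.dvd.mul_right h _)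
  have hrF : ¬ r ∣ F := fun h => hrB (hEF ▸ Dvd.dvd.mul_left h _)
  have hE0 : 0 < E := by
    rcases Nat.eq_zero_or_pos E with h | h
    · rw [h, zero_mul] at hEF; omega
    · exact h
  have hF0 : 0 < F := by
    rcases Nat.eq_zero_or_pos F with h | h
    · rw [h, mul_zero] at hEF; omega
    · exact h
  have hFN : F ≤ N := by
    calc F ≤ E * F := Nat.le_mul_of_pos_left _ hE0
      _ ≤ N := by rw [← hEF]; exact hBN
  set G := E ^ (q - 1) with hG
  have hW : (W : ℤ) ^ (q - 1) = (G : ℤ) ^ y := by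
    rw [hE, hG]; push_cast; rw [← pow_mul, ← pow_mul, mul_comm]
  have hGF : G < F := by
    have h1 : G ^ y < F ^ y := by
      rw [← hF, hG, ← pow_mul, mul_comm, pow_mul, ← hE]; exact hWQ
    exact lt_of_pow_lt_pow_left₀ y (Nat.zero_le _) h1
  have hrG : ¬ r ∣ G := fun h => hrE (hr.dvd_of_dvd_pow h)
  have hd : ((r ^ x' : ℕ) : ℤ) ∣ (F : ℤ) ^ y - (G : ℤ) ^ y := by
    have h1 : ((r ^ x' : ℕ) : ℤ) ∣ ((A ^ x' : ℕ) : ℤ) := by
      exact_mod_cast pow_dvd_pow_of_dvd hrA x'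
    have h2 := h1.trans hdvd
    rw [hW, hF] at h2
    push_cast at h2 ⊢
    exact h2
  have hlte := lte_bound hr hr2 hrF hrG hGF hFN hy hd
  have h3 : 2 ^ x' ≤ N ^ P₀ * (Z * (2 * x' + 1)) := by
    refine hlte.trans (Nat.mul_le_mul ?_ ?_)
    · exact Nat.pow_le_pow_right (by omega) (by omega)
    · exact hyx.trans (Nat.mul_le_mul_right _ hqZ)
  have h4 : 2 ^ x' * 2 ^ x' ≤ (9 * N ^ (2 * P₀) * Z ^ 2) * 2 ^ x' := by
    calc 2 ^ x' * 2 ^ x' ≤ (N ^ P₀ * (Z * (2 * x' + 1))) * (N ^ P₀ * (Z * (2 * x' + 1))) :=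
          Nat.mul_le_mul h3 h3
      _ = N ^ (2 * P₀) * Z ^ 2 * (2 * x' + 1) ^ 2 := by
          rw [mul_comm 2 P₀, pow_mul]; ring
      _ ≤ N ^ (2 * P₀) * Z ^ 2 * (9 * 2 ^ x') := Nat.mul_le_mul_left _ (aux_pow x')
      _ = _ := by ring
  have h5 : 2 ^ x' ≤ 9 * N ^ (2 * P₀) * Z ^ 2 := Nat.le_of_mul_le_mul_right h4 (by positivity)
  exact (Nat.pow_lt_pow_iff_right (by norm_num)).mp (h5.trans_lt hM)

theorem pow_cmp {N A s t : ℕ} (hN : 2 ≤ N) (hA : N ≤ A ^ 2) (h : A ^ s ≤ N ^ t) : s ≤ 2 * t := by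
  have h1 : N ^ s ≤ N ^ (2 * t) := by
    calc N ^ s ≤ (A ^ 2) ^ s := Nat.pow_le_pow_left hA s
      _ = (A ^ s) ^ 2 := by rw [← pow_mul, ← pow_mul, mul_comm]
      _ ≤ (N ^ t) ^ 2 := Nat.pow_le_pow_left h 2
      _ = N ^ (2 * t) := by rw [← pow_mul, mul_comm]
  exact (Nat.pow_le_pow_iff_right (by omega)).mp h1

/-- The main deterministic statement. -/
theorem small_exponents {q A B N Z P₀ M X Y x' y c r : ℕ} (hq : q.Prime) (hq2 : q ≠ 2) (hqZ : q ≤ Z)
    (hqB : ¬ q ∣ B) (hAN : A ≤ N) (hBN : B ≤ N) (hA0 : 0 < A) (hB1 : 1 < B)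
    (hAB : Nat.Coprime A B)
    (hN4 : 4 ≤ N) (hAN2 : N ≤ A ^ 2) (hBN2 : N ≤ B ^ 2)
    (hr : r.Prime) (hr2 : r ≠ 2) (hrA : r ∣ A) (hrP : r ≤ P₀)
    (hM : 9 * N ^ (2 * P₀) * Z ^ 2 < 2 ^ M) (hX1 : 2 * Z * Y ≤ X) (hX2 : Z * (2 * M + 1) ≤ X)
    (hNS : B ∉ NS N Z Y) (hx' : 0 < x') (hy : 0 < y) (hc : 0 < c)
    (h : A ^ (q * x') + B ^ y = c ^ q ∨ A ^ (q * x') + c ^ q = B ^ y ∨ B ^ y + c ^ q = A ^ (q * x')) :
    q * x' ≤ X ∧ y ≤ X := by
  have hq3 : 3 ≤ q := by have := hq.two_le; omega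
  have hodd := hq.odd_of_ne_two hq2
  have hB0 : 0 < B := by omega
  set a := A ^ x' with ha
  have ha0 : 0 < a := by positivity
  have haq : A ^ (q * x') = a ^ q := by rw [ha, ← pow_mul, mul_comm]
  rw [haq] at h
  have haB : Nat.Coprime a B := Nat.Coprime.pow_left x' hAB
  have haBy : Nat.Coprime (a ^ q) (B ^ y) := Nat.Coprime.pow q y haB
  have hT0 : 0 < B ^ y := by positivity
  have hZ0 : 3 ≤ Z := hq3.trans hqZ
  -- final estimates
  have fin1 : ∀ M', x' < M → y ≤ q * (2 * x' + 1) → M' = M → q * x' ≤ X ∧ y ≤ X := by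
    intro M' h1 h2 _
    constructor
    · calc q * x' ≤ Z * (2 * M + 1) := Nat.mul_le_mul hqZ (by omega)
        _ ≤ X := hX2
    · calc y ≤ q * (2 * x' + 1) := h2
        _ ≤ Z * (2 * M + 1) := Nat.mul_le_mul hqZ (by omega)
        _ ≤ X := hX2
  rcases h with h | h | h
  · -- a^q + B^y = c^q
    have hca : Nat.Coprime c a := by
      have h1 : Nat.Coprime (a ^ q) (c ^ q) := by
        rw [← h]
        exact Nat.coprime_self_add_right.mpr haBy
      exact ((Nat.coprime_pow_left_iff hq.pos _ _).mp ((Nat.coprime_pow_right_iff hq.pos _ _).mp h1)).symm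
    obtain ⟨W, Q, hcW, hfac, hWQ, hQup, -, hdv⟩ := diff_fac hq hq2 ha0 hT0 hca h
    rcases Nat.lt_or_ge a W with haW | haW
    · -- structured
      obtain ⟨E, F, hE, hF, hEF⟩ := hfac.split hy hqB
      have hyY : y < Y := by
        by_contra hcon
        push Not at hcon
        apply hNS
        refine ⟨hB1, hBN, q, y, E, F, hq3, hqZ, hcon, hy, hEF, ?_, ?_⟩
        · rw [← hF]
          calc Q ≤ q * c ^ (q - 1) := hQup
            _ ≤ q * (2 * W) ^ (q - 1) := Nat.mul_le_mul_left _ (Nat.pow_le_pow_left (by omega) _)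
            _ = q * 2 ^ (q - 1) * W ^ (q - 1) := by rw [mul_pow]; ring
            _ ≤ q * 2 ^ q * W ^ (q - 1) := by
                apply Nat.mul_le_mul_right
                apply Nat.mul_le_mul_left
                exact Nat.pow_le_pow_right (by norm_num) (by omega)
            _ = q * 2 ^ q * E ^ (y * (q - 1)) := by rw [hE, ← pow_mul]
        · rw [← hF]
          calc E ^ (y * (q - 1)) = W ^ (q - 1) := by rw [hE, ← pow_mul]
            _ ≤ Q := hWQ.le
            _ ≤ q * 2 ^ q * Q := Nat.le_mul_of_pos_left _ (by positivity)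
      have hE0 : 0 < E := by
        rcases Nat.eq_zero_or_pos E with h | h
        · rw [h, zero_mul] at hEF; omega
        · exact h
      have hF0 : 0 < F := by
        rcases Nat.eq_zero_or_pos F with h | h
        · rw [h, mul_zero] at hEF; omega
        · exact h
      have hEN : E ≤ N := by
        calc E ≤ E * F := Nat.le_mul_of_pos_right _ hF0
          _ ≤ N := by rw [← hEF]; exact hBN
      have hx : x' ≤ 2 * y := by
        apply pow_cmp (by omega) hAN2
        rw [← ha]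
        calc a ≤ W := haW.le
          _ = E ^ y := hE
          _ ≤ N ^ y := Nat.pow_le_pow_left hEN y
      have h1 : q * x' ≤ 2 * Z * Y := by
        calc q * x' ≤ Z * (2 * Y) := Nat.mul_le_mul hqZ (by omega)
          _ = 2 * Z * Y := by ring
      refine ⟨h1.trans hX1, ?_⟩
      calc y ≤ 1 * Y := by omega
        _ ≤ 2 * Z * Y := Nat.mul_le_mul_right _ (by omega)
        _ ≤ X := hX1
    · have hyx : y ≤ q * (2 * x' + 1) := by
        have h1 : B ^ y ≤ N ^ (q + x' * q) := by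
          calc B ^ y ≤ c ^ q := by omega
            _ ≤ (2 * a) ^ q := Nat.pow_le_pow_left (by omega) q
            _ = 2 ^ q * a ^ q := mul_pow _ _ _
            _ ≤ N ^ q * (N ^ x') ^ q := by
                apply Nat.mul_le_mul (Nat.pow_le_pow_left (by omega) q)
                exact Nat.pow_le_pow_left (Nat.pow_le_pow_left hAN x') q
            _ = N ^ (q + x' * q) := by rw [← pow_mul, ← pow_add]
        -- use the sharper bound with `4 ≤ N`
        have h2 : N ^ y ≤ N ^ (q + 2 * (x' * q)) := by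
          calc N ^ y ≤ (B ^ 2) ^ y := Nat.pow_le_pow_left hBN2 y
            _ = (B ^ y) ^ 2 := by rw [← pow_mul, ← pow_mul, mul_comm]
            _ ≤ (2 ^ q * a ^ q) ^ 2 := by
                apply Nat.pow_le_pow_left
                calc B ^ y ≤ c ^ q := by omega
                  _ ≤ (2 * a) ^ q := Nat.pow_le_pow_left (by omega) q
                  _ = 2 ^ q * a ^ q := mul_pow _ _ _
            _ = 4 ^ q * (a ^ q) ^ 2 := by
                rw [mul_pow, ← pow_mul, mul_comm q 2, pow_mul]; norm_num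
            _ ≤ N ^ q * ((N ^ x') ^ q) ^ 2 := by
                apply Nat.mul_le_mul (Nat.pow_le_pow_left hN4 q)
                apply Nat.pow_le_pow_left
                exact Nat.pow_le_pow_left (Nat.pow_le_pow_left hAN x') q
            _ = N ^ (q + 2 * (x' * q)) := by
                rw [← pow_mul, ← pow_mul, ← pow_add]; congr 1; ring
        have h3 := (Nat.pow_le_pow_iff_right (by omega : 1 < N)).mp h2
        calc y ≤ q + 2 * (x' * q) := h3
          _ = q * (2 * x' + 1) := by ring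
      have hlt := lte_case (x' := x') (M := M) hq hqZ hqB hBN hB0 hAB hN4 hr hr2 hrA hrP hy hM hfac hWQ
        hdv hyx
      exact fin1 M hlt hyx rfl
  · -- a^q + c^q = B^y
    have hac : Nat.Coprime a c := by
      have h1 : Nat.Coprime (a ^ q) (c ^ q) := by
        apply Nat.coprime_of_dvd
        intro p hp h1 h2
        have h3 : p ∣ B ^ y := h ▸ dvd_add h1 h2
        exact hp.not_dvd_one (haBy ▸ Nat.dvd_gcd h1 h3)
      exact (Nat.coprime_pow_left_iff hq.pos _ _).mp ((Nat.coprime_pow_right_iff hq.pos _ _).mp h1)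
    obtain ⟨Q, hfac, hQW⟩ := sum_fac hq hq2 ha0 hc hac h
    set W := a + c with hW
    obtain ⟨E, F, hE, hF, hEF⟩ := hfac.split hy hqB
    have hyY : y < Y := by
      by_contra hcon
      push Not at hcon
      apply hNS
      refine ⟨hB1, hBN, q, y, E, F, hq3, hqZ, hcon, hy, hEF, ?_, ?_⟩
      · rw [← hF, pow_mul, ← hE]
        calc Q ≤ W ^ (q - 1) := hQW
          _ ≤ q * 2 ^ q * W ^ (q - 1) := Nat.le_mul_of_pos_left _ (by positivity)
      · rw [← hF, pow_mul, ← hE]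
        calc W ^ (q - 1) ≤ 2 ^ (q - 1) * Q := hfac.size
          _ ≤ (q * 2 ^ q) * Q := by
              apply Nat.mul_le_mul_right
              calc 2 ^ (q - 1) ≤ 2 ^ q := Nat.pow_le_pow_right (by norm_num) (by omega)
                _ ≤ q * 2 ^ q := Nat.le_mul_of_pos_left _ hq.pos
    have hx : q * x' ≤ 2 * y := by
      apply pow_cmp (by omega) hAN2
      rw [haq]
      calc a ^ q ≤ B ^ y := by omega
        _ ≤ N ^ y := Nat.pow_le_pow_left hBN y
    have h1 : 2 * Y ≤ 2 * Z * Y := by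
      calc 2 * Y = 2 * 1 * Y := by ring
        _ ≤ 2 * Z * Y := Nat.mul_le_mul_right _ (by omega)
    exact ⟨by omega, by omega⟩
  · -- B^y + c^q = a^q
    have hac : Nat.Coprime a c := by
      have h1 : Nat.Coprime (a ^ q) (c ^ q) := by
        apply Nat.coprime_of_dvd
        intro p hp h1 h2
        have h3 : p ∣ B ^ y := (Nat.dvd_add_left h2).mp (h ▸ h1)
        exact hp.not_dvd_one (haBy ▸ Nat.dvd_gcd h1 h3)
      exact (Nat.coprime_pow_left_iff hq.pos _ _).mp ((Nat.coprime_pow_right_iff hq.pos _ _).mp h1)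
    obtain ⟨W, Q, haW, hfac, hWQ, hQup, hdu, -⟩ := diff_fac hq hq2 hc hT0 hac (by rw [add_comm]; exact h)
    have hyx : y ≤ q * (2 * x' + 1) := by
      have h2 : y ≤ 2 * (x' * q) := by
        apply pow_cmp (by omega) hBN2
        calc B ^ y ≤ a ^ q := by omega
          _ ≤ (N ^ x') ^ q := Nat.pow_le_pow_left (Nat.pow_le_pow_left hAN x') q
          _ = N ^ (x' * q) := by rw [← pow_mul]
      calc y ≤ 2 * (x' * q) := h2
        _ ≤ q * (2 * x' + 1) := by nlinarith
    have hlt := lte_case (x' := x') (M := M) hq hqZ hqB hBN hB0 hAB hN4 hr hr2 hrA hrP hy hM hfac hWQ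
        hdu hyx
    exact fin1 M hlt hyx rfl

end Pool.Agent.H374R2.Gc
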