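import Mathlib
import Pool.Agent.H374R2.GcB
import Pool.Agent.H374R2.FcD
import Pool.Agent.Helper923.PPS.BT

/-!
Densities of the sets of atypical integers.
-/

namespace Pool.Agent.H374R2.Gc

open Finset Filter Topology

theorem card_interval {a b : ℝ} (ha : 0 ≤ a) (hab : a ≤ b) (S : Finset ℕ)
    (hS : ∀ n ∈ S, a ≤ (n : ℝ) ∧ (n : ℝ) ≤ b) : (S.card : ℝ) ≤ b - a + 1 := by
  have h1 : S ⊆ Finset.Icc ⌈a⌉₊ ⌊b⌋₊ := by
    intro n hn
    rw [Finset.mem_Icc]
    exact ⟨Nat.ceil_le.mpr (hS n hn).1, Nat.le_floor (hS n hn).2⟩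
  have h2 := Finset.card_le_card h1
  rw [Nat.card_Icc] at h2
  have hb : 0 ≤ b := ha.trans hab
  have h3 : (⌊b⌋₊ : ℝ) ≤ b := Nat.floor_le hb
  have h4 : a ≤ (⌈a⌉₊ : ℝ) := Nat.le_ceil a
  rcases le_total ⌈a⌉₊ (⌊b⌋₊ + 1) with h | h
  · have h5 : (S.card : ℝ) ≤ ((⌊b⌋₊ + 1 - ⌈a⌉₊ : ℕ) : ℝ) := by exact_mod_cast h2
    rw [Nat.cast_sub h] at h5
    push_cast at h5
    linarith
  · have h5 : S.card = 0 := by omega
    rw [h5]
    push_cast
    linarith

/-- The integers `F` close to `E^(q-1)`. -/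
noncomputable def near (N q E : ℕ) (κ : ℝ) : Finset ℕ :=
  (Finset.Icc 1 N).filter (fun F => E * F ≤ N ∧ (E : ℝ) ^ (q - 1) * Real.exp (-κ) ≤ F ∧
    (F : ℝ) ≤ (E : ℝ) ^ (q - 1) * Real.exp κ)

theorem near_card {N q E : ℕ} {κ : ℝ} (hE : 0 < E) (hκ : 0 ≤ κ) (hκ1 : κ ≤ 1 / 4) :
    ((near N q E κ).card : ℝ) ≤ 6 * κ * N / E + 1 := by
  have hER : (0 : ℝ) < E := by exact_mod_cast hE
  rcases (near N q E κ).eq_empty_or_nonempty with h0 | ⟨F, hF⟩
  · rw [h0]; simp; positivity
  · have h1 : (E : ℝ) ^ (q - 1) * Real.exp (-κ) ≤ N / E := by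
      unfold near at hF
      rw [Finset.mem_filter] at hF
      have h2 : (F : ℝ) ≤ N / E := by
        rw [le_div_iff₀ hER, mul_comm]
        exact_mod_cast hF.2.1
      exact hF.2.2.1.trans h2
    have h3 := card_interval (a := (E : ℝ) ^ (q - 1) * Real.exp (-κ))
      (b := (E : ℝ) ^ (q - 1) * Real.exp κ) (by positivity)
      (mul_le_mul_of_nonneg_left (Real.exp_le_exp.mpr (by linarith)) (by positivity))
      (near N q E κ) (by
        intro n hn
        unfold near at hn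
        rw [Finset.mem_filter] at hn
        exact hn.2.2)
    have h4 : (E : ℝ) ^ (q - 1) * Real.exp κ - (E : ℝ) ^ (q - 1) * Real.exp (-κ) =
        ((E : ℝ) ^ (q - 1) * Real.exp (-κ)) * (Real.exp (2 * κ) - 1) := by
      have : Real.exp κ = Real.exp (-κ) * Real.exp (2 * κ) := by
        rw [← Real.exp_add]; congr 1; ring
      rw [this]; ring
    have h5 : Real.exp (2 * κ) - 1 ≤ 6 * κ := by
      have h6 : |Real.exp (2 * κ) - 1| ≤ 2 * |2 * κ| := Real.abs_exp_sub_one_le (by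
        rw [abs_of_nonneg (by positivity)]; linarith)
      rw [abs_of_nonneg (by positivity : (0 : ℝ) ≤ 2 * κ)] at h6
      have := le_abs_self (Real.exp (2 * κ) - 1)
      linarith
    calc ((near N q E κ).card : ℝ) ≤ _ := h3
      _ = ((E : ℝ) ^ (q - 1) * Real.exp (-κ)) * (Real.exp (2 * κ) - 1) + 1 := by rw [h4]
      _ ≤ (N / E) * (6 * κ) + 1 := by
          have : 0 ≤ Real.exp (2 * κ) - 1 := by
            have := Real.add_one_le_exp (2 * κ)
            linarith
          have h7 : ((E : ℝ) ^ (q - 1) * Real.exp (-κ)) * (Real.exp (2 * κ) - 1) ≤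
            (N / E) * (6 * κ) := mul_le_mul h1 h5 this (by positivity)
          linarith
      _ = _ := by ring

theorem ns_card {N Z Y : ℕ} (hY : 0 < Y) (hZY : 8 * Z ≤ Y) :
    ((NS N Z Y).ncard : ℝ) ≤
      Z * (6 * (2 * Z / Y) * N * (1 + Real.log N) + (Nat.sqrt (2 * N))) := by
  classical
  rcases Nat.eq_zero_or_pos N with hN0 | hN
  · subst hN0
    have : NS 0 Z Y = ∅ := by
      ext B
      simp only [NS, Set.mem_ofPred_eq, Set.mem_empty_iff_false, iff_false]
      rintro ⟨h1, h2, -⟩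
      omega
    rw [this]
    simp
  set κ : ℝ := 2 * Z / Y with hκ
  have hYR : (0 : ℝ) < Y := by exact_mod_cast hY
  have hκ0 : 0 ≤ κ := by positivity
  have hκ1 : κ ≤ 1 / 4 := by
    rw [hκ, div_le_div_iff₀ hYR (by norm_num)]
    have : (8 : ℝ) * Z ≤ Y := by exact_mod_cast hZY
    linarith
  set R := Nat.sqrt (2 * N) with hR
  set U : Finset ℕ := (Finset.Icc 1 Z ×ˢ Finset.Icc 1 R).biUnion
    (fun z => (near N z.1 z.2 κ).image (fun F => z.2 * F)) with hU
  have hsub : NS N Z Y ⊆ (U : Set ℕ) := by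
    rintro B ⟨hB1, hBN, q, y, E, F, hq3, hqZ, hYy, hy, hEF, h1, h2⟩
    have hE0 : 0 < E := by
      rcases Nat.eq_zero_or_pos E with h | h
      · rw [h, zero_mul] at hEF; omega
      · exact h
    have hF0 : 0 < F := by
      rcases Nat.eq_zero_or_pos F with h | h
      · rw [h, mul_zero] at hEF; omega
      · exact h
    have hER : (0 : ℝ) < E := by exact_mod_cast hE0
    have hFR : (0 : ℝ) < F := by exact_mod_cast hF0
    have hqR : (0 : ℝ) < q := by
      have : 0 < q := by omega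
      exact_mod_cast this
    have hyR : (0 : ℝ) < y := by exact_mod_cast hy
    have hYyR : (Y : ℝ) ≤ y := by exact_mod_cast hYy
    have hqZR : (q : ℝ) ≤ Z := by exact_mod_cast hqZ
    -- logs
    have hlogq : Real.log ((q : ℝ) * 2 ^ q) ≤ 2 * q := by
      rw [Real.log_mul hqR.ne' (by positivity), Real.log_pow]
      have e1 := Real.log_le_sub_one_of_pos hqR
      have e2 : Real.log 2 ≤ 1 := by have := Real.log_two_lt_d9; linarith
      nlinarith
    have hκy : 2 * (q : ℝ) ≤ y * κ := by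
      rw [hκ, mul_div_assoc', le_div_iff₀ hYR]
      nlinarith
    have l1 : (F : ℝ) ^ y ≤ (q * 2 ^ q) * ((E : ℝ) ^ (q - 1)) ^ y := by
      have : ((F ^ y : ℕ) : ℝ) ≤ ((q * 2 ^ q * E ^ (y * (q - 1)) : ℕ) : ℝ) := by exact_mod_cast h1
      push_cast at this
      rwa [mul_comm y (q - 1), pow_mul] at this
    have l2 : ((E : ℝ) ^ (q - 1)) ^ y ≤ (q * 2 ^ q) * (F : ℝ) ^ y := by
      have : ((E ^ (y * (q - 1)) : ℕ) : ℝ) ≤ ((q * 2 ^ q * F ^ y : ℕ) : ℝ) := by exact_mod_cast h2
      push_cast at this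
      rwa [mul_comm y (q - 1), pow_mul] at this
    set G : ℝ := (E : ℝ) ^ (q - 1) with hG
    have hG0 : 0 < G := by positivity
    have hexp : ((q : ℝ) * 2 ^ q) ≤ (Real.exp κ) ^ y := by
      rw [← Real.exp_nat_mul, ← Real.log_le_iff_le_exp (by positivity)]
      linarith
    have m1 : (F : ℝ) ≤ G * Real.exp κ := by
      have : (F : ℝ) ^ y ≤ (G * Real.exp κ) ^ y := by
        rw [mul_pow]
        calc (F : ℝ) ^ y ≤ (q * 2 ^ q) * G ^ y := l1
          _ ≤ (Real.exp κ) ^ y * G ^ y := by gcongr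
          _ = _ := by ring
      exact (pow_le_pow_iff_left₀ hFR.le (by positivity) hy.ne').mp this
    have m2 : G ≤ F * Real.exp κ := by
      have : G ^ y ≤ (F * Real.exp κ) ^ y := by
        rw [mul_pow]
        calc G ^ y ≤ (q * 2 ^ q) * (F : ℝ) ^ y := l2
          _ ≤ (Real.exp κ) ^ y * (F : ℝ) ^ y := by gcongr
          _ = _ := by ring
      exact (pow_le_pow_iff_left₀ hG0.le (by positivity) hy.ne').mp this
    have m3 : G * Real.exp (-κ) ≤ F := by
      rw [Real.exp_neg, ← div_eq_mul_inv, div_le_iff₀ (Real.exp_pos κ)]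
      exact m2
    have hE2 : E ≤ R := by
      rw [hR, Nat.le_sqrt]
      have hGE : (E : ℝ) ≤ G := by
        rw [hG]
        exact le_self_pow₀ (by exact_mod_cast hE0) (by omega)
      have hexp2 : Real.exp κ ≤ 2 := by
        have h6 : |Real.exp κ - 1| ≤ 2 * |κ| := Real.abs_exp_sub_one_le (by
          rw [abs_of_nonneg hκ0]; linarith)
        rw [abs_of_nonneg hκ0] at h6
        have := le_abs_self (Real.exp κ - 1)
        linarith
      have h3 : (E : ℝ) * E ≤ 2 * N := by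
        calc (E : ℝ) * E ≤ E * (F * Real.exp κ) := by gcongr; exact hGE.trans m2
          _ ≤ E * (F * 2) := by gcongr
          _ = 2 * ((E * F : ℕ) : ℝ) := by push_cast; ring
          _ ≤ 2 * N := by
              have : ((E * F : ℕ) : ℝ) ≤ N := by rw [← hEF]; exact_mod_cast hBN
              linarith
      exact_mod_cast h3
    simp only [hU, Finset.coe_biUnion, Set.mem_iUnion, Finset.mem_coe, exists_prop]
    refine ⟨(q, E), Finset.mem_product.mpr ⟨Finset.mem_Icc.mpr ⟨by omega, hqZ⟩,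
      Finset.mem_Icc.mpr ⟨hE0, hE2⟩⟩, ?_⟩
    rw [Finset.mem_image]
    refine ⟨F, ?_, hEF.symm⟩
    unfold near
    rw [Finset.mem_filter, Finset.mem_Icc]
    refine ⟨⟨hF0, ?_⟩, by rw [← hEF]; exact hBN, m3, m1⟩
    calc F ≤ E * F := Nat.le_mul_of_pos_left _ hE0
      _ ≤ N := by rw [← hEF]; exact hBN
  have hN1 : (1 : ℝ) ≤ N := by exact_mod_cast hN
  have hcard : ((NS N Z Y).ncard : ℝ) ≤ (U.card : ℝ) := by
    rw [← Set.ncard_coe_finset]
    exact_mod_cast Set.ncard_le_ncard hsub (Finset.finite_toSet _)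
  calc ((NS N Z Y).ncard : ℝ) ≤ (U.card : ℝ) := hcard
    _ ≤ ∑ z ∈ Finset.Icc 1 Z ×ˢ Finset.Icc 1 R, (((near N z.1 z.2 κ).image (fun F => z.2 * F)).card : ℝ) := by
        exact_mod_cast Finset.card_biUnion_le
    _ ≤ ∑ z ∈ Finset.Icc 1 Z ×ˢ Finset.Icc 1 R, (6 * κ * N / z.2 + 1) := by
        apply Finset.sum_le_sum
        intro z hz
        have hz2 := (Finset.mem_Icc.mp (Finset.mem_product.mp hz).2).1
        calc (((near N z.1 z.2 κ).image (fun F => z.2 * F)).card : ℝ) ≤ ((near N z.1 z.2 κ).card : ℝ) := by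
              exact_mod_cast Finset.card_image_le
          _ ≤ _ := near_card hz2 hκ0 hκ1
    _ = Z * (6 * κ * N * (∑ E ∈ Finset.Icc 1 R, ((E : ℝ))⁻¹) + R) := by
        rw [Finset.sum_product]
        simp only [Finset.sum_const, Nat.card_Icc, Nat.add_sub_cancel, nsmul_eq_mul]
        rw [Finset.sum_add_distrib, Finset.sum_const, Nat.card_Icc, Nat.add_sub_cancel, nsmul_eq_mul,
          mul_one, Finset.mul_sum]
        simp only [div_eq_mul_inv]
    _ ≤ Z * (6 * κ * N * (1 + Real.log N) + R) := by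
        have hRN' : R ≤ N := by
          have h2 : R * R ≤ 2 * N := Nat.sqrt_le _
          by_contra hcon
          push Not at hcon
          nlinarith
        have h1 : ∑ E ∈ Finset.Icc 1 R, ((E : ℝ))⁻¹ ≤ 1 + Real.log N := by
          have h3 := harmonic_le_one_add_log N
          rw [harmonic_eq_sum_Icc] at h3
          push_cast at h3
          calc ∑ E ∈ Finset.Icc 1 R, ((E : ℝ))⁻¹ ≤ ∑ E ∈ Finset.Icc 1 N, ((E : ℝ))⁻¹ := by
                apply Finset.sum_le_sum_of_subset_of_nonneg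
                · exact Finset.Icc_subset_Icc le_rfl hRN'
                · intro i _ _; positivity
            _ ≤ _ := h3
        gcongr

end Pool.Agent.H374R2.Gc
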