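import Mathlib
import Pool.Agent.H374R2.GcC

/-!
Few integers `B` are divisible by a prime `q` and by a large prime `P ≡ 1 (mod q)`.
-/

namespace Pool.Agent.H374R2.Gc

open Finset Filter Topology

/-- Integers divisible by `q` and by a prime `P > y` with `q ∣ P - 1`, for some prime
`q ∈ (Q₀, Z]`. -/
def SP (N Q₀ Z y : ℕ) : Set ℕ :=
  {B | 0 < B ∧ B ≤ N ∧ ∃ q P : ℕ, q.Prime ∧ P.Prime ∧ Q₀ < q ∧ q ≤ Z ∧ q ∣ B ∧ P ∣ B ∧ y < P ∧
    q ∣ P - 1}

theorem sp_card : ∃ C : ℝ, 1 ≤ C ∧ ∀ N Q₀ Z y j₀ : ℕ, 0 < N → 0 < Q₀ → 0 < Z →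
    (∀ q P : ℕ, q ≤ Z → y < P → 0 < q → q ∣ P - 1 → P.Prime → 2 ^ j₀ ≤ (P - 1) / q) →
    ((SP N Q₀ Z y).ncard : ℝ) ≤ C * ((Nat.log 2 N + 1 : ℕ) : ℝ) / ((j₀ + 1 : ℕ) : ℝ) * (N / Q₀) := by
  classical
  obtain ⟨C, hC1, hC⟩ := Pool.Agent.Helper923.PPS.brun_titchmarsh
  refine ⟨4 * C, by linarith, fun N Q₀ Z y j₀ hN hQ₀ hZ hj => ?_⟩
  set J := Nat.log 2 N with hJ
  have hC0 : 0 < C := by linarith
  have hNR : (0 : ℝ) < N := by exact_mod_cast hN
  -- the primes `1 + k q` with `k` in a dyadic block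
  set T : ℕ → ℕ → Finset ℕ := fun q j =>
    (Finset.Ico (2 ^ j) (2 ^ (j + 1))).filter (fun k => (1 + k * q).Prime) with hT
  set V : ℕ → ℕ → Finset ℕ := fun q k => (Finset.Ioc 0 N).filter (fun B => q * (1 + k * q) ∣ B) with hV
  set U : Finset ℕ := (((Finset.Ioc Q₀ Z).filter Nat.Prime) ×ˢ Finset.Icc j₀ J).biUnion
    (fun z => (T z.1 z.2).biUnion (fun k => V z.1 k)) with hU
  have hsub : SP N Q₀ Z y ⊆ (U : Set ℕ) := by
    rintro B ⟨hB0, hBN, q, P, hq, hP, hQq, hqZ, hqB, hPB, hyP, hqP⟩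
    obtain ⟨k, hk⟩ := hqP
    have hPk : P = 1 + k * q := by have := hP.two_le; rw [mul_comm] at hk; omega
    have hkdiv : (P - 1) / q = k := by
      rw [hk]; exact Nat.mul_div_cancel_left _ hq.pos
    have h1 := hj q P hqZ hyP hq.pos ⟨k, hk⟩ hP
    rw [hkdiv] at h1
    have hk0 : 0 < k := lt_of_lt_of_le (by positivity) h1
    have hkN : k ≤ N := by
      calc k ≤ k * q := Nat.le_mul_of_pos_right _ hq.pos
        _ ≤ P := by omega
        _ ≤ B := Nat.le_of_dvd hB0 hPB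
        _ ≤ N := hBN
    have hqP' : Nat.Coprime q P := by
      rw [Nat.coprime_primes hq hP]
      have : q ≤ k * q := Nat.le_mul_of_pos_left _ hk0
      omega
    simp only [hU, Finset.coe_biUnion, Set.mem_iUnion, Finset.mem_coe, exists_prop]
    refine ⟨(q, Nat.log 2 k), ?_, ?_⟩
    · rw [Finset.mem_product, Finset.mem_filter, Finset.mem_Ioc, Finset.mem_Icc]
      refine ⟨⟨⟨hQq, hqZ⟩, hq⟩, ?_, ?_⟩
      · exact Nat.le_log_of_pow_le (by norm_num) h1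
      · show Nat.log 2 k ≤ J
        exact Nat.log_mono_right hkN
    · refine ⟨k, ?_, ?_⟩
      · simp only [hT]
        rw [Finset.mem_filter, Finset.mem_Ico]
        refine ⟨⟨Nat.pow_log_le_self 2 hk0.ne', Nat.lt_pow_succ_log_self (by norm_num) k⟩, ?_⟩
        rw [← hPk]; exact hP
      · simp only [hV]
        rw [Finset.mem_filter, Finset.mem_Ioc, ← hPk]
        exact ⟨⟨hB0, hBN⟩, Nat.Coprime.mul_dvd_of_dvd_of_dvd hqP' hqB hPB⟩
  have hl2 : (1 : ℝ) / 2 ≤ Real.log 2 := by have := Real.log_two_gt_d9; linarith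
  -- one block
  have hblock : ∀ q j : ℕ, q.Prime → j₀ ≤ j →
      (((T q j).biUnion (fun k => V q k)).card : ℝ) ≤ 4 * C * N / ((j₀ + 1 : ℕ) : ℝ) * ((q : ℝ) ^ 2)⁻¹ := by
    intro q j hq hj0
    have hqR : (0 : ℝ) < q := by exact_mod_cast hq.pos
    have h1 : ((T q j).card : ℝ) ≤ C * ((2 ^ (j + 1) : ℕ) : ℝ) / Real.log ((2 ^ (j + 1) : ℕ) : ℝ) := by
      have h2 := hC 1 q (2 ^ (j + 1)) (by
        calc 2 = 2 ^ 1 := by norm_num
          _ ≤ 2 ^ (j + 1) := Nat.pow_le_pow_right (by norm_num) (by omega)) (Or.inr hq)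
      refine le_trans ?_ h2
      exact_mod_cast Finset.card_le_card (by
        intro k hk
        simp only [hT] at hk
        rw [Finset.mem_filter, Finset.mem_Ico] at hk
        rw [Finset.mem_filter, Finset.mem_range]
        exact ⟨hk.1.2, hk.2⟩)
    have h3 : Real.log ((2 ^ (j + 1) : ℕ) : ℝ) = ((j + 1 : ℕ) : ℝ) * Real.log 2 := by
      push_cast
      rw [Real.log_pow]; push_cast; ring
    have h4 : ((T q j).card : ℝ) ≤ C * 2 ^ (j + 1) * (2 / ((j₀ + 1 : ℕ) : ℝ)) := by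
      refine h1.trans ?_
      rw [h3]
      have h5 : ((j₀ + 1 : ℕ) : ℝ) / 2 ≤ ((j + 1 : ℕ) : ℝ) * Real.log 2 := by
        have h6 : ((j₀ + 1 : ℕ) : ℝ) ≤ ((j + 1 : ℕ) : ℝ) := by exact_mod_cast (by omega : j₀ + 1 ≤ j + 1)
        have h7 : (0 : ℝ) ≤ ((j + 1 : ℕ) : ℝ) := by positivity
        nlinarith
      have h8 : (0 : ℝ) < ((j₀ + 1 : ℕ) : ℝ) := by positivity
      calc C * ((2 ^ (j + 1) : ℕ) : ℝ) / (((j + 1 : ℕ) : ℝ) * Real.log 2)
          ≤ C * ((2 ^ (j + 1) : ℕ) : ℝ) / (((j₀ + 1 : ℕ) : ℝ) / 2) := by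
            apply div_le_div_of_nonneg_left (by positivity) (by positivity) h5
        _ = _ := by push_cast; field_simp
    calc (((T q j).biUnion (fun k => V q k)).card : ℝ) ≤ ∑ k ∈ T q j, ((V q k).card : ℝ) := by
          exact_mod_cast Finset.card_biUnion_le
      _ ≤ ∑ _k ∈ T q j, (N : ℝ) / (q ^ 2 * 2 ^ j) := by
          apply Finset.sum_le_sum
          intro k hk
          simp only [hT] at hk
          rw [Finset.mem_filter, Finset.mem_Ico] at hk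
          simp only [hV]
          rw [Nat.Ioc_filter_dvd_card_eq_div]
          have h9 : ((2 ^ j : ℕ) : ℝ) ≤ k := by exact_mod_cast hk.1.1
          push_cast at h9
          calc ((N / (q * (1 + k * q)) : ℕ) : ℝ) ≤ (N : ℝ) / ((q * (1 + k * q) : ℕ) : ℝ) := Nat.cast_div_le
            _ ≤ (N : ℝ) / (q ^ 2 * 2 ^ j) := by
                apply div_le_div_of_nonneg_left hNR.le (by positivity)
                push_cast
                calc (q : ℝ) ^ 2 * 2 ^ j ≤ (q : ℝ) ^ 2 * (k : ℝ) := by gcongr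
                  _ ≤ (q : ℝ) * (1 + (k : ℝ) * (q : ℝ)) := by nlinarith
      _ = ((T q j).card : ℝ) * ((N : ℝ) / (q ^ 2 * 2 ^ j)) := by
          rw [Finset.sum_const, nsmul_eq_mul]
      _ ≤ (C * 2 ^ (j + 1) * (2 / ((j₀ + 1 : ℕ) : ℝ))) * ((N : ℝ) / (q ^ 2 * 2 ^ j)) := by
          gcongr
      _ = _ := by
          rw [pow_succ]
          field_simp
          ring
  have hcard : ((SP N Q₀ Z y).ncard : ℝ) ≤ (U.card : ℝ) := by
    rw [← Set.ncard_coe_finset]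
    exact_mod_cast Set.ncard_le_ncard hsub (Finset.finite_toSet _)
  have hsq : ∑ q ∈ (Finset.Ioc Q₀ Z).filter Nat.Prime, ((q : ℝ) ^ 2)⁻¹ ≤ 1 / Q₀ := by
    calc ∑ q ∈ (Finset.Ioc Q₀ Z).filter Nat.Prime, ((q : ℝ) ^ 2)⁻¹ ≤ ∑ q ∈ Finset.Ioc Q₀ Z, ((q : ℝ) ^ 2)⁻¹ := by
          apply Finset.sum_le_sum_of_subset_of_nonneg (Finset.filter_subset _ _)
          intro i _ _; positivity
      _ ≤ 1 / Q₀ := by
          rcases le_total Q₀ Z with h | h
          · have h1 := sum_Ioc_inv_sq_le_sub (α := ℝ) hQ₀.ne' h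
            have h2 : (0 : ℝ) ≤ (Z : ℝ)⁻¹ := by positivity
            rw [one_div]
            linarith
          · rw [Finset.Ioc_eq_empty (by omega), Finset.sum_empty]; positivity
  calc ((SP N Q₀ Z y).ncard : ℝ) ≤ (U.card : ℝ) := hcard
    _ ≤ ∑ z ∈ ((Finset.Ioc Q₀ Z).filter Nat.Prime) ×ˢ Finset.Icc j₀ J,
        (((T z.1 z.2).biUnion (fun k => V z.1 k)).card : ℝ) := by
        exact_mod_cast Finset.card_biUnion_le
    _ ≤ ∑ z ∈ ((Finset.Ioc Q₀ Z).filter Nat.Prime) ×ˢ Finset.Icc j₀ J,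
        (4 * C * N / ((j₀ + 1 : ℕ) : ℝ) * ((z.1 : ℝ) ^ 2)⁻¹) := by
        apply Finset.sum_le_sum
        intro z hz
        rw [Finset.mem_product, Finset.mem_filter, Finset.mem_Icc] at hz
        exact hblock z.1 z.2 hz.1.2 hz.2.1
    _ = ((Finset.Icc j₀ J).card : ℝ) * (4 * C * N / ((j₀ + 1 : ℕ) : ℝ) *
          ∑ q ∈ (Finset.Ioc Q₀ Z).filter Nat.Prime, ((q : ℝ) ^ 2)⁻¹) := by
        rw [Finset.sum_product]
        simp only [Finset.sum_const, nsmul_eq_mul]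
        rw [← Finset.mul_sum, ← Finset.mul_sum]
    _ ≤ ((J + 1 : ℕ) : ℝ) * (4 * C * N / ((j₀ + 1 : ℕ) : ℝ) * (1 / Q₀)) := by
        have h1 : ((Finset.Icc j₀ J).card : ℝ) ≤ ((J + 1 : ℕ) : ℝ) := by
          rw [Nat.card_Icc]; exact_mod_cast Nat.sub_le _ _
        gcongr
    _ = _ := by ring

end Pool.Agent.H374R2.Gc
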