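import Mathlib
import Pool.Agent.H374R2.GcD

/-!
Asymptotic forms of the density statements.
-/

namespace Pool.Agent.H374R2.Gc

open Finset Filter Topology

/-- The bound for the common prime factor. -/
noncomputable def ZZ (N : ℕ) : ℕ := ⌊3 * Real.log N⌋₊ + 1

theorem tendsto_log_nat : Tendsto (fun N : ℕ => Real.log N) atTop atTop :=
  Real.tendsto_log_atTop.comp tendsto_natCast_atTop_atTop

theorem ZZ_le {N : ℕ} (h : 1 ≤ Real.log N) : (ZZ N : ℝ) ≤ 4 * Real.log N := by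
  unfold ZZ
  push_cast
  have := Nat.floor_le (show 0 ≤ 3 * Real.log N by linarith)
  linarith

theorem log_pow_le {k : ℕ} {a K : ℝ} (ha : 0 < a) (hK : 0 < K) :
    ∀ᶠ N : ℕ in atTop, K * Real.log N ^ k ≤ (N : ℝ) ^ a := by
  have o1 := isLittleO_log_rpow_rpow_atTop (k : ℝ) ha
  have o1' := (o1.comp_tendsto tendsto_natCast_atTop_atTop).bound (show 0 < 1 / K by positivity)
  filter_upwards [o1', tendsto_log_nat.eventually (eventually_ge_atTop 1), eventually_ge_atTop 1]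
    with N h1 h2 h3
  simp only [Function.comp, Real.norm_eq_abs] at h1
  rw [abs_of_nonneg (Real.rpow_nonneg (by linarith) _), abs_of_nonneg (by positivity),
    Real.rpow_natCast] at h1
  calc K * Real.log N ^ k ≤ K * (1 / K * (N : ℝ) ^ a) := by gcongr
    _ = _ := by field_simp

theorem ns_density {c ε : ℝ} (hc : 0 < c) (hε : 0 < ε) : ∃ N₀ : ℕ, ∀ N Y : ℕ, N₀ ≤ N →
    (N : ℝ) ^ c ≤ Y → ((NS N (ZZ N) Y).ncard : ℝ) ≤ ε * N := by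
  have e1 := log_pow_le (k := 3) hc (show 0 < 768 / ε by positivity)
  have e2 := log_pow_le (k := 1) (show (0 : ℝ) < 1 / 2 by norm_num) (show 0 < 16 / ε by positivity)
  have e3 := log_pow_le (k := 1) hc (show (0 : ℝ) < 32 by norm_num)
  obtain ⟨N₀, hN₀⟩ := eventually_atTop.mp (((e1.and e2).and e3).and
    ((tendsto_log_nat.eventually (eventually_ge_atTop 1)).and (eventually_ge_atTop 1)))
  refine ⟨N₀, fun N Y hN hY => ?_⟩
  obtain ⟨⟨⟨h1, h2⟩, h3⟩, h4, h5⟩ := hN₀ N hN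
  set L := Real.log N with hL
  have hNR : (0 : ℝ) < N := by exact_mod_cast h5
  have hY0 : (0 : ℝ) < Y := lt_of_lt_of_le (Real.rpow_pos_of_pos hNR _) hY
  have hYn : 0 < Y := by exact_mod_cast hY0
  have hZ := ZZ_le h4
  rw [← hL] at hZ
  rw [pow_one] at h2 h3
  have hZY : 8 * ZZ N ≤ Y := by
    have : (8 : ℝ) * ZZ N ≤ Y := by linarith
    exact_mod_cast this
  have hmain := ns_card (N := N) hYn hZY
  rw [← hL] at hmain
  have hsqrt : ((Nat.sqrt (2 * N) : ℕ) : ℝ) ≤ 2 * (N : ℝ) ^ ((1 : ℝ) / 2) := by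
    have a1 : ((Nat.sqrt (2 * N) : ℕ) : ℝ) ^ 2 ≤ 2 * N := by exact_mod_cast Nat.sqrt_le' (2 * N)
    have a2 : (2 * (N : ℝ) ^ ((1 : ℝ) / 2)) ^ 2 = 4 * N := by
      have b1 : ((N : ℝ) ^ ((1 : ℝ) / 2)) ^ 2 = N := by
        rw [← Real.rpow_natCast, ← Real.rpow_mul hNR.le]
        norm_num
      rw [mul_pow, b1]
      norm_num
    have a3 : ((Nat.sqrt (2 * N) : ℕ) : ℝ) ^ 2 ≤ (2 * (N : ℝ) ^ ((1 : ℝ) / 2)) ^ 2 := by
      rw [a2]; linarith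
    exact (pow_le_pow_iff_left₀ (by positivity) (by positivity) (by norm_num)).mp a3
  have t1 : (ZZ N : ℝ) * (6 * (2 * ZZ N / Y) * N * (1 + L)) ≤ (ε / 2) * N := by
    calc (ZZ N : ℝ) * (6 * (2 * ZZ N / Y) * N * (1 + L))
        ≤ (4 * L) * (6 * (2 * (4 * L) / (N : ℝ) ^ c) * N * (L + L)) := by
          have hp : 0 < (N : ℝ) ^ c := Real.rpow_pos_of_pos hNR _
          gcongr
      _ = (384 * L ^ 3) / (N : ℝ) ^ c * N := by ring
      _ ≤ (ε / 2) * N := by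
          apply mul_le_mul_of_nonneg_right _ hNR.le
          rw [div_le_iff₀ (Real.rpow_pos_of_pos hNR _)]
          calc 384 * L ^ 3 = (ε / 2) * (768 / ε * L ^ 3) := by field_simp; ring
            _ ≤ _ := by gcongr
  have t2 : (ZZ N : ℝ) * ((Nat.sqrt (2 * N) : ℕ) : ℝ) ≤ (ε / 2) * N := by
    calc (ZZ N : ℝ) * ((Nat.sqrt (2 * N) : ℕ) : ℝ) ≤ (4 * L) * (2 * (N : ℝ) ^ ((1 : ℝ) / 2)) := by
          gcongr
      _ = (ε / 2) * ((16 / ε * L) * (N : ℝ) ^ ((1 : ℝ) / 2)) := by field_simp; ring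
      _ ≤ (ε / 2) * ((N : ℝ) ^ ((1 : ℝ) / 2) * (N : ℝ) ^ ((1 : ℝ) / 2)) := by gcongr
      _ = (ε / 2) * N := by
          rw [← Real.rpow_add hNR]; norm_num
  calc ((NS N (ZZ N) Y).ncard : ℝ) ≤ _ := hmain
    _ = (ZZ N : ℝ) * (6 * (2 * ZZ N / Y) * N * (1 + L)) + (ZZ N : ℝ) * ((Nat.sqrt (2 * N) : ℕ) : ℝ) := by ring
    _ ≤ (ε / 2) * N + (ε / 2) * N := add_le_add t1 t2
    _ = ε * N := by ring

theorem sp_density {m : ℕ} (hm : 0 < m) {ε : ℝ} (hε : 0 < ε) : ∃ Q₁ : ℕ, ∀ Q₀ : ℕ, Q₁ ≤ Q₀ →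
    ∃ N₀ : ℕ, ∀ N : ℕ, N₀ ≤ N → ((SP N Q₀ (ZZ N) (Fc.yy N m)).ncard : ℝ) ≤ ε * N := by
  obtain ⟨C, hC1, hC⟩ := sp_card
  have hmR : (0 : ℝ) < m := by exact_mod_cast hm
  obtain ⟨Q₁, hQ₁⟩ := exists_nat_ge (max 1 (4 * m * C / ε))
  refine ⟨Q₁, fun Q₀ hQ => ?_⟩
  have hQ0R : max 1 (4 * m * C / ε) ≤ (Q₀ : ℝ) := hQ₁.trans (by exact_mod_cast hQ)
  have hQ0 : (1 : ℝ) ≤ Q₀ := (le_max_left _ _).trans hQ0R
  have hQ0' : 4 * m * C / ε ≤ (Q₀ : ℝ) := (le_max_right _ _).trans hQ0R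
  have hQ0n : 0 < Q₀ := by
    have : (0 : ℝ) < Q₀ := by linarith
    exact_mod_cast this
  have e1 := log_pow_le (k := 1) (show (0 : ℝ) < 1 / (2 * m) by positivity) (show (0 : ℝ) < 4 by norm_num)
  obtain ⟨N₀, hN₀⟩ := eventually_atTop.mp (e1.and
    ((tendsto_log_nat.eventually (eventually_ge_atTop 1)).and (eventually_ge_atTop 1)))
  refine ⟨N₀, fun N hN => ?_⟩
  obtain ⟨h1, h4, h5⟩ := hN₀ N hN
  rw [pow_one] at h1
  have hNR : (0 : ℝ) < N := by exact_mod_cast h5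
  have hZ := ZZ_le h4
  have hZ0 : 0 < ZZ N := Nat.succ_pos _
  set L := Real.log N with hL
  set y := Fc.yy N m with hy
  set j₀ := Nat.log 2 (y / ZZ N) with hj₀
  have hkey := hC N Q₀ (ZZ N) y j₀ h5 hQ0n hZ0 (by
    intro q P hqZ hyP hq hqP hP
    have hk1 : 1 ≤ (P - 1) / q := by
      rw [Nat.le_div_iff_mul_le hq, one_mul]
      exact Nat.le_of_dvd (by have := hP.two_le; omega) hqP
    have hk2 : y / ZZ N ≤ (P - 1) / q := Nat.div_le_div (by omega) hqZ hq.ne'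
    rcases Nat.eq_zero_or_pos (y / ZZ N) with h | h
    · rw [hj₀, h]; simpa using hk1
    · exact (Nat.pow_log_le_self 2 h.ne').trans hk2)
  have hj : (1 / (2 * m)) * L ≤ ((j₀ + 1 : ℕ) : ℝ) * Real.log 2 := by
    have a1 : y < ZZ N * 2 ^ (j₀ + 1) := by
      have b1 : y / ZZ N < 2 ^ (j₀ + 1) := Nat.lt_pow_succ_log_self (by norm_num) _
      have b2 := (Nat.div_lt_iff_lt_mul hZ0).mp b1
      rw [mul_comm]; exact b2
    have a2 : (N : ℝ) ^ ((1 : ℝ) / m) < (y : ℝ) + 1 := Nat.lt_floor_add_one _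
    have a3 : (y : ℝ) + 1 ≤ ZZ N * 2 ^ (j₀ + 1) := by exact_mod_cast a1
    have a4 : (ZZ N : ℝ) ≤ (N : ℝ) ^ ((1 : ℝ) / (2 * m)) := hZ.trans h1
    have a5 : (N : ℝ) ^ ((1 : ℝ) / m) = (N : ℝ) ^ ((1 : ℝ) / (2 * m)) * (N : ℝ) ^ ((1 : ℝ) / (2 * m)) := by
      rw [← Real.rpow_add hNR]; congr 1; field_simp; norm_num
    have a6 : (N : ℝ) ^ ((1 : ℝ) / (2 * m)) ≤ 2 ^ (j₀ + 1) := by
      have hp : 0 < (N : ℝ) ^ ((1 : ℝ) / (2 * m)) := Real.rpow_pos_of_pos hNR _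
      have : (N : ℝ) ^ ((1 : ℝ) / (2 * m)) * (N : ℝ) ^ ((1 : ℝ) / (2 * m)) ≤
          (N : ℝ) ^ ((1 : ℝ) / (2 * m)) * 2 ^ (j₀ + 1) := by
        rw [← a5]
        calc (N : ℝ) ^ ((1 : ℝ) / m) ≤ ZZ N * 2 ^ (j₀ + 1) := by linarith
          _ ≤ _ := by gcongr
      exact le_of_mul_le_mul_left this hp
    have a7 := Real.log_le_log (Real.rpow_pos_of_pos hNR _) a6
    rw [Real.log_rpow hNR, Real.log_pow, ← hL] at a7
    exact a7
  have hJ : ((Nat.log 2 N + 1 : ℕ) : ℝ) * Real.log 2 ≤ 2 * L := by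
    have a1 : (2 : ℝ) ^ (Nat.log 2 N) ≤ N := by exact_mod_cast Nat.pow_log_le_self 2 (by omega)
    have a2 := Real.log_le_log (by positivity) a1
    rw [Real.log_pow, ← hL] at a2
    have a3 := Real.log_two_lt_d9
    push_cast
    linarith
  have hl2 : 0 < Real.log 2 := Real.log_pos (by norm_num)
  have hratio : ((Nat.log 2 N + 1 : ℕ) : ℝ) / ((j₀ + 1 : ℕ) : ℝ) ≤ 4 * m := by
    rw [div_le_iff₀ (by positivity)]
    have a1 : 2 * L ≤ 4 * m * (((j₀ + 1 : ℕ) : ℝ) * Real.log 2) := by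
      calc 2 * L = 4 * m * ((1 / (2 * m)) * L) := by field_simp; ring
        _ ≤ _ := by gcongr
    have a2 : ((Nat.log 2 N + 1 : ℕ) : ℝ) * Real.log 2 ≤ (4 * m * ((j₀ + 1 : ℕ) : ℝ)) * Real.log 2 := by
      linarith
    exact le_of_mul_le_mul_right a2 hl2
  calc ((SP N Q₀ (ZZ N) y).ncard : ℝ) ≤ C * ((Nat.log 2 N + 1 : ℕ) : ℝ) / ((j₀ + 1 : ℕ) : ℝ) * (N / Q₀) := hkey
    _ = C * (((Nat.log 2 N + 1 : ℕ) : ℝ) / ((j₀ + 1 : ℕ) : ℝ)) * (N / Q₀) := by ring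
    _ ≤ C * (4 * m) * (N / Q₀) := by gcongr
    _ = (4 * m * C / Q₀) * N := by ring
    _ ≤ ε * N := by
        apply mul_le_mul_of_nonneg_right _ hNR.le
        rw [div_le_iff₀ (by linarith)]
        rw [div_le_iff₀ hε] at hQ0'
        linarith

/-- Few integers have no small prime factor which is `3` modulo `4`. -/
theorem three_prime {ε : ℝ} (hε : 0 < ε) : ∃ P₀ N₀ : ℕ, ∀ N : ℕ, N₀ ≤ N →
    (({B : ℕ | 0 < B ∧ B ≤ N ∧ ∀ p : ℕ, p ≤ P₀ → p.Prime → p % 4 = 3 → ¬ p ∣ B}.ncard : ℕ) : ℝ) ≤ ε * N := by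
  obtain ⟨F, hF, hsum⟩ := Cof.exists_primes_class 4 (by norm_num) 3 (by norm_num) (-Real.log (ε / 2))
  have hodd : ∀ p ∈ F, p % 4 = 3 := fun p hp => (hF p hp).2
  set R : ℝ := ∏ p ∈ F, (({x : ZMod p | x ≠ 0}.ncard : ℕ) : ℝ) with hR
  set M : ℝ := ∏ p ∈ F, (p : ℝ) with hM
  have hR0 : 0 ≤ R := Finset.prod_nonneg (fun _ _ => by positivity)
  have hM0 : 0 < M := Finset.prod_pos (fun p hp => by exact_mod_cast (hF p hp).1.pos)
  have hRM : R / M ≤ ε / 2 := by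
    have h1 := Cof.prod_le_exp F (fun p hp => (hF p hp).1)
    calc R / M ≤ _ := h1
      _ ≤ Real.exp (Real.log (ε / 2)) := Real.exp_le_exp.mpr (by linarith)
      _ = ε / 2 := Real.exp_log (by positivity)
  obtain ⟨N₀, hN₀⟩ := exists_nat_ge (R / (ε / 2))
  refine ⟨F.sup id, N₀, fun N hN => ?_⟩
  set E : Set ℕ := {B : ℕ | ∀ p : ℕ, p ≤ F.sup id → p.Prime → p % 4 = 3 → ¬ p ∣ B} with hE
  have h1 := Cof.count1 F (fun p hp => (hF p hp).1) (fun p => {x : ZMod p | x ≠ 0}) E (by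
      intro m hm p hp
      have := hm p (Finset.le_sup (f := id) hp) (hF p hp).1 (hodd p hp)
      show (m : ZMod p) ≠ 0
      rwa [Ne, ZMod.natCast_eq_zero_iff]) N
  have h0 : {B : ℕ | 0 < B ∧ B ≤ N ∧ ∀ p : ℕ, p ≤ F.sup id → p.Prime → p % 4 = 3 → ¬ p ∣ B} ⊆
      E ∩ Set.Ioc 0 N := by
    rintro B ⟨h1, h2, h3⟩
    exact ⟨h3, h1, h2⟩
  have h2 : ((E ∩ Set.Ioc 0 N).ncard : ℝ) ≤ R * ((N : ℝ) / M + 1) := by
    calc _ ≤ (((∏ p ∈ F, {x : ZMod p | x ≠ 0}.ncard) * (N / (∏ p ∈ F, p) + 1) : ℕ) : ℝ) := by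
          exact_mod_cast h1
      _ = R * (((N / (∏ p ∈ F, p) : ℕ) : ℝ) + 1) := by rw [hR]; push_cast; ring
      _ ≤ _ := by
        apply mul_le_mul_of_nonneg_left _ hR0
        have h3 : ((N / (∏ p ∈ F, p) : ℕ) : ℝ) ≤ (N : ℝ) / ((∏ p ∈ F, p : ℕ) : ℝ) := Nat.cast_div_le
        push_cast at h3
        linarith
  have h3 : R ≤ (ε / 2) * N := by
    have h4 : R / (ε / 2) ≤ N := hN₀.trans (by exact_mod_cast hN)
    rwa [div_le_iff₀ (by positivity), mul_comm] at h4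
  calc _ ≤ ((E ∩ Set.Ioc 0 N).ncard : ℝ) := by
        exact_mod_cast Set.ncard_le_ncard h0 ((Set.finite_Ioc 0 N).subset Set.inter_subset_right)
    _ ≤ R * ((N : ℝ) / M + 1) := h2
    _ = (R / M) * N + R := by field_simp
    _ ≤ (ε / 2) * N + (ε / 2) * N := by
      have : (R / M) * N ≤ (ε / 2) * N := mul_le_mul_of_nonneg_right hRM (by positivity)
      linarith
    _ = ε * N := by ring

theorem small_sq {ε : ℝ} (hε : 0 < ε) : ∃ N₀ : ℕ, ∀ N : ℕ, N₀ ≤ N →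
    (({B : ℕ | 0 < B ∧ B ≤ N ∧ B ^ 2 < N}.ncard : ℕ) : ℝ) ≤ ε * N := by
  obtain ⟨N₀, hN₀⟩ := exists_nat_ge (1 / ε ^ 2)
  refine ⟨N₀, fun N hN => ?_⟩
  have h1 : {B : ℕ | 0 < B ∧ B ≤ N ∧ B ^ 2 < N} ⊆ (Finset.Icc 1 (Nat.sqrt N) : Set ℕ) := by
    rintro B ⟨h1, h2, h3⟩
    rw [Finset.mem_coe, Finset.mem_Icc]
    exact ⟨h1, Nat.le_sqrt'.mpr h3.le⟩
  have h2 : (({B : ℕ | 0 < B ∧ B ≤ N ∧ B ^ 2 < N}.ncard : ℕ) : ℝ) ≤ (Nat.sqrt N : ℕ) := by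
    have := Set.ncard_le_ncard h1 (Finset.finite_toSet _)
    rw [Set.ncard_coe_finset, Nat.card_Icc, Nat.add_sub_cancel] at this
    exact_mod_cast this
  refine h2.trans ?_
  have h3 : ((Nat.sqrt N : ℕ) : ℝ) ^ 2 ≤ N := by exact_mod_cast Nat.sqrt_le' N
  have h4 : 1 / ε ^ 2 ≤ (N : ℝ) := hN₀.trans (by exact_mod_cast hN)
  have h5 : 1 ≤ ε ^ 2 * N := by
    rw [div_le_iff₀ (by positivity)] at h4
    linarith
  have h6 : ((Nat.sqrt N : ℕ) : ℝ) ^ 2 ≤ (ε * N) ^ 2 := by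
    calc ((Nat.sqrt N : ℕ) : ℝ) ^ 2 ≤ 1 * N := by linarith
      _ ≤ (ε ^ 2 * N) * N := by gcongr
      _ = _ := by ring
  exact (pow_le_pow_iff_left₀ (by positivity) (by positivity) (by norm_num)).mp h6

end Pool.Agent.H374R2.Gc
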