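import Mathlib
import Pool.Agent.H374R2.GcB

/-!
The case of an even exponent `z` and an even exponent on one of the bases, the other base being odd.
-/

namespace Pool.Agent.H374R2.Gc

open Finset

/-- Sum of two coprime squares. -/
theorem no_sum_sq {p a c T : ℕ} (hp : p.Prime) (h3 : p % 4 = 3) (hpT : p ∣ T) (hpa : ¬ p ∣ a)
    (h : a ^ 2 + c ^ 2 = T) : False := by
  have : Fact p.Prime := ⟨hp⟩
  have h1 : (a : ZMod p) ≠ 0 := by rwa [Ne, ZMod.natCast_eq_zero_iff]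
  have h2 : (a : ZMod p) ^ 2 + (c : ZMod p) ^ 2 = 0 := by
    have h4 : ((a ^ 2 + c ^ 2 : ℕ) : ZMod p) = 0 := by
      rw [ZMod.natCast_eq_zero_iff, h]; exact hpT
    push_cast at h4
    exact h4
  have h5 : (c : ZMod p) ^ 2 = -(a : ZMod p) ^ 2 := by linear_combination h2
  exact ZMod.mod_four_ne_three_of_sq_eq_neg_sq' h1 h5 h3

theorem final_M {N Z P₀ M x' v : ℕ} (hZ : 4 ≤ Z) (hM : 9 * N ^ (2 * P₀) * Z ^ 2 < 2 ^ M)
    (hv : v ≤ 4 * (2 * x' + 1)) (h : 2 ^ x' ≤ N ^ P₀ * v) : x' < M := by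
  have h3 : 2 ^ x' ≤ N ^ P₀ * (Z * (2 * x' + 1)) := by
    refine h.trans (Nat.mul_le_mul_left _ (hv.trans (Nat.mul_le_mul_right _ hZ)))
  have h4 : 2 ^ x' * 2 ^ x' ≤ (9 * N ^ (2 * P₀) * Z ^ 2) * 2 ^ x' := by
    calc 2 ^ x' * 2 ^ x' ≤ (N ^ P₀ * (Z * (2 * x' + 1))) * (N ^ P₀ * (Z * (2 * x' + 1))) :=
          Nat.mul_le_mul h3 h3
      _ = N ^ (2 * P₀) * Z ^ 2 * (2 * x' + 1) ^ 2 := by
          rw [mul_comm 2 P₀, pow_mul]; ring
      _ ≤ N ^ (2 * P₀) * Z ^ 2 * (9 * 2 ^ x') := Nat.mul_le_mul_left _ (aux_pow x')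
      _ = _ := by ring
  have h5 : 2 ^ x' ≤ 9 * N ^ (2 * P₀) * Z ^ 2 := Nat.le_of_mul_le_mul_right h4 (by positivity)
  exact (Nat.pow_lt_pow_iff_right (by norm_num)).mp (h5.trans_lt hM)

theorem size4 {N F a x' t : ℕ} (hN4 : 4 ≤ N) (hF : N ≤ F ^ 4) (h : F ^ t ≤ 2 * a) (ha : a ≤ N ^ x') :
    t ≤ 4 * x' + 2 := by
  have h1 : N ^ t ≤ N ^ (4 * x' + 2) := by
    calc N ^ t ≤ (F ^ 4) ^ t := Nat.pow_le_pow_left hF t
      _ = (F ^ t) ^ 4 := by rw [← pow_mul, ← pow_mul, mul_comm]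
      _ ≤ (2 * N ^ x') ^ 4 := Nat.pow_le_pow_left (h.trans (Nat.mul_le_mul_left _ ha)) 4
      _ = 4 ^ 2 * N ^ (4 * x') := by rw [mul_pow, ← pow_mul, mul_comm x' 4]; norm_num
      _ ≤ N ^ 2 * N ^ (4 * x') := Nat.mul_le_mul_right _ (Nat.pow_le_pow_left hN4 2)
      _ = _ := by rw [← pow_add]; congr 1; ring
  exact (Nat.pow_le_pow_iff_right (by omega : 1 < N)).mp h1

theorem even_case {A B N Z P₀ M X x' y c r p : ℕ} (hAN : A ≤ N) (hBN : B ≤ N)
    (hA0 : 0 < A) (hB1 : 1 < B) (hB2 : ¬ 2 ∣ B) (hAB : Nat.Coprime A B)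
    (hN4 : 4 ≤ N) (hBN2 : N ≤ B ^ 2) (hp : p.Prime) (hp3 : p % 4 = 3) (hpB : p ∣ B)
    (hr : r.Prime) (hr2 : r ≠ 2) (hrA : r ∣ A) (hrP : r ≤ P₀) (hZ : 4 ≤ Z)
    (hM : 9 * N ^ (2 * P₀) * Z ^ 2 < 2 ^ M) (hX : Z * (2 * M + 1) ≤ X)
    (hy : 0 < y) (hc : 0 < c)
    (h : A ^ (2 * x') + B ^ y = c ^ 2 ∨ A ^ (2 * x') + c ^ 2 = B ^ y ∨ B ^ y + c ^ 2 = A ^ (2 * x')) :
    2 * x' ≤ X ∧ y ≤ X := by
  have hB0 : 0 < B := by omega
  set a := A ^ x' with ha
  have ha0 : 0 < a := by positivity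
  have haN : a ≤ N ^ x' := Nat.pow_le_pow_left hAN x'
  have haq : A ^ (2 * x') = a ^ 2 := by rw [ha, ← pow_mul, mul_comm]
  rw [haq] at h
  have hdisj : ∀ l : ℕ, l.Prime → l ∣ a → l ∣ B → False := by
    intro l hl h1 h2
    exact hl.not_dvd_one (hAB ▸ Nat.dvd_gcd (hl.dvd_of_dvd_pow h1) h2)
  have hrB : ¬ r ∣ B := fun h => hr.not_dvd_one (hAB ▸ Nat.dvd_gcd hrA h)
  have hT0 : 0 < B ^ y := by positivity
  have hra : r ^ x' ∣ a := pow_dvd_pow_of_dvd hrA x'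
  -- conclusion from the bounds
  have fin : x' < M → y ≤ 4 * (2 * x' + 1) → 2 * x' ≤ X ∧ y ≤ X := by
    intro h1 h2
    have h3 : 4 * (2 * M + 1) ≤ X := (Nat.mul_le_mul_right _ hZ).trans hX
    constructor <;> omega
  -- common facts
  have common : ∀ E F : ℕ, B = E * F → E ^ y < F ^ y →
      0 < E ∧ E < F ∧ F ≤ N ∧ N ≤ F ^ 4 ∧ ¬ r ∣ E ∧ ¬ r ∣ F := by
    intro E F hEF hlt
    have hE0 : 0 < E := by
      rcases Nat.eq_zero_or_pos E with h | h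
      · rw [h, zero_mul] at hEF; omega
      · exact h
    have hEF' : E < F := lt_of_pow_lt_pow_left₀ y (Nat.zero_le _) hlt
    refine ⟨hE0, hEF', ?_, ?_, ?_, ?_⟩
    · calc F ≤ E * F := Nat.le_mul_of_pos_left _ hE0
        _ ≤ N := by rw [← hEF]; exact hBN
    · calc N ≤ B ^ 2 := hBN2
        _ = (E * F) ^ 2 := by rw [hEF]
        _ ≤ (F * F) ^ 2 := Nat.pow_le_pow_left (Nat.mul_le_mul_right _ hEF'.le) 2
        _ = F ^ 4 := by ring
    · exact fun h => hrB (hEF ▸ Dvd.dvd.mul_right h _)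
    · exact fun h => hrB (hEF ▸ Dvd.dvd.mul_left h _)
  rcases h with h | h | h
  · -- a^2 + B^y = c^2
    have hac : a < c := by
      by_contra hcon
      push Not at hcon
      have := Nat.pow_le_pow_left hcon 2
      omega
    obtain ⟨W, hW⟩ := Nat.exists_eq_add_of_lt hac
    have hfac : (W + 1) * (2 * a + (W + 1)) = B ^ y := by
      have : (a + W + 1) ^ 2 = a ^ 2 + (W + 1) * (2 * a + (W + 1)) := by ring
      rw [hW, this] at h
      omega
    have hcop : Nat.Coprime (W + 1) (2 * a + (W + 1)) := by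
      apply Nat.coprime_of_dvd
      intro l hl h1 h2
      have h3 : l ∣ B := hl.dvd_of_dvd_pow (hfac ▸ Dvd.dvd.mul_right h1 _)
      have h4 : l ∣ 2 * a := (Nat.dvd_add_left h1).mp h2
      rcases (Nat.Prime.dvd_mul hl).mp h4 with h5 | h5
      · have := (Nat.prime_dvd_prime_iff_eq hl Nat.prime_two).mp h5
        rw [this] at h3
        exact hB2 h3
      · exact hdisj l hl h5 h3
    obtain ⟨E, F, hE, hF, hEF⟩ := Cof.eq_pow_of_coprime hcop hfac hy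
    have hlt : E ^ y < F ^ y := by rw [← hE, ← hF]; omega
    obtain ⟨hE0, hEltF, hFN, hNF, hrE, hrF⟩ := common E F hEF hlt
    have hd : ((r ^ x' : ℕ) : ℤ) ∣ (F : ℤ) ^ y - (E : ℤ) ^ y := by
      have h1 : (F : ℤ) ^ y - (E : ℤ) ^ y = ((2 * a : ℕ) : ℤ) := by
        have e1 : ((F ^ y : ℕ) : ℤ) = ((2 * a + (W + 1) : ℕ) : ℤ) := by rw [hF]
        have e2 : ((E ^ y : ℕ) : ℤ) = ((W + 1 : ℕ) : ℤ) := by rw [hE]
        push_cast at e1 e2 ⊢
        rw [e1, e2]; ring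
      rw [h1]
      exact_mod_cast Dvd.dvd.mul_left hra 2
    have hlte := lte_bound hr hr2 hrF hrE hEltF hFN hy hd
    have hsz : F ^ (y - 1) ≤ 2 * a := by
      have h1 : E ^ y + F ^ (y - 1) ≤ F ^ y := by
        obtain ⟨k, rfl⟩ : ∃ k, y = k + 1 := ⟨y - 1, by omega⟩
        rw [Nat.add_sub_cancel, pow_succ, pow_succ]
        have h2 : E ^ k ≤ F ^ k := Nat.pow_le_pow_left hEltF.le k
        calc E ^ k * E + F ^ k ≤ F ^ k * E + F ^ k := by
              exact Nat.add_le_add_right (Nat.mul_le_mul_right _ h2) _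
          _ = F ^ k * (E + 1) := by ring
          _ ≤ F ^ k * F := Nat.mul_le_mul_left _ hEltF
      rw [← hE, ← hF] at h1
      omega
    have hy4 := size4 hN4 hNF hsz haN
    have hyv : y ≤ 4 * (2 * x' + 1) := by omega
    have h2x : 2 ^ x' ≤ N ^ P₀ * y :=
      hlte.trans (Nat.mul_le_mul_right _ (Nat.pow_le_pow_right (by omega) (by omega)))
    exact fin (final_M hZ hM hyv h2x) hyv
  · -- a^2 + c^2 = B^y
    exfalso
    exact no_sum_sq hp hp3 (hpB.trans (dvd_pow_self B hy.ne')) (fun h1 => hdisj p hp h1 hpB) h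
  · -- B^y + c^2 = a^2
    have hca : c < a := by
      by_contra hcon
      push Not at hcon
      have := Nat.pow_le_pow_left hcon 2
      omega
    obtain ⟨W, hW⟩ := Nat.exists_eq_add_of_lt hca
    have hfac : (W + 1) * (2 * c + (W + 1)) = B ^ y := by
      have : (c + W + 1) ^ 2 = c ^ 2 + (W + 1) * (2 * c + (W + 1)) := by ring
      rw [hW, this] at h
      omega
    have hcop : Nat.Coprime (W + 1) (2 * c + (W + 1)) := by
      apply Nat.coprime_of_dvd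
      intro l hl h1 h2
      have h3 : l ∣ B := hl.dvd_of_dvd_pow (hfac ▸ Dvd.dvd.mul_right h1 _)
      have h4 : l ∣ 2 * c := (Nat.dvd_add_left h1).mp h2
      rcases (Nat.Prime.dvd_mul hl).mp h4 with h5 | h5
      · have := (Nat.prime_dvd_prime_iff_eq hl Nat.prime_two).mp h5
        rw [this] at h3
        exact hB2 h3
      · have h6 : l ∣ a := by rw [hW, add_assoc]; exact dvd_add h5 h1
        exact hdisj l hl h6 h3
    obtain ⟨E, F, hE, hF, hEF⟩ := Cof.eq_pow_of_coprime hcop hfac hy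
    have hlt : E ^ y < F ^ y := by rw [← hE, ← hF]; omega
    obtain ⟨hE0, hEltF, hFN, hNF, hrE, hrF⟩ := common E F hEF hlt
    have hsum : F ^ y + E ^ y = 2 * a := by rw [← hE, ← hF]; omega
    have hd : ((r ^ x' : ℕ) : ℤ) ∣ (F : ℤ) ^ (2 * y) - (E : ℤ) ^ (2 * y) := by
      have h1 : (F : ℤ) ^ (2 * y) - (E : ℤ) ^ (2 * y) =
          ((2 * a : ℕ) : ℤ) * ((F : ℤ) ^ y - (E : ℤ) ^ y) := by
        rw [← hsum]
        push_cast
        rw [mul_comm 2 y, pow_mul, pow_mul]; ring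
      rw [h1]
      apply Dvd.dvd.mul_right
      exact_mod_cast Dvd.dvd.mul_left hra 2
    have hlte := lte_bound hr hr2 hrF hrE hEltF hFN (by omega : 0 < 2 * y) hd
    have hsz : F ^ y ≤ 2 * a := by omega
    have hy4 := size4 hN4 hNF hsz haN
    have hyv : 2 * y ≤ 4 * (2 * x' + 1) := by omega
    have h2x : 2 ^ x' ≤ N ^ P₀ * (2 * y) :=
      hlte.trans (Nat.mul_le_mul_right _ (Nat.pow_le_pow_right (by omega) (by omega)))
    exact fin (final_M hZ hM hyv h2x) (by omega)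

end Pool.Agent.H374R2.Gc
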