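import Mathlib
import Pool.Agent.H374R2.GcE
import Pool.Agent.H374R2.GcG
import Pool.Agent.H374R2.FcE
import Pool.Agent.H374R2.BealFour

/-!
Assembly: for almost all coprime pairs `(A, B)` every solution of `±A^x ± B^y = C^z` has
`gcd(z, xy) ≤ 2`, `gcd(z, x) = 1` when `B` is odd and `gcd(z, y) = 1` when `A` is odd.
-/

namespace Pool.Agent.H374R2.Gc

open Finset Filter Topology

theorem exists_fac {q A B x' y c : ℕ} (hq : q.Prime) (hq2 : q ≠ 2) (hA0 : 0 < A) (hB0 : 0 < B)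
    (hAB : Nat.Coprime A B) (hc : 0 < c)
    (h : A ^ (q * x') + B ^ y = c ^ q ∨ A ^ (q * x') + c ^ q = B ^ y ∨ B ^ y + c ^ q = A ^ (q * x')) :
    ∃ W Q, Fac q W Q (B ^ y) := by
  set a := A ^ x' with ha
  have ha0 : 0 < a := by positivity
  have haq : A ^ (q * x') = a ^ q := by rw [ha, ← pow_mul, mul_comm]
  rw [haq] at h
  have haB : Nat.Coprime a B := Nat.Coprime.pow_left x' hAB
  have haBy : Nat.Coprime (a ^ q) (B ^ y) := Nat.Coprime.pow q y haB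
  have hT0 : 0 < B ^ y := by positivity
  rcases h with h | h | h
  · have hca : Nat.Coprime c a := by
      have h1 : Nat.Coprime (a ^ q) (c ^ q) := by
        rw [← h]
        exact Nat.coprime_self_add_right.mpr haBy
      exact ((Nat.coprime_pow_left_iff hq.pos _ _).mp ((Nat.coprime_pow_right_iff hq.pos _ _).mp h1)).symm
    obtain ⟨W, Q, -, hfac, -⟩ := diff_fac hq hq2 ha0 hT0 hca h
    exact ⟨W, Q, hfac⟩
  · have hac : Nat.Coprime a c := by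
      have h1 : Nat.Coprime (a ^ q) (c ^ q) := by
        apply Nat.coprime_of_dvd
        intro p hp h1 h2
        have h3 : p ∣ B ^ y := h ▸ dvd_add h1 h2
        exact hp.not_dvd_one (haBy ▸ Nat.dvd_gcd h1 h3)
      exact (Nat.coprime_pow_left_iff hq.pos _ _).mp ((Nat.coprime_pow_right_iff hq.pos _ _).mp h1)
    obtain ⟨Q, hfac, -⟩ := sum_fac hq hq2 ha0 hc hac h
    exact ⟨_, Q, hfac⟩
  · have hac : Nat.Coprime a c := by
      have h1 : Nat.Coprime (a ^ q) (c ^ q) := by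
        apply Nat.coprime_of_dvd
        intro p hp h1 h2
        have h3 : p ∣ B ^ y := (Nat.dvd_add_left h2).mp (h ▸ h1)
        exact hp.not_dvd_one (haBy ▸ Nat.dvd_gcd h1 h3)
      exact (Nat.coprime_pow_left_iff hq.pos _ _).mp ((Nat.coprime_pow_right_iff hq.pos _ _).mp h1)
    obtain ⟨W, Q, -, hfac, -⟩ := diff_fac hq hq2 hc hT0 hac (by rw [add_comm]; exact h)
    exact ⟨W, Q, hfac⟩

/-- The common prime factor is at most `Z`. -/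
theorem q_le {q W Q B y N P₀ p : ℕ} (hq : q.Prime) (h : Fac q W Q (B ^ y)) (hy : 0 < y)
    (hBN : B ≤ N) (hB0 : 0 < B) (hp : p.Prime) (hp2 : p ≠ 2) (hpB : p ∣ B) (hpP : p ≤ P₀)
    (hPZ : P₀ ≤ ZZ N) : q ≤ ZZ N := by
  by_cases hpQ : p ∣ Q
  · rcases h.onemod p hp hpQ with h1 | h1
    · omega
    · have h2 := Nat.le_of_dvd (by have := hp.two_le; omega) h1
      omega
  · have h1 := (h.prime_small hq.pos hy hBN hp hpB hpQ).1
    have hp3 : 3 ≤ p := by have := hp.two_le; omega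
    have h2 : 3 ^ q ≤ 2 ^ q * N := by
      calc 3 ^ q ≤ p ^ q := Nat.pow_le_pow_left hp3 q
        _ ≤ 2 ^ (q - 1) * N := h1
        _ ≤ 2 ^ q * N := Nat.mul_le_mul_right _ (Nat.pow_le_pow_right (by norm_num) (by omega))
    have h3 : (3 : ℝ) ^ q ≤ 2 ^ q * N := by exact_mod_cast h2
    have hN0 : (0 : ℝ) < N := by
      have : 0 < N := by omega
      exact_mod_cast this
    have h4 := Real.log_le_log (by positivity) h3
    rw [Real.log_mul (by positivity) hN0.ne', Real.log_pow, Real.log_pow] at h4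
    have h5 : (1 : ℝ) / 3 ≤ Real.log 3 - Real.log 2 := by
      rw [← Real.log_div (by norm_num) (by norm_num)]
      have := Real.one_sub_inv_le_log_of_pos (show (0 : ℝ) < 3 / 2 by norm_num)
      norm_num at this ⊢
      linarith
    have h6 : (q : ℝ) ≤ 3 * Real.log N := by
      have hq0 : (0 : ℝ) ≤ q := by positivity
      nlinarith
    unfold ZZ
    have := Nat.le_floor h6
    omega

/-- The prime `q` does not divide `B`. -/
theorem q_not_dvd {q W Q B y N m Q₀ P : ℕ} (hq : q.Prime) (h : Fac q W Q (B ^ y)) (hy : 0 < y)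
    (hBN : B ≤ N) (hB0 : 0 < B) (hm : 0 < m) (hN : 4 ^ m ≤ N) (hQ₀ : 2 * m ≤ Q₀) (hQq : Q₀ < q)
    (hqZ : q ≤ ZZ N) (hZy : ZZ N ≤ Fc.yy N m) (hP : P.Prime) (hPB : P ∣ B) (hyP : Fc.yy N m < P)
    (hSP : B ∉ SP N Q₀ (ZZ N) (Fc.yy N m)) : ¬ q ∣ B := by
  intro hqB
  by_cases hPQ : P ∣ Q
  · rcases h.onemod P hP hPQ with h1 | h1
    · omega
    · exact hSP ⟨hB0, hBN, q, P, hq, hP, hQq, hqZ, hqB, hPB, hyP, h1⟩
  · have h1 := (h.prime_small hq.pos hy hBN hP hPB hPQ).1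
    have hNpos : 0 < N := lt_of_lt_of_le (by positivity) hN
    have hNR : (0 : ℝ) < N := by exact_mod_cast hNpos
    have hN1 : (1 : ℝ) ≤ N := by exact_mod_cast hNpos
    have hmR : (0 : ℝ) < m := by exact_mod_cast hm
    have h2 : (N : ℝ) ^ ((1 : ℝ) / m) < (Fc.yy N m : ℝ) + 1 := Nat.lt_floor_add_one _
    have h3 : (Fc.yy N m : ℝ) + 1 ≤ P := by exact_mod_cast hyP
    have h4 : (2 : ℝ) ≤ (N : ℝ) ^ ((1 : ℝ) / (2 * m)) := by
      have e1 : ((4 : ℝ) ^ m) ^ ((1 : ℝ) / (2 * m)) = 2 := by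
        rw [← Real.rpow_natCast, ← Real.rpow_mul (by norm_num)]
        have : (m : ℝ) * (1 / (2 * m)) = 1 / 2 := by field_simp
        rw [this, show (4 : ℝ) = 2 ^ (2 : ℝ) by norm_num, ← Real.rpow_mul (by norm_num)]
        norm_num
      calc (2 : ℝ) = ((4 : ℝ) ^ m) ^ ((1 : ℝ) / (2 * m)) := e1.symm
        _ ≤ _ := Real.rpow_le_rpow (by positivity) (by exact_mod_cast hN) (by positivity)
    have h5 : (N : ℝ) ^ ((1 : ℝ) / m) = (N : ℝ) ^ ((1 : ℝ) / (2 * m)) * (N : ℝ) ^ ((1 : ℝ) / (2 * m)) := by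
      rw [← Real.rpow_add hNR]; congr 1; field_simp; norm_num
    have h6 : (N : ℝ) ≤ ((N : ℝ) ^ ((1 : ℝ) / (2 * m))) ^ q := by
      rw [← Real.rpow_natCast, ← Real.rpow_mul hNR.le]
      calc (N : ℝ) = (N : ℝ) ^ (1 : ℝ) := (Real.rpow_one _).symm
        _ ≤ (N : ℝ) ^ ((1 : ℝ) / (2 * m) * q) := by
            apply Real.rpow_le_rpow_of_exponent_le hN1
            have : (2 : ℝ) * m ≤ q := by exact_mod_cast (by omega : 2 * m ≤ q)
            rw [one_div, inv_mul_eq_div, le_div_iff₀ (by positivity)]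
            linarith
    have h7 : (2 : ℝ) ^ q * N ≤ ((N : ℝ) ^ ((1 : ℝ) / m)) ^ q := by
      rw [h5, mul_pow]
      exact mul_le_mul (pow_le_pow_left₀ (by norm_num) h4 q) h6 hNR.le (by positivity)
    have h8 : ((N : ℝ) ^ ((1 : ℝ) / m)) ^ q < (P : ℝ) ^ q :=
      pow_lt_pow_left₀ (by linarith) (by positivity) hq.ne_zero
    have h9 : (2 : ℝ) ^ (q - 1) ≤ 2 ^ q := pow_le_pow_right₀ (by norm_num) (by omega)
    have h10 : (P : ℝ) ^ q ≤ 2 ^ (q - 1) * N := by exact_mod_cast h1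
    have h11 : (2 : ℝ) ^ (q - 1) * N ≤ 2 ^ q * N := by gcongr
    linarith

/-- Typical integers. -/
structure Typ (N m P₀ Q₀ Y B : ℕ) : Prop where
  big : ∃ P, P.Prime ∧ P ∣ B ∧ Fc.yy N m < P
  three : ∃ p, p ≤ P₀ ∧ p.Prime ∧ p % 4 = 3 ∧ p ∣ B
  ns : B ∉ NS N (ZZ N) Y
  sp : B ∉ SP N Q₀ (ZZ N) (Fc.yy N m)
  sq : N ≤ B ^ 2

theorem pair_case {N m P₀ Q₀ Y M X A B q x' y c : ℕ} (hm : 0 < m) (hN : 4 ^ m ≤ N)
    (hQ₀ : 2 * m ≤ Q₀) (hZy : ZZ N ≤ Fc.yy N m) (hPZ : P₀ ≤ ZZ N) (hq : q.Prime) (hq2 : q ≠ 2)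
    (hQq : Q₀ < q) (hA0 : 0 < A) (hAN : A ≤ N) (hB0 : 0 < B) (hBN : B ≤ N) (hAB : Nat.Coprime A B)
    (hA : Typ N m P₀ Q₀ Y A) (hB : Typ N m P₀ Q₀ Y B)
    (hM : 9 * N ^ (2 * P₀) * (ZZ N) ^ 2 < 2 ^ M) (hX1 : 2 * ZZ N * Y ≤ X)
    (hX2 : ZZ N * (2 * M + 1) ≤ X) (hx' : 0 < x') (hy : 0 < y) (hc : 0 < c)
    (h : A ^ (q * x') + B ^ y = c ^ q ∨ A ^ (q * x') + c ^ q = B ^ y ∨ B ^ y + c ^ q = A ^ (q * x')) :
    q * x' ≤ X ∧ y ≤ X := by
  obtain ⟨W, Q, hfac⟩ := exists_fac hq hq2 hA0 hB0 hAB hc h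
  obtain ⟨p, hpP, hp, hp3, hpB⟩ := hB.three
  have hp2 : p ≠ 2 := by rintro rfl; norm_num at hp3
  have hqZ := q_le hq hfac hy hBN hB0 hp hp2 hpB hpP hPZ
  obtain ⟨P, hP, hPB, hyP⟩ := hB.big
  have hqB := q_not_dvd hq hfac hy hBN hB0 hm hN hQ₀ hQq hqZ hZy hP hPB hyP hB.sp
  obtain ⟨r, hrP, hr, hr3, hrA⟩ := hA.three
  have hr2 : r ≠ 2 := by rintro rfl; norm_num at hr3
  have hB1 : 1 < B := by
    have := Nat.le_of_dvd hB0 hPB
    have := hP.two_le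
    omega
  have hN4 : 4 ≤ N := by
    calc 4 = 4 ^ 1 := by norm_num
      _ ≤ 4 ^ m := Nat.pow_le_pow_right (by norm_num) hm
      _ ≤ N := hN
  exact small_exponents hq hq2 hqZ hqB hAN hBN hA0 hB1 hAB hN4 hA.sq hB.sq hr hr2 hrA hrP hM hX1 hX2
    hB.ns hx' hy hc h

theorem pair_even {N m P₀ Q₀ Y M X A B x' y c : ℕ} (hm : 0 < m) (hN : 4 ^ m ≤ N)
    (hZ4 : 4 ≤ ZZ N) (hA0 : 0 < A) (hAN : A ≤ N) (hB0 : 0 < B) (hBN : B ≤ N)
    (hAB : Nat.Coprime A B) (hB2 : ¬ 2 ∣ B)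
    (hA : Typ N m P₀ Q₀ Y A) (hB : Typ N m P₀ Q₀ Y B)
    (hM : 9 * N ^ (2 * P₀) * (ZZ N) ^ 2 < 2 ^ M)
    (hX2 : ZZ N * (2 * M + 1) ≤ X) (hy : 0 < y) (hc : 0 < c)
    (h : A ^ (2 * x') + B ^ y = c ^ 2 ∨ A ^ (2 * x') + c ^ 2 = B ^ y ∨ B ^ y + c ^ 2 = A ^ (2 * x')) :
    2 * x' ≤ X ∧ y ≤ X := by
  obtain ⟨p, hpP, hp, hp3, hpB⟩ := hB.three
  obtain ⟨r, hrP, hr, hr3, hrA⟩ := hA.three
  have hr2 : r ≠ 2 := by rintro rfl; norm_num at hr3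
  have hB1 : 1 < B := by
    have := Nat.le_of_dvd hB0 hpB
    have := hp.two_le
    omega
  have hN4 : 4 ≤ N := by
    calc 4 = 4 ^ 1 := by norm_num
      _ ≤ 4 ^ m := Nat.pow_le_pow_right (by norm_num) hm
      _ ≤ N := hN
  exact even_case hAN hBN hA0 hB1 hB2 hAB hN4 hB.sq hp hp3 hpB hr hr2 hrA hrP hZ4 hM hX2 hy hc h

/-- The exceptional pairs. -/
def Exc (N : ℕ) : Set (ℕ × ℕ) :=
  {p | 0 < p.1 ∧ p.1 ≤ N ∧ 0 < p.2 ∧ p.2 ≤ N ∧ Nat.Coprime p.1 p.2 ∧ ∃ x y z C : ℕ,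
    0 < x ∧ 0 < y ∧ 0 < z ∧ 0 < C ∧
    (2 < Nat.gcd z (x * y) ∨ (1 < Nat.gcd z x ∧ ¬ 2 ∣ p.2) ∨ (1 < Nat.gcd z y ∧ ¬ 2 ∣ p.1)) ∧
    (p.1 ^ x + p.2 ^ y = C ^ z ∨ p.1 ^ x + C ^ z = p.2 ^ y ∨ p.2 ^ y + C ^ z = p.1 ^ x)}

/-- The pairs which are exceptional for some small exponent. -/
def Small (Q₀ : ℕ) : Set (ℕ × ℕ) := {p | ∃ n, 3 ≤ n ∧ n ≤ Q₀ + 4 ∧ p ∈ Beal.Exceptional n}

theorem small_null (Q₀ : ℕ) : Beal.UniformNull (Small Q₀) := by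
  have h : ∀ k : ℕ, Beal.UniformNull {p | ∃ n, 3 ≤ n ∧ n ≤ k + 3 ∧ p ∈ Beal.Exceptional n} := by
    intro k
    induction k with
    | zero =>
      refine (Beal.exceptional_null (n := 3) (by norm_num)).mono ?_
      rintro p ⟨n, h1, h2, h3⟩
      have : n = 3 := by omega
      rw [this] at h3
      exact h3
    | succ k ih =>
      refine (ih.union (Beal.exceptional_null (n := k + 4) (by omega))).mono ?_
      rintro p ⟨n, h1, h2, h3⟩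
      rcases Nat.lt_or_ge n (k + 4) with h | h
      · exact Or.inl ⟨n, h1, by omega, h3⟩
      · have : n = k + 4 := by omega
        rw [this] at h3
        exact Or.inr h3
  exact (h (Q₀ + 1)).mono (fun p hp => hp)

theorem exc_subset {N m P₀ Q₀ Y M X : ℕ} (hm : 0 < m) (hN : 4 ^ m ≤ N)
    (hQ₀ : 2 * m ≤ Q₀) (hZy : ZZ N ≤ Fc.yy N m) (hPZ : P₀ ≤ ZZ N)
    (hZ4 : 4 ≤ ZZ N)
    (hM : 9 * N ^ (2 * P₀) * (ZZ N) ^ 2 < 2 ^ M) (hX1 : 2 * ZZ N * Y ≤ X)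
    (hX2 : ZZ N * (2 * M + 1) ≤ X) :
    Exc N ⊆ ({B | 0 < B ∧ B ≤ N ∧ ¬ Typ N m P₀ Q₀ Y B} ×ˢ Set.Icc 1 N) ∪
      ((Set.Icc 1 N ×ˢ {B | 0 < B ∧ B ≤ N ∧ ¬ Typ N m P₀ Q₀ Y B}) ∪ (Fc.Bad N X ∪
        (Small Q₀ ∩ (Set.Ioc 0 (0 + N) ×ˢ Set.Ioc 0 (0 + N))))) := by
  rintro ⟨A, B⟩ ⟨hA0, hAN, hB0, hBN, hAB, x, y, z, C, hx, hy, hz, hC, hgcd', h⟩
  simp only at hA0 hAN hB0 hBN hAB h hgcd'
  by_cases hA : Typ N m P₀ Q₀ Y A
  swap
  · exact Or.inl ⟨⟨hA0, hAN, hA⟩, hB0, hBN⟩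
  by_cases hB : Typ N m P₀ Q₀ Y B
  swap
  · exact Or.inr (Or.inl ⟨⟨hA0, hAN⟩, hB0, hBN, hB⟩)
  refine Or.inr (Or.inr ?_)
  -- exceptional for a divisor of `z`
  have hexc : ∀ n, 3 ≤ n → n ∣ z → n ≤ Q₀ + 4 →
      (A, B) ∈ Small Q₀ ∩ (Set.Ioc 0 (0 + N) ×ˢ Set.Ioc 0 (0 + N)) := by
    intro n hn hnz hnQ
    refine ⟨⟨n, hn, hnQ, hA0, hB0, hAB, x, y, C ^ (z / n), hx, hy, by positivity, ?_⟩, ?_⟩
    · have : (C ^ (z / n)) ^ n = C ^ z := by rw [← pow_mul, Nat.div_mul_cancel hnz]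
      rw [this]; exact h
    · rw [Set.mem_prod, Set.mem_Ioc, Set.mem_Ioc, zero_add]
      exact ⟨⟨hA0, hAN⟩, hB0, hBN⟩
  rcases Nat.lt_or_ge 2 (Nat.gcd z (x * y)) with hgcd | hgcd
  swap
  · left
    have hzpos : 0 < Nat.gcd z (x * y) := Nat.gcd_pos_of_pos_left _ hz
    have hle : ∀ t, t ∣ x * y → Nat.gcd z t ≤ 2 := fun t ht =>
      (Nat.le_of_dvd hzpos (Nat.gcd_dvd_gcd_of_dvd_right z ht)).trans hgcd
    have hfin : (x ≤ X ∧ y ≤ X) ∧ 2 ≤ z := by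
      rcases hgcd' with h1 | ⟨h1, hB2⟩ | ⟨h1, hA2⟩
      · omega
      · have h2 : Nat.gcd z x = 2 := by have := hle x (Dvd.intro _ rfl); omega
        have h3 : 2 ∣ z := h2 ▸ Nat.gcd_dvd_left z x
        obtain ⟨x', rfl⟩ : 2 ∣ x := h2 ▸ Nat.gcd_dvd_right z x
        have hzq : (C ^ (z / 2)) ^ 2 = C ^ z := by rw [← pow_mul, Nat.div_mul_cancel h3]
        rw [← hzq] at h
        exact ⟨pair_even hm hN hZ4 hA0 hAN hB0 hBN hAB hB2 hA hB hM hX2 hy (by positivity) h, Nat.le_of_dvd hz h3⟩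
      · have h2 : Nat.gcd z y = 2 := by have := hle y (Dvd.intro_left _ rfl); omega
        have h3 : 2 ∣ z := h2 ▸ Nat.gcd_dvd_left z y
        obtain ⟨y', rfl⟩ : 2 ∣ y := h2 ▸ Nat.gcd_dvd_right z y
        have hzq : (C ^ (z / 2)) ^ 2 = C ^ z := by rw [← pow_mul, Nat.div_mul_cancel h3]
        rw [← hzq] at h
        have := pair_even (x' := y') (y := x) (c := C ^ (z / 2)) hm hN hZ4 hB0 hBN hA0 hAN hAB.symm
          hA2 hB hA hM hX2 hx (by positivity) (by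
            rcases h with h | h | h
            · left; rw [add_comm]; exact h
            · right; right; exact h
            · right; left; exact h)
        exact ⟨⟨this.2, this.1⟩, Nat.le_of_dvd hz h3⟩
    exact ⟨hA0, hAN, hB0, hBN, hAB, x, y, z, C, hx, hy, hfin.1.1, hfin.1.2, hfin.2, hC, h⟩
  have hz3 : 3 ≤ z := by
    have := Nat.le_of_dvd hz (Nat.gcd_dvd_left z (x * y))
    omega
  rcases Nat.four_dvd_or_exists_odd_prime_and_dvd_of_two_lt hgcd with h4 | ⟨q, hq, hqg, hodd⟩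
  · right
    exact hexc 4 (by norm_num) (h4.trans (Nat.gcd_dvd_left _ _)) (by omega)
  · have hq2 : q ≠ 2 := by rintro rfl; exact absurd hodd (by decide)
    have hq3 : 3 ≤ q := by have := hq.two_le; omega
    have hqz : q ∣ z := hqg.trans (Nat.gcd_dvd_left _ _)
    have hqxy : q ∣ x * y := hqg.trans (Nat.gcd_dvd_right _ _)
    rcases Nat.lt_or_ge Q₀ q with hQq | hQq
    swap
    · right
      exact hexc q hq3 hqz (by omega)
    · left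
      have hzq : (C ^ (z / q)) ^ q = C ^ z := by rw [← pow_mul, Nat.div_mul_cancel hqz]
      have hc0 : 0 < C ^ (z / q) := by positivity
      have hfin : x ≤ X ∧ y ≤ X := by
        rcases (Nat.Prime.dvd_mul hq).mp hqxy with h1 | h1
        · obtain ⟨x', rfl⟩ := h1
          have hx' : 0 < x' := by
            rcases Nat.eq_zero_or_pos x' with h2 | h2
            · rw [h2] at hx; simp at hx
            · exact h2
          rw [← hzq] at h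
          exact pair_case hm hN hQ₀ hZy hPZ hq hq2 hQq hA0 hAN hB0 hBN hAB hA hB hM hX1 hX2 hx' hy
            hc0 h
        · obtain ⟨y', rfl⟩ := h1
          have hy' : 0 < y' := by
            rcases Nat.eq_zero_or_pos y' with h2 | h2
            · rw [h2] at hy; simp at hy
            · exact h2
          rw [← hzq] at h
          have := pair_case (x' := y') (y := x) (c := C ^ (z / q)) hm hN hQ₀ hZy hPZ hq hq2 hQq hB0 hBN
            hA0 hAN hAB.symm hB hA hM hX1 hX2 hy' hx hc0 (by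
              rcases h with h | h | h
              · left; rw [add_comm]; exact h
              · right; right; exact h
              · right; left; exact h)
          exact ⟨this.2, this.1⟩
      exact ⟨hA0, hAN, hB0, hBN, hAB, x, y, z, C, hx, hy, hfin.1, hfin.2, by omega, hC, h⟩

theorem main : ∀ ε : ℝ, 0 < ε → ∃ N₀ : ℕ, ∀ N : ℕ, N₀ ≤ N →
    ((Exc N).ncard : ℝ) ≤ ε * (N : ℝ) ^ 2 := by
  intro ε hε
  obtain ⟨c, hc, N₁, hN₁⟩ := Fc.main (ε / 4) (by positivity)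
  obtain ⟨m, hm, P₁, N₂, hN₂⟩ := Fc.nice_density (ε := ε / 40) (by positivity)
  obtain ⟨P₀, N₃, hN₃⟩ := three_prime (ε := ε / 40) (by positivity)
  obtain ⟨Q₁, hQ₁⟩ := sp_density hm (ε := ε / 40) (by positivity)
  set Q₀ := max Q₁ (2 * m) with hQ₀
  obtain ⟨N₄, hN₄⟩ := hQ₁ Q₀ (le_max_left _ _)
  obtain ⟨N₅, hN₅⟩ := ns_density (c := c / 2) (by positivity) (ε := ε / 40) (by positivity)
  obtain ⟨N₆, hN₆⟩ := small_sq (ε := ε / 40) (by positivity)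
  obtain ⟨N₇, hN₇⟩ := small_null Q₀ (ε / 4) (by positivity)
  have hmR : (0 : ℝ) < m := by exact_mod_cast hm
  -- eventual inequalities
  have e1 := log_pow_le (k := 1) (show (0 : ℝ) < 1 / m by positivity) (show (0 : ℝ) < 4 by norm_num)
  have e2 := log_pow_le (k := 1) (show (0 : ℝ) < c / 2 by positivity) (show (0 : ℝ) < 16 by norm_num)
  have e3 := log_pow_le (k := 2) hc (show (0 : ℝ) < 4 * (20 * P₀ + 50) by positivity)
  obtain ⟨N₈, hN₈⟩ := eventually_atTop.mp (((e1.and e2).and e3).and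
    ((tendsto_log_nat.eventually (eventually_ge_atTop (max 1 (P₀ : ℝ)))).and
      (eventually_ge_atTop (4 ^ m))))
  refine ⟨max N₁ (max N₂ (max N₃ (max N₄ (max N₅ (max N₆ (max N₇ N₈)))))), fun N hN => ?_⟩
  simp only [max_le_iff] at hN
  obtain ⟨g1, g2, g3, g4, g5, g6, g7, g8⟩ := hN
  obtain ⟨⟨⟨b1, b2⟩, b3⟩, b4, b5⟩ := hN₈ N g8
  rw [pow_one] at b1 b2
  have hNpos : 0 < N := lt_of_lt_of_le (by positivity) b5
  have hNR : (0 : ℝ) < N := by exact_mod_cast hNpos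
  have hN1 : (1 : ℝ) ≤ N := by exact_mod_cast hNpos
  set L := Real.log N with hL
  have hL1 : 1 ≤ L := (le_max_left _ _).trans b4
  have hLP : (P₀ : ℝ) ≤ L := (le_max_right _ _).trans b4
  have hZ := ZZ_le (N := N) hL1
  rw [← hL] at hZ
  -- parameters
  set X : ℕ := ⌊(N : ℝ) ^ c⌋₊ with hX
  set Y : ℕ := ⌈(N : ℝ) ^ (c / 2)⌉₊ with hY
  set M : ℕ := 2 * P₀ * (Nat.log 2 N + 1) + 2 * ZZ N + 4 with hM
  have hXle : (X : ℝ) ≤ (N : ℝ) ^ c := Nat.floor_le (Real.rpow_nonneg hNR.le _)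
  have hPZ : P₀ ≤ ZZ N := by
    unfold ZZ
    have : P₀ ≤ ⌊3 * Real.log N⌋₊ := by
      apply Nat.le_floor
      rw [← hL]
      linarith
    omega
  have hZ4 : 4 ≤ ZZ N := by
    unfold ZZ
    have : 3 ≤ ⌊3 * Real.log N⌋₊ := by
      apply Nat.le_floor
      rw [← hL]
      push_cast
      linarith
    omega
  have hZy : ZZ N ≤ Fc.yy N m := by
    unfold Fc.yy
    apply Nat.le_floor
    linarith
  have hM1 : 9 * N ^ (2 * P₀) * (ZZ N) ^ 2 < 2 ^ M := by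
    have a1 : N < 2 ^ (Nat.log 2 N + 1) := Nat.lt_pow_succ_log_self (by norm_num) N
    have a2 : N ^ (2 * P₀) ≤ 2 ^ (2 * P₀ * (Nat.log 2 N + 1)) := by
      rw [mul_comm (2 * P₀) (Nat.log 2 N + 1), pow_mul 2 (Nat.log 2 N + 1) (2 * P₀)]
      exact Nat.pow_le_pow_left a1.le _
    have a3 : (ZZ N) ^ 2 ≤ 2 ^ (2 * ZZ N) := by
      rw [mul_comm 2 (ZZ N), pow_mul]
      exact Nat.pow_le_pow_left (Nat.lt_two_pow_self).le 2
    have a4 : 0 < 2 ^ (2 * P₀ * (Nat.log 2 N + 1)) * 2 ^ (2 * ZZ N) := by positivity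
    calc 9 * N ^ (2 * P₀) * (ZZ N) ^ 2 ≤ 9 * 2 ^ (2 * P₀ * (Nat.log 2 N + 1)) * 2 ^ (2 * ZZ N) :=
          Nat.mul_le_mul (Nat.mul_le_mul_left _ a2) a3
      _ = 9 * (2 ^ (2 * P₀ * (Nat.log 2 N + 1)) * 2 ^ (2 * ZZ N)) := by ring
      _ < 16 * (2 ^ (2 * P₀ * (Nat.log 2 N + 1)) * 2 ^ (2 * ZZ N)) := by omega
      _ = 2 ^ M := by rw [hM, pow_add, pow_add]; norm_num; ring
  have hYle : (Y : ℝ) ≤ 2 * (N : ℝ) ^ (c / 2) := by
    have a1 := (Nat.ceil_lt_add_one (Real.rpow_nonneg hNR.le (c / 2))).le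
    have a2 : (1 : ℝ) ≤ (N : ℝ) ^ (c / 2) := Real.one_le_rpow hN1 (by positivity)
    rw [← hY] at a1
    linarith
  have hX1 : 2 * ZZ N * Y ≤ X := by
    apply Nat.le_floor
    push_cast
    calc 2 * (ZZ N : ℝ) * Y ≤ 2 * (4 * L) * (2 * (N : ℝ) ^ (c / 2)) := by gcongr
      _ = (16 * L) * (N : ℝ) ^ (c / 2) := by ring
      _ ≤ (N : ℝ) ^ (c / 2) * (N : ℝ) ^ (c / 2) := by gcongr
      _ = (N : ℝ) ^ c := by rw [← Real.rpow_add hNR]; congr 1; ring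
  have hX2 : ZZ N * (2 * M + 1) ≤ X := by
    apply Nat.le_floor
    have a1 : (Nat.log 2 N : ℝ) ≤ 2 * L := by
      have e1 : (2 : ℝ) ^ (Nat.log 2 N) ≤ N := by exact_mod_cast Nat.pow_log_le_self 2 (by omega)
      have e2 := Real.log_le_log (by positivity) e1
      rw [Real.log_pow, ← hL] at e2
      have e3 := Real.log_two_gt_d9
      have e4 : (Nat.log 2 N : ℝ) * (1 / 2) ≤ Nat.log 2 N * Real.log 2 := by
        apply mul_le_mul_of_nonneg_left _ (by positivity)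
        linarith
      linarith
    have a2 : ((2 * M + 1 : ℕ) : ℝ) ≤ (20 * P₀ + 50) * L := by
      rw [hM]
      push_cast
      have hP0 : (0 : ℝ) ≤ P₀ := by positivity
      nlinarith
    push_cast at a2 ⊢
    calc (ZZ N : ℝ) * (2 * (M : ℝ) + 1) ≤ (4 * L) * ((20 * P₀ + 50) * L) := by gcongr
      _ = 4 * (20 * P₀ + 50) * L ^ 2 := by ring
      _ ≤ _ := b3
  have hYge : (N : ℝ) ^ (c / 2) ≤ Y := Nat.le_ceil _
  -- the four pieces
  have k1 := hN₁ N g1 X hXle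
  have k2 := hN₂ N g2
  have k3 := hN₃ N g3
  have k4 := hN₄ N g4
  have k5 := hN₅ N Y g5 hYge
  have k6 := hN₆ N g6
  have k7 := hN₇ N N g7 g7 0 0
  set S : Set ℕ := {B | 0 < B ∧ B ≤ N ∧ ¬ Typ N m P₀ Q₀ Y B} with hS
  have hSfin : S.Finite := (Set.finite_Icc 0 N).subset (fun B hB => ⟨Nat.zero_le _, hB.2.1⟩)
  set T1 : Set ℕ := {B : ℕ | 0 < B ∧ B ≤ N ∧ ¬ Fc.Nice N m P₁ B} with hT1
  set T2 : Set ℕ := {B : ℕ | 0 < B ∧ B ≤ N ∧ ∀ p : ℕ, p ≤ P₀ → p.Prime → p % 4 = 3 → ¬ p ∣ B} with hT2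
  set T3 : Set ℕ := NS N (ZZ N) Y with hT3
  set T4 : Set ℕ := SP N Q₀ (ZZ N) (Fc.yy N m) with hT4
  set T5 : Set ℕ := {B : ℕ | 0 < B ∧ B ≤ N ∧ B ^ 2 < N} with hT5
  have hSsub : S ⊆ T1 ∪ (T2 ∪ (T3 ∪ (T4 ∪ T5))) := by
    rintro B ⟨hB0, hBN, hB⟩
    by_contra hcon
    simp only [Set.mem_union, not_or] at hcon
    obtain ⟨c1, c2, c3, c4, c5⟩ := hcon
    apply hB
    refine ⟨?_, ?_, c3, c4, ?_⟩
    · have hnice : Fc.Nice N m P₁ B := by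
        by_contra hn
        exact c1 ⟨hB0, hBN, hn⟩
      obtain ⟨-, d, hd0, hdB, hdp, hd2, -⟩ := hnice
      have hd1 : d ≠ 1 := by
        rintro rfl
        rw [one_pow] at hd2
        omega
      exact ⟨d.minFac, Nat.minFac_prime hd1, (Nat.minFac_dvd d).trans hdB,
        hdp _ (Nat.minFac_prime hd1) (Nat.minFac_dvd d)⟩
    · by_contra hn
      apply c2
      refine ⟨hB0, hBN, fun p hp hpp hp2 hpB => hn ⟨p, hp, hpp, hp2, hpB⟩⟩
    · by_contra hn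
      exact c5 ⟨hB0, hBN, not_le.mp hn⟩
  have hTfin : (T1 ∪ (T2 ∪ (T3 ∪ (T4 ∪ T5)))).Finite := by
    apply (Set.finite_Icc 0 N).subset
    intro B hB
    rcases hB with h | h | h | h | h <;> exact ⟨Nat.zero_le _, h.2.1⟩
  have hScard : (S.ncard : ℝ) ≤ (ε / 8) * N := by
    have h1 := Set.ncard_le_ncard hSsub hTfin
    have h2 := Set.ncard_union_le T1 (T2 ∪ (T3 ∪ (T4 ∪ T5)))
    have h3 := Set.ncard_union_le T2 (T3 ∪ (T4 ∪ T5))
    have h4 := Set.ncard_union_le T3 (T4 ∪ T5)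
    have h5 := Set.ncard_union_le T4 T5
    have h6 : S.ncard ≤ T1.ncard + (T2.ncard + (T3.ncard + (T4.ncard + T5.ncard))) := by omega
    have h7 : (S.ncard : ℝ) ≤ T1.ncard + (T2.ncard + (T3.ncard + (T4.ncard + T5.ncard))) := by
      exact_mod_cast h6
    linarith
  have hsub := exc_subset (N := N) (m := m) (P₀ := P₀) (Q₀ := Q₀) (Y := Y) (M := M) (X := X) hm b5
    (le_max_right _ _) hZy hPZ hZ4 hM1 hX1 hX2
  have hIcc : (Set.Icc 1 N).ncard = N := by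
    rw [← Finset.coe_Icc, Set.ncard_coe_finset, Nat.card_Icc, Nat.add_sub_cancel]
  have hBadfin : (Fc.Bad N X).Finite := by
    apply ((Set.finite_Icc 0 N).prod (Set.finite_Icc 0 N)).subset
    rintro ⟨A, B⟩ h
    exact ⟨⟨Nat.zero_le _, h.2.1⟩, ⟨Nat.zero_le _, h.2.2.2.1⟩⟩
  have hSmfin : (Small Q₀ ∩ (Set.Ioc 0 (0 + N) ×ˢ Set.Ioc 0 (0 + N))).Finite :=
    (Beal.box_finite 0 0 N N).subset Set.inter_subset_right
  have hfin : ((S ×ˢ Set.Icc 1 N) ∪ ((Set.Icc 1 N ×ˢ S) ∪ (Fc.Bad N X ∪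
        (Small Q₀ ∩ (Set.Ioc 0 (0 + N) ×ˢ Set.Ioc 0 (0 + N)))))).Finite :=
    (hSfin.prod (Set.finite_Icc 1 N)).union (((Set.finite_Icc 1 N).prod hSfin).union
      (hBadfin.union hSmfin))
  have h1 := Set.ncard_le_ncard hsub hfin
  have h2 := Set.ncard_union_le (S ×ˢ Set.Icc 1 N) ((Set.Icc 1 N ×ˢ S) ∪ (Fc.Bad N X ∪
        (Small Q₀ ∩ (Set.Ioc 0 (0 + N) ×ˢ Set.Ioc 0 (0 + N)))))
  have h3 := Set.ncard_union_le (Set.Icc 1 N ×ˢ S) (Fc.Bad N X ∪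
        (Small Q₀ ∩ (Set.Ioc 0 (0 + N) ×ˢ Set.Ioc 0 (0 + N))))
  have h4 := Set.ncard_union_le (Fc.Bad N X) (Small Q₀ ∩ (Set.Ioc 0 (0 + N) ×ˢ Set.Ioc 0 (0 + N)))
  rw [Set.ncard_prod, hIcc] at h2
  rw [Set.ncard_prod, hIcc] at h3
  have h5 : (Exc N).ncard ≤ S.ncard * N + (N * S.ncard + ((Fc.Bad N X).ncard +
      (Small Q₀ ∩ (Set.Ioc 0 (0 + N) ×ˢ Set.Ioc 0 (0 + N))).ncard)) :=
    h1.trans (h2.trans (Nat.add_le_add_left (h3.trans (Nat.add_le_add_left h4 _)) _))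
  have h6 : ((Exc N).ncard : ℝ) ≤ S.ncard * N + (N * S.ncard + ((Fc.Bad N X).ncard +
      (Small Q₀ ∩ (Set.Ioc 0 (0 + N) ×ˢ Set.Ioc 0 (0 + N))).ncard)) := by exact_mod_cast h5
  calc ((Exc N).ncard : ℝ) ≤ _ := h6
    _ ≤ (ε / 8 * N) * N + (N * (ε / 8 * N) + (ε / 4 * (N : ℝ) ^ 2 + ε / 4 * (N * N))) := by gcongr
    _ = (3 / 4) * (ε * (N : ℝ) ^ 2) := by ring
    _ ≤ ε * (N : ℝ) ^ 2 := by
        have : 0 ≤ ε * (N : ℝ) ^ 2 := by positivity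
        linarith

end Pool.Agent.H374R2.Gc
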